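import Mathlib

set_option autoImplicit false

namespace Pool.Agent.H653

open Finset

/-- Average over the subsets of `{0, …, s-1}`. -/
noncomputable def avg (s : ℕ) (F : Finset ℕ → ℝ) : ℝ := (∑ A ∈ (range s).powerset, F A) / 2 ^ s

/-- `F` depends only on the elements below `s`. -/
def Loc {α : Type} (s : ℕ) (F : Finset ℕ → α) : Prop :=
  ∀ A A' : Finset ℕ, (∀ x < s, x ∈ A ↔ x ∈ A') → F A = F A'

theorem Loc.mono {α : Type} {s s' : ℕ} {F : Finset ℕ → α} (h : Loc s F) (e : s ≤ s') : Loc s' F :=
  fun A A' a => h A A' fun x hx => a x (hx.trans_le e)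

theorem avg_mono' {s : ℕ} {F G : Finset ℕ → ℝ} (h : ∀ A ⊆ range s, F A ≤ G A) : avg s F ≤ avg s G :=
  div_le_div_of_nonneg_right (sum_le_sum fun A hA => h A (mem_powerset.1 hA)) (by positivity)

theorem avg_mono {s : ℕ} {F G : Finset ℕ → ℝ} (h : ∀ A, F A ≤ G A) : avg s F ≤ avg s G :=
  avg_mono' fun A _ => h A

theorem avg_nonneg {s : ℕ} {F : Finset ℕ → ℝ} (h : ∀ A, 0 ≤ F A) : 0 ≤ avg s F :=
  div_nonneg (sum_nonneg fun A _ => h A) (by positivity)

theorem avg_add (s : ℕ) (F G : Finset ℕ → ℝ) : avg s (fun A => F A + G A) = avg s F + avg s G := by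
  simp only [avg, sum_add_distrib, add_div]

theorem avg_sub (s : ℕ) (F G : Finset ℕ → ℝ) : avg s (fun A => F A - G A) = avg s F - avg s G := by
  simp only [avg, sum_sub_distrib, sub_div]

theorem avg_mul (s : ℕ) (c : ℝ) (F : Finset ℕ → ℝ) : avg s (fun A => c * F A) = c * avg s F := by
  simp only [avg, ← mul_sum, mul_div_assoc]

theorem avg_sum {ι : Type} (s : ℕ) (T : Finset ι) (F : ι → Finset ℕ → ℝ) :
    avg s (fun A => ∑ i ∈ T, F i A) = ∑ i ∈ T, avg s (F i) := by
  simp only [avg, sum_comm (s := (range s).powerset), ← sum_div]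

theorem avg_const (s : ℕ) (c : ℝ) : avg s (fun _ => c) = c := by
  simp [avg, card_powerset]

theorem avg_loc {s s' : ℕ} (e : s ≤ s') {F : Finset ℕ → ℝ} (h : Loc s F) : avg s' F = avg s F := by
  induction e with
  | refl => rfl
  | @step t e ih =>
    rw [← ih, avg, avg, Nat.succ_eq_add_one, range_add_one, sum_powerset_insert (by simp)]
    have : ∀ A ∈ (range t).powerset, F (insert t A) = F A := fun A _ => h _ _ fun x hx => by
      simp only [mem_insert, or_iff_right_iff_imp]
      intro hh
      have : s ≤ t := e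
      omega
    rw [sum_congr rfl this, pow_succ]
    field_simp
    ring

/-- If the average of a sum of indicator functions is `< 1`, some set avoids all. -/
theorem exists_avoid {ι : Type} (s : ℕ) (T : Finset ι) (P : ι → Finset ℕ → Prop)
    (h : avg s (fun A => ∑ i ∈ T, open Classical in (if P i A then (1 : ℝ) else 0)) < 1) :
    ∃ A ⊆ range s, ∀ i ∈ T, ¬ P i A := by
  classical
  by_contra hc
  push Not at hc
  refine absurd h (not_lt.2 ((avg_const s 1).symm.le.trans (avg_mono' fun A hA => ?_)))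
  obtain ⟨i, hi, hp⟩ := hc A hA
  have := single_le_sum (s := T) (f := fun i => if P i A then (1 : ℝ) else 0)
      (fun i _ => by split_ifs <;> norm_num) hi
  simpa [hp] using this

end Pool.Agent.H653
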