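import Pool.Agent.H653.Cut2

set_option autoImplicit false

namespace Pool.Agent.H653

open Filter Pool.Agent.H40.Bsig

/-- Lower bound for the next generator. -/
noncomputable def tf (s : ℕ) : ℕ :=
  ((Finset.range (s + 1) ×ˢ Finset.range (s + 1)).sup fun q => use q.1 q.2 + bb q.1 q.2) + (s + 1) ^ 2

theorem use_le_tf {s a b : ℕ} (ha : a ≤ s) (hb : b ≤ s) : use a b + bb a b ≤ tf s :=
  le_add_right (Finset.le_sup (f := fun q : ℕ × ℕ => use q.1 q.2 + bb q.1 q.2) (b := (a, b))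
    (Finset.mem_product.2 ⟨Finset.mem_range.2 (by omega), Finset.mem_range.2 (by omega)⟩))

/-- The data at all coordinates. -/
structure Co where
  B : ℕ → ℕ → ℕ
  τ : ℕ → ℕ
  O : ℕ → ℕ → ℕ → Prop
  B0 : ∀ m, B 0 m = m
  step : ∀ j, ∀ᶠ m in U, tf (B j m) ≤ B (j + 1) m
  Bτ : ∀ j, ∀ᶠ m in U, B j m ≤ τ m
  settle : ∀ j, ∀ᶠ m in U, ∀ c ≤ B j m, ∀ x ≤ B j m, Rh (restr (g (O m)) (τ m)) c x →
    Rh (restr (g (O m)) (B (j + 1) m)) c x

namespace Co

open CD

variable (q : Co)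

/-- The cut. -/
def cd : CD where
  B := q.B
  B0 := Eventually.of_forall fun m => (q.B0 m).ge
  step := fun j => (q.step j).mono fun m e => (Nat.le_add_left _ _).trans e
  R := fun m => Rh (restr (g (q.O m)) (q.τ m))

variable {q}

theorem dom {f h : ℕ → ℕ} (a : q.cd.Bd f) (b : q.cd.Bd h) :
    q.cd.Bd fun m => use (f m) (h m) + bb (f m) (h m) := by
  obtain ⟨j, hj⟩ := a.max b
  exact ⟨j + 1, (hj.and (q.step j)).mono fun m e =>
    (use_le_tf ((le_max_left _ _).trans e.1) ((le_max_right _ _).trans e.1)).trans e.2⟩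

theorem lt_τ {f : ℕ → ℕ} (h : q.cd.Bd f) : ∀ᶠ m in U, f m < q.τ m := by
  obtain ⟨j, hj⟩ := h
  filter_upwards [hj, q.cd.lt_succ j, q.Bτ (j + 1)] with m a b c
  exact a.trans_lt (b.trans_le c)

theorem settle' {f h : ℕ → ℕ} (a : q.cd.Bd f) (b : q.cd.Bd h) : ∃ z, q.cd.Bd z ∧ (∀ᶠ m in U, z m < q.τ m) ∧
    (∀ᶠ m in U, f m < z m ∧ h m < z m) ∧
    ∀ᶠ m in U, ∀ c ≤ f m, ∀ x ≤ h m, q.cd.R m c x → Rh (restr (g (q.O m)) (z m)) c x := by
  obtain ⟨j, hj⟩ := a.max b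
  refine ⟨q.B (j + 1), bd_B _, lt_τ (bd_B _), ?_, ?_⟩
  · filter_upwards [hj, q.cd.lt_succ j] with m a b
    exact ⟨(le_max_left _ _).trans_lt (a.trans_lt b), (le_max_right _ _).trans_lt (a.trans_lt b)⟩
  · filter_upwards [hj, q.settle j] with m a b c hc x hx
    exact b c (hc.trans ((le_max_left _ _).trans a)) x (hx.trans ((le_max_right _ _).trans a))

theorem Rh_cutk {h : H} {k c x : ℕ} : Rh (cutk h k) c x ↔ c.unpair.1 ≤ k ∧ Rh h c x :=
  ⟨fun ⟨y, a, b⟩ => ⟨a, y, b⟩, fun ⟨a, y, b⟩ => ⟨y, a, b⟩⟩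

theorem sig : q.cd.Sig := by
  intro θ hθ V hV
  classical
  choose c c' k₀ h1 h2 using hV
  choose hk hk' using k₀
  -- common level
  let k : ℕ := (Finset.range θ.sup).sup hk
  have hkc : ∀ i < θ.sup, (∀ᶠ m in U, (rep (c i) m).unpair.1 ≤ k) ∧
      ∀ᶠ m in U, (rep (c' i) m).unpair.1 ≤ k := fun i hi => by
    have e : hk i ≤ k := Finset.le_sup (f := hk) (Finset.mem_range.2 hi)
    exact ⟨(hk' i).1.mono e, (hk' i).2.mono e⟩
  obtain ⟨d₂, h3, h4⟩ := code (2 * θ.sup) fun i => if i % 2 = 0 then c (i / 2) else c' (i / 2)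
  refine ⟨k, cod (.inl θ), d₂, h3, fun v d₁ h5 h6 x => ?_⟩
  have h4a : ∀ i < θ.sup, ∀ᶠ m in U, dec (d₂ m) (2 * i) = rep (c i) m := fun i hi => by
    simpa using h4 (2 * i) (by omega)
  have h4b : ∀ i < θ.sup, ∀ᶠ m in U, dec (d₂ m) (2 * i + 1) = rep (c' i) m := fun i hi => by
    simpa [Nat.add_mod, show (2 * i + 1) / 2 = i by omega] using h4 (2 * i + 1) (by omega)
  have h7 : ∀ᶠ m in U, ∀ i ∈ Set.Iio θ.sup, dec (d₁ m) i = rep (v i) m ∧
      dec (d₂ m) (2 * i) = rep (c i) m ∧ dec (d₂ m) (2 * i + 1) = rep (c' i) m ∧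
      (rep (c i) m).unpair.1 ≤ k ∧ (rep (c' i) m).unpair.1 ≤ k :=
    (eventually_all_finite (Set.finite_Iio _)).2 fun i (hi : i < _) => (h6 i hi).and
      ((h4a i hi).and ((h4b i hi).and ((hkc i hi).1.and (hkc i hi).2)))
  have h8 : ∀ b, q.cd.Bd b → ∀ᶠ m in U, ∀ i ∈ Set.Iio θ.sup, ∀ t < b m,
      (q.cd.R m (rep (c' i) m) t ↔ ¬ q.cd.R m (rep (c i) m) t) := fun b hb =>
    (eventually_all_finite (Set.finite_Iio _)).2 fun i _ => (ball_iff hb _).1 fun t _ => by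
      have e : t ∈ Zs (c' i) ↔ t ∉ Zs (c i) := by rw [← h1, ← h2]; rfl
      by_cases e' : t ∈ Zs (c i)
      · exact (e'.and (ae_not.2 fun e'' => e.1 e'' e')).mono fun m a => iff_of_false a.2 fun b => b a.1
      · exact ((e.2 e').and (ae_not.2 e')).mono fun m a => iff_of_true a.1 a.2
  have h9 : ∀ w : q.cd.I, Sat q.cd.M θ (cons w (cons x v)) V ↔ ∀ᶠ m in U,
      Sat std θ (cons (rep w m) (cons (rep x m) (dec (d₁ m)))) fun i => {t | q.cd.R m (rep (c i) m) t} :=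
    fun w => (los hθ (W := fun m i => {t | q.cd.R m (rep (c i) m) t}) (fun i t => by rw [h1]; rfl) _
      (fun m => cons (rep w m) (cons (rep x m) fun i => rep (v i) m))
      (cons_ae (cons_ae (fun _ => Eventually.of_forall fun _ => rfl)
        (Eventually.of_forall fun _ => rfl)) (Eventually.of_forall fun _ => rfl))).trans
      (eventually_congr (h7.mono fun m e => sat_congr θ
        (cons_congr (cons_congr (fun i hi => (e i hi).1.symm) _) _) fun _ _ => rfl))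
  refine ⟨fun ⟨w, hw⟩ => ?_, fun h => ?_⟩
  · have hb := (dom (bd_const (cod (.inl θ))) ((bd_rep w).pair ((bd_rep x).pair h5))).mono
      (Eventually.of_forall fun m => Nat.le_add_right _ _)
    obtain ⟨z, hz1, hz2, hz3, hz4⟩ := settle' (h3.max (bd_rep w)) hb
    filter_upwards [(h9 w).1 hw, h7, h8 _ hb, hz2, hz3, hz4] with m a1 a2 a3 a4 a5 a6
    set b := use (cod (.inl θ)) (Nat.pair (rep w m) (Nat.pair (rep x m) (d₁ m))) with hb
    refine ⟨z m, a4, (g_sig _ _ _ _ _).2 ⟨rep w m, (le_max_right _ _).trans_lt a5.1, fun V' e => ?_⟩⟩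
    simp only [Nat.unpair_pair] at e ⊢
    have e1 := (ex_use hθ (dec (Nat.pair (rep w m) (Nat.pair (rep x m) (d₁ m))))).choose_spec
      (fun i => {t | q.cd.R m (rep (c i) m) t})
      (fun i => if i < θ.sup then V' i else {t | q.cd.R m (rep (c i) m) t}) fun i t ht => by
        have ht' : t < b := by rw [hb, use, ops_cod]; simpa [hθ] using ht
        split_ifs with hi
        · have e3 := e i hi t (ht'.trans a5.2)
          obtain ⟨_, b1, b2, b3, b4⟩ := a2 i hi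
          rw [Rh_cutk, Rh_cutk, b1, b2] at e3
          have c1 : rep (c i) m ≤ max (d₂ m) (rep w m) :=
            (b1 ▸ dec_le _ _ : rep (c i) m ≤ d₂ m).trans (le_max_left _ _)
          have c2 : rep (c' i) m ≤ max (d₂ m) (rep w m) :=
            (b2 ▸ dec_le _ _ : rep (c' i) m ≤ d₂ m).trans (le_max_left _ _)
          exact ⟨fun e4 => e3.1 ⟨b3, a6 _ c1 t ht'.le e4⟩, fun e4 => by_contra fun e5 =>
            e3.2 ⟨b4, a6 _ c2 t ht'.le ((a3 i hi t ht').2 e5)⟩ e4⟩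
        · rfl
    rw [dec_pair, dec_pair] at e1
    exact (sat_congr θ (fun _ _ => rfl) fun i hi => if_pos hi).1 (e1.1 a1)
  · obtain ⟨z, hz1, hz2, hz3, hz4⟩ := settle' ((bd_const k).pair ((bd_const (cod (.inl θ))).pair
      (h5.pair h3))) (bd_rep x)
    have h' : ∀ᶠ m in U, ∃ y < z m, Good θ (cutk (restr (g (q.O m)) y) k) y
        (Nat.pair (d₁ m) (d₂ m)) (rep x m) := by
      filter_upwards [h, hz4] with m a b
      obtain ⟨y, hy1, hy2⟩ := b _ le_rfl _ le_rfl a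
      exact ⟨y, hy1, (g_sig _ _ _ _ _).1 hy2⟩
    obtain ⟨y, hy⟩ := ae_choose h'
    obtain ⟨f, hf⟩ := ae_choose (hy.mono fun m e => e.2)
    have hyb : q.cd.Bd y := hz1.mono (hy.mono fun m e => e.1.le)
    obtain ⟨w, hw⟩ := ex_rep (hyb.mono (hf.mono fun _ e => e.1.le))
    refine ⟨w, (h9 w).2 ?_⟩
    filter_upwards [hf, hw, h7, h8 _ hyb, lt_τ hyb] with m a1 a2 a3 a4 a5
    have e := a1.2 fun i => {t | q.cd.R m (rep (c i) m) t}
    simp only [Nat.unpair_pair] at e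
    refine a2 ▸ e fun i hi t ht => ⟨fun e' => ?_, fun e' => ?_⟩
    · have := (Rh_cutk.1 e').2
      rw [(a3 i hi).2.1] at this
      exact Rh_mono a5.le this
    · have := (Rh_cutk.1 e').2
      rw [(a3 i hi).2.2.1] at this
      exact (a4 i hi t ht).1 (Rh_mono a5.le this)

theorem decS (j : ℕ) {d : ℕ → ℕ} (hd : q.cd.Bd d) :
    {x : q.cd.I | ∀ᶠ m in U, Psi (q.O m) j (d m) (rep x m)} ∈ q.cd.M.S := by
  obtain ⟨c, hc⟩ := ex_rep ((bd_const (p := q.cd) j).pair ((bd_const (cod (.inr (j, true)))).pair hd))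
  obtain ⟨c', hc'⟩ := ex_rep ((bd_const (p := q.cd) j).pair ((bd_const (cod (.inr (j, false)))).pair hd))
  refine ⟨c, c', ⟨j, hc.mono fun m e => by rw [e, Nat.unpair_pair], hc'.mono fun m e => by
    rw [e, Nat.unpair_pair]⟩, Set.ext fun x => eventually_congr ?_,
    Set.ext fun x => ae_not.symm.trans (eventually_congr ?_)⟩
  · filter_upwards [hc, lt_τ (bd_rep x)] with m e e'
    show _ ↔ Rh (restr (g (q.O m)) (q.τ m)) _ _
    rw [e, R_dec_restr j true j _ _ _ le_rfl e']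
    simp
  · filter_upwards [hc', lt_τ (bd_rep x)] with m e e'
    show _ ↔ Rh (restr (g (q.O m)) (q.τ m)) _ _
    rw [e, R_dec_restr j false j _ _ _ le_rfl e']
    simp

theorem rca : RCA0 q.cd.M := CD.rca sig ⟨_, decS 0 (bd_const 0)⟩

theorem bnd : Bnd q.cd.M 2 := CD.bnd sig

end Co

end Pool.Agent.H653
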