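import Pool.Agent.H653.Ran

set_option autoImplicit false

namespace Pool.Agent.H653

open Pool.Agent.H40.Bsig Finset Classical

theorem avg_lt_one {s : ℕ} {F : Finset ℕ → ℝ} (h : avg s F < 1) : ∃ A ⊆ range s, F A < 1 := by
  by_contra hc
  push Not at hc
  exact absurd h (not_lt.2 ((avg_const s 1).symm.le.trans (avg_mono' hc)))

theorem ind1_zero {P : Prop} (h : ind1 P < 1) : ¬ P := fun hp => by
  rw [ind1_true hp] at h
  exact lt_irrefl _ h

theorem term_lt {ι : Type} {T : Finset ι} {F : ι → ℝ} (h0 : ∀ i, 0 ≤ F i) (h : ∑ i ∈ T, F i < 1) {i : ι}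
    (hi : i ∈ T) : F i < 1 := (single_le_sum (fun i _ => h0 i) hi).trans_lt h

def Lf (s : ℕ) : ℕ := ((s + 1) ^ 2 + 1) ^ 2

theorem pair_lt_Lf {s b c x : ℕ} (hb : b ≤ 1) (hc : c ≤ s) (hx : x ≤ s) :
    Nat.pair b (Nat.pair c x) < Lf s := by
  have h1 : Nat.pair c x < (s + 1) ^ 2 := (Nat.pair_lt_max_add_one_sq c x).trans_le
    (Nat.pow_le_pow_left (Nat.succ_le_succ (max_le hc hx)) 2)
  refine (Nat.pair_lt_max_add_one_sq b _).trans_le (Nat.pow_le_pow_left (Nat.succ_le_succ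
    (max_le (hb.trans ?_) h1.le)) 2)
  exact Nat.one_le_pow _ _ (Nat.succ_pos s)

theorem le_lt_Lf {s e : ℕ} (h : e ≤ s) : e < Lf s := by
  unfold Lf
  nlinarith [sq_nonneg s]

noncomputable def εf (s : ℕ) : ℝ := 1 / 2 ^ (s + 4)

/-- The family of strings which are not killed. -/
noncomputable def Bf (K : ℕ) (D : ℕ → Finset ℕ) (k n a t e : ℕ) (A : Finset ℕ) : Finset (Finset ℕ) :=
  if TLev e k then (range t).powerset.filter fun σ => ∃ i < a, ¬ Kill (g (orc K D A)) e n i t σ else ∅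

theorem Bf_loc {K : ℕ} {D : ℕ → Finset ℕ} {j n a t e : ℕ} (hj : j < K) (A A' : Finset ℕ)
    (h : ∀ y, (∀ x < t, y ≠ K * x + j) → (y ∈ A ↔ y ∈ A')) :
    Bf K D (j + 1) n a t e A = Bf K D (j + 1) n a t e A' := by
  unfold Bf
  by_cases hT : TLev e (j + 1)
  · rw [if_pos hT, if_pos hT]
    refine filter_congr fun σ _ => exists_congr fun i => and_congr_right fun _ => not_congr ?_
    refine Kill_loc hT fun j' hj' x _ => ?_
    cases j' with
    | zero => exact Iff.rfl
    | succ j' =>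
      refine and_congr_right fun hjK => h _ fun x' _ e => ?_
      have e1 : (K * x + j') % K = j' := by rw [Nat.mul_add_mod, Nat.mod_eq_of_lt hjK]
      have e2 : (K * x' + j) % K = j := by rw [Nat.mul_add_mod, Nat.mod_eq_of_lt hj]
      rw [e, e2] at e1
      omega
  · rw [if_neg hT, if_neg hT]

theorem add_one_le_two_pow (s : ℕ) : s + 1 ≤ 2 ^ s := Nat.lt_two_pow_self

theorem coord (m : ℕ) : ∃ (S : ℕ → ℕ) (D : ℕ → Finset ℕ) (T : ℕ → Finset ℕ) (A : Finset ℕ),
    S 0 = m ∧ (∀ j ≤ m, S j ≤ S m) ∧ (∀ l < m, tf (S l) ≤ S (l + 1)) ∧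
    (∀ y, ∃ c : ℕ → ℕ, (∀ x ∈ D y, c x < m) ∧
      ∀ x ∈ D y, ∀ x' ∈ D y, x < x' → (x ∈ D x' ↔ c x ≠ c x')) ∧
    ∀ l < m, (∀ e < Lf (S l), (VF (m + 1) e).P (S m) D A → (VF (m + 1) e).P (S (l + 1)) D A) ∧
      (∀ x ∈ T l, x < S (l + 1)) ∧ (∀ y, S (l + 1) ≤ y → T l ⊆ D y) ∧
      (∀ e < Lf (S l), (∃ x, S (l + 1) ≤ x ∧ x < S m ∧ (WF (m + 1) e x).P (S m) D A) →
        ∃ x ∈ T l, (WF (m + 1) e x).P (S m) D A) ∧
      ∀ j ≤ m, ∀ l' ≤ m, ∀ l'' ≤ m, ∀ e ≤ S l, TLev e (j + 1) →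
        #((range (S l'')).powerset.filter fun σ =>
          ∃ i < S l', ¬ Kill (g (orc (m + 1) D A)) e (nn (S l)) i (S l'') σ) * 2 ^ nn (S l) ≤
            2 * 2 ^ S l'' →
        ∀ i < S l', Kill (g (orc (m + 1) D A)) e (nn (S l)) i (S l'')
          ((range (S l'')).filter (orc (m + 1) D A (j + 1))) := by
  obtain ⟨D, S, T, h1, h2, h3, h4, h5⟩ := levels (K := m + 1) (VF (m + 1)) (WF (m + 1)) Lf tf εf
    (fun s => by unfold εf; positivity) (fun s => by
      unfold εf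
      rw [div_le_one (by positivity)]
      exact one_le_pow₀ (by norm_num)) m m (fun _ => ∅) ∅ (by simp)
  -- the times
  have hS1 : ∀ l < m, S l < S (l + 1) := fun l hl => by
    have := (h5 l hl).2.1
    have h : S l < tf (S l) := by
      unfold tf
      nlinarith
    omega
  have hSm : ∀ j ≤ m, ∀ l ≤ j, S l ≤ S j := fun j => by
    induction j with
    | zero => intro _ l hl; rw [Nat.le_zero.1 hl]
    | succ j ih =>
      intro hj l hl
      rcases hl.eq_or_lt with rfl | hl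
      · exact le_rfl
      · exact (ih (by omega) l (by omega)).trans (hS1 j (by omega)).le
  have hSl : ∀ l ≤ m, m + l ≤ S l := fun l => by
    induction l with
    | zero => intro _; rw [h1]; exact le_rfl
    | succ l ih =>
      intro hl
      have := ih (by omega)
      have := hS1 l (by omega)
      omega
  set τ := S m with hτ
  set K := m + 1 with hK
  -- the bad events
  let X : ℕ → Finset ℕ → ℝ := fun l A => ∑ e ∈ range (Lf (S l)),
    ind1 ((VF K e).P τ D A ∧ ¬ (VF K e).P (S (l + 1)) D A)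
  let Y : ℕ → Finset ℕ → ℝ := fun l A => ∑ e ∈ range (Lf (S l)),
    ind1 ((∃ x, S (l + 1) ≤ x ∧ x < τ ∧ (WF K e x).P τ D A) ∧ ¬ ∃ x ∈ T l, (WF K e x).P τ D A)
  let R : ℕ → ℕ × ℕ × ℕ × ℕ → Finset ℕ → Prop := fun l p A =>
    #(Bf K D (p.1 + 1) (nn (S l)) (S p.2.1) (S p.2.2.1) p.2.2.2 A) * 2 ^ nn (S l) ≤ 2 * 2 ^ S p.2.2.1 ∧
      (range (S p.2.2.1)).filter (fun x => K * x + p.1 ∈ A) ∈
        Bf K D (p.1 + 1) (nn (S l)) (S p.2.1) (S p.2.2.1) p.2.2.2 A
  let Z : ℕ → Finset ℕ → ℝ := fun l A =>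
    ∑ p ∈ range K ×ˢ range K ×ˢ range K ×ˢ range (S l + 1), ind1 (R l p A)
  have hX0 : ∀ l A, 0 ≤ X l A := fun l A => sum_nonneg fun _ _ => ind1_nonneg _
  have hY0 : ∀ l A, 0 ≤ Y l A := fun l A => sum_nonneg fun _ _ => ind1_nonneg _
  have hZ0 : ∀ l A, 0 ≤ Z l A := fun l A => sum_nonneg fun _ _ => ind1_nonneg _
  have hZ : ∀ l < m, avg (K * τ) (Z l) ≤ 1 / 2 ^ (S l + 4) := by
    intro l hl
    have z1 : avg (K * τ) (Z l) ≤
        ∑ p ∈ range K ×ˢ range K ×ˢ range K ×ˢ range (S l + 1), (2 : ℝ) / 2 ^ nn (S l) := by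
      rw [show avg (K * τ) (Z l) = ∑ p ∈ range K ×ˢ range K ×ˢ range K ×ˢ range (S l + 1),
        avg (K * τ) (fun A => ind1 (R l p A)) from avg_sum _ _ _]
      refine sum_le_sum fun p hp => ?_
      simp only [mem_product, mem_range] at hp
      refine fubini (K * τ) (S p.2.2.1) (nn (S l)) (fun x => K * x + p.1) (fun x _ x' _ e => ?_)
        (fun x hx => ?_) (Bf K D (p.1 + 1) (nn (S l)) (S p.2.1) (S p.2.2.1) p.2.2.2)
        fun A A' h => Bf_loc hp.1 A A' h
      · have : K * x = K * x' := by simpa using e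
        exact Nat.eq_of_mul_eq_mul_left (Nat.succ_pos m) this
      · have h6 : S p.2.2.1 ≤ τ := hSm m le_rfl _ (by omega)
        calc K * x + p.1 < K * x + K := Nat.add_lt_add_left hp.1 _
          _ = K * (x + 1) := by ring
          _ ≤ K * τ := Nat.mul_le_mul_left K (by omega)
    refine z1.trans ?_
    rw [sum_const, card_product, card_product, card_product, card_range, card_range, nsmul_eq_mul]
    have hs := hSl l hl.le
    have e1 : K * (K * (K * (S l + 1))) ≤ 2 ^ (4 * S l) := by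
      have a1 : K ≤ 2 ^ S l := (show K ≤ S l + 1 by omega).trans (add_one_le_two_pow _)
      calc K * (K * (K * (S l + 1))) ≤ 2 ^ S l * (2 ^ S l * (2 ^ S l * 2 ^ S l)) :=
            Nat.mul_le_mul a1 (Nat.mul_le_mul a1 (Nat.mul_le_mul a1 (add_one_le_two_pow _)))
        _ = 2 ^ (4 * S l) := by ring
    have e2 : ((K * (K * (K * (S l + 1))) : ℕ) : ℝ) ≤ 2 ^ (4 * S l) := by exact_mod_cast e1
    calc ((K * (K * (K * (S l + 1))) : ℕ) : ℝ) * (2 / 2 ^ nn (S l)) ≤
          2 ^ (4 * S l) * (2 / 2 ^ nn (S l)) := mul_le_mul_of_nonneg_right e2 (by positivity)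
      _ = 2 ^ (4 * S l + 1) / 2 ^ nn (S l) := by rw [pow_succ]; ring
      _ ≤ 1 / 2 ^ (S l + 4) := by
        rw [div_le_div_iff₀ (by positivity) (by positivity), ← pow_add, one_mul]
        exact pow_le_pow_right₀ (by norm_num) (by unfold nn; omega)
  have htot : avg (K * τ) (fun A => ∑ l ∈ range m, (X l A + (Y l A + Z l A))) < 1 := by
    rw [avg_sum]
    calc ∑ l ∈ range m, avg (K * τ) (fun A => X l A + (Y l A + Z l A)) ≤
          ∑ l ∈ range m, (3 / 16 : ℝ) * (1 / 2) ^ l := by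
          refine sum_le_sum fun l hl => ?_
          have hl' := mem_range.1 hl
          rw [avg_add, avg_add]
          have b1 : avg (K * τ) (X l) ≤ 1 / 2 ^ (S l + 4) :=
            ((h5 l hl').2.2.2.2 τ (hSm m le_rfl _ hl')).1
          have b2 : avg (K * τ) (Y l) ≤ 1 / 2 ^ (S l + 4) :=
            ((h5 l hl').2.2.2.2 τ (hSm m le_rfl _ hl')).2
          have b3 := hZ l hl'
          have b4 : (1 : ℝ) / 2 ^ (S l + 4) ≤ 1 / 2 ^ (l + 4) :=
            one_div_le_one_div_of_le (by positivity)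
              (pow_le_pow_right₀ (by norm_num) (by have := hSl l hl'.le; omega))
          have b5 : (1 : ℝ) / 2 ^ (l + 4) = (1 / 16) * (1 / 2) ^ l := by
            rw [pow_add, one_div_pow]
            field_simp
            ring
          linarith
      _ = (3 / 16 : ℝ) * ∑ l ∈ range m, (1 / 2 : ℝ) ^ l := by rw [mul_sum]
      _ < 1 := by
        have : ∑ l ∈ range m, (1 / 2 : ℝ) ^ l ≤ 2 := by
          rw [geom_sum_eq (by norm_num)]
          have : (0 : ℝ) ≤ (1 / 2) ^ m := by positivity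
          have e : ((1 / 2 : ℝ) ^ m - 1) / (1 / 2 - 1) = 2 * (1 - (1 / 2) ^ m) := by ring
          rw [e]
          linarith
        linarith
  obtain ⟨A, _, hA⟩ := avg_lt_one htot
  have hterm : ∀ l < m, X l A < 1 ∧ Y l A < 1 ∧ Z l A < 1 := fun l hl => by
    have := term_lt (F := fun l => X l A + (Y l A + Z l A))
      (fun l => add_nonneg (hX0 l A) (add_nonneg (hY0 l A) (hZ0 l A))) hA (mem_range.2 hl)
    have a := hX0 l A
    have b := hY0 l A
    have c := hZ0 l A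
    exact ⟨by linarith, by linarith, by linarith⟩
  refine ⟨S, D, T, A, h1, fun j hj => hSm m le_rfl j hj, fun l hl => (h5 l hl).2.1, fun y => ?_,
    fun l hl => ⟨fun e he h => ?_, fun x hx => (mem_Ico.1 ((h5 l hl).2.2.1 hx)).2, (h5 l hl).2.2.2.1,
      fun e he h => ?_, fun j hj l' hl' l'' hl'' e he hT hgood i hi => ?_⟩⟩
  · by_cases hy : y < m
    · rw [h2 y hy]
      exact ⟨fun _ => 0, by simp, by simp⟩
    · have hy' : m ≤ y := not_lt.1 hy
      obtain ⟨c, c1, c2⟩ := (h4 (y + 1)).mult y (mem_Ico.2 ⟨hy', Nat.lt_succ_self y⟩)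
      have hin : ∀ x ∈ D y, x ∈ Ico m (y + 1) := fun x hx => by
        refine mem_Ico.2 ⟨?_, ((h3 y hy').2 x hx).trans (Nat.lt_succ_self y)⟩
        by_contra hlt
        have := ((h3 y hy').1 x (not_le.1 hlt)).1 hx
        simp at this
      exact ⟨c, fun x hx => c1 x hx (hin x hx), fun x hx x' hx' l => c2 x hx x' hx' (hin x hx)
        (hin x' hx') l⟩
  · by_contra hn
    exact ind1_zero (term_lt (fun e => ind1_nonneg _) (hterm l hl).1 (mem_range.2 he)) ⟨h, hn⟩
  · by_contra hn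
    exact ind1_zero (term_lt (fun e => ind1_nonneg _) (hterm l hl).2.1 (mem_range.2 he)) ⟨h, hn⟩
  · by_contra hn
    have hp : ((j, l', l'', e) : ℕ × ℕ × ℕ × ℕ) ∈ range K ×ˢ range K ×ˢ range K ×ˢ range (S l + 1) := by
      simp only [mem_product, mem_range]
      omega
    have hR := ind1_zero (term_lt (F := fun p => ind1 (R l p A)) (fun p => ind1_nonneg _)
      (hterm l hl).2.2 hp)
    refine hR ⟨?_, ?_⟩
    · show #(Bf K D (j + 1) (nn (S l)) (S l') (S l'') e A) * 2 ^ nn (S l) ≤ 2 * 2 ^ S l''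
      rw [Bf, if_pos hT]
      exact hgood
    · show (range (S l'')).filter (fun x => K * x + j ∈ A) ∈
        Bf K D (j + 1) (nn (S l)) (S l') (S l'') e A
      rw [Bf, if_pos hT]
      have e1 : (range (S l'')).filter (fun x => K * x + j ∈ A) =
          (range (S l'')).filter (orc K D A (j + 1)) := filter_congr fun x _ =>
        ⟨fun h => ⟨by omega, h⟩, fun h => h.2⟩
      rw [e1]
      exact mem_filter.2 ⟨mem_powerset.2 (filter_subset _ _), i, hi, hn⟩

end Pool.Agent.H653
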