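import Pool.Agent.H653.Lev

set_option autoImplicit false

namespace Pool.Agent.H653

open Finset Classical

/-- A fact about colourings and sets which is verified at a finite stage. -/
structure Fact (K : ℕ) where
  P : ℕ → (ℕ → Finset ℕ) → Finset ℕ → Prop
  mono : ∀ {t t' D A}, t ≤ t' → P t D A → P t' D A
  loc : ∀ {t D D' A A'}, (∀ y < t, D y = D' y) → (∀ x < K * t, x ∈ A ↔ x ∈ A') → (P t D A ↔ P t D' A')

noncomputable def ind1 (P : Prop) : ℝ := if P then 1 else 0

theorem ind1_nonneg (P : Prop) : 0 ≤ ind1 P := by unfold ind1; split_ifs <;> norm_num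
theorem ind1_le (P : Prop) : ind1 P ≤ 1 := by unfold ind1; split_ifs <;> norm_num
theorem ind1_mono {P Q : Prop} (h : P → Q) : ind1 P ≤ ind1 Q := by
  by_cases hP : P
  · rw [ind1, ind1, if_pos hP, if_pos (h hP)]
  · rw [ind1, if_neg hP]
    exact ind1_nonneg Q
theorem ind1_true {P : Prop} (h : P) : ind1 P = 1 := if_pos h
theorem ind1_false {P : Prop} (h : ¬ P) : ind1 P = 0 := if_neg h

section

variable {K s r : ℕ} {D0 : ℕ → Finset ℕ} {Act : Finset ℕ} (V : ℕ → Fact K) (W : ℕ → ℕ → Fact K)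

/-- Unused elements of the `e`-th set in block `j`. -/
noncomputable def fr (σ : LS s D0 Act r) (e : ℕ) (A : Finset ℕ) (j : ℕ) : Finset ℕ :=
  ((Ico s σ.t).filter (σ.blk · = j)).filter fun x => σ.use x = 0 ∧ (W e x).P σ.t σ.D A

/-- Number of blocks with an unused element of the `e`-th set. -/
noncomputable def nb (σ : LS s D0 Act r) (e : ℕ) (A : Finset ℕ) : ℕ :=
  #{j ∈ range (σ.k + 1) | (fr W σ e A j).Nonempty}

variable (β : ℕ → ℝ) (G L : ℕ)

noncomputable def pot (σ : LS s D0 Act r) : ℝ :=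
  mass L (K * σ.t) (fun e A => ∑ g ∈ range (G + 1), (1 - (1 - β g) ^ nb W σ e A)) +
    mass L (K * σ.t) fun e A => ind1 ((V e).P σ.t σ.D A)

theorem fr_loc (σ : LS s D0 Act r) (e j : ℕ) : Loc (K * σ.t) fun A => fr W σ e A j := fun A A' h => by
  refine filter_congr fun x _ => ?_
  rw [(W e x).loc (fun _ _ => rfl) h]

theorem nb_loc (σ : LS s D0 Act r) (e : ℕ) : Loc (K * σ.t) fun A => nb W σ e A := fun A A' h => by
  show nb W σ e A = nb W σ e A'
  unfold nb
  congr 1
  refine filter_congr fun j _ => ?_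
  rw [show fr W σ e A j = fr W σ e A' j from fr_loc W σ e j A A' h]

theorem pot_le (hβ : ∀ g, β g ≤ 1) (σ : LS s D0 Act r) :
    pot V W β G L σ ≤ L * (G + 1) + L := by
  unfold pot
  refine add_le_add ((mass_mono (Y := fun _ _ => (G + 1 : ℝ)) fun e A => ?_).trans_eq
    (mass_const _ _ _)) ((mass_mono (Y := fun _ _ => 1) fun e A => ind1_le _).trans_eq ?_)
  · calc _ ≤ ∑ g ∈ range (G + 1), (1 : ℝ) := sum_le_sum fun g _ => by
          have : 0 ≤ (1 - β g) ^ nb W σ e A := pow_nonneg (by linarith [hβ g]) _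
          linarith
      _ = G + 1 := by simp
  · rw [mass_const, mul_one]

/-- The pigeonhole principle for the gaps. -/
theorem gap (σ : LS s D0 Act r) {M : ℕ → ℕ} (hM : ∀ g, M g ≤ M (g + 1)) {ε : ℝ}
    (hG : 4 * (L : ℝ) < ε * G) : ∃ g < G, mass L (K * σ.t) (fun e A =>
      ind1 (M g ≤ nb W σ e A ∧ nb W σ e A < M (g + 1))) ≤ ε / 4 := by
  by_contra hc
  push Not at hc
  have h1 : (G : ℝ) * (ε / 4) ≤ ∑ g ∈ range G, mass L (K * σ.t) (fun e A =>
      ind1 (M g ≤ nb W σ e A ∧ nb W σ e A < M (g + 1))) := by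
    calc (G : ℝ) * (ε / 4) = ∑ g ∈ range G, ε / 4 := by simp
      _ ≤ _ := sum_le_sum fun g hg => (hc g (mem_range.1 hg)).le
  rw [← mass_sum] at h1
  have h2 : mass L (K * σ.t) (fun e A => ∑ g ∈ range G,
      ind1 (M g ≤ nb W σ e A ∧ nb W σ e A < M (g + 1))) ≤ L := by
    refine (mass_mono (Y := fun _ _ => 1) fun e A => ?_).trans_eq (by rw [mass_const, mul_one])
    have e1 : ∀ g, ind1 (M g ≤ nb W σ e A ∧ nb W σ e A < M (g + 1)) =
        ind1 (M g ≤ nb W σ e A) - ind1 (M (g + 1) ≤ nb W σ e A) := fun g => by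
      have := hM g
      unfold ind1
      by_cases a : M g ≤ nb W σ e A
      · by_cases b : M (g + 1) ≤ nb W σ e A
        · rw [if_neg (by omega), if_pos a, if_pos b, sub_self]
        · rw [if_pos (by omega), if_pos a, if_neg b, sub_zero]
      · rw [if_neg (by omega), if_neg a, if_neg (by omega), sub_self]
    rw [sum_congr rfl fun g _ => e1 g, sum_range_sub']
    have := ind1_le (M 0 ≤ nb W σ e A)
    have := ind1_nonneg (M G ≤ nb W σ e A)
    linarith
  linarith

end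

/-- **The level lemma.** -/
theorem core {K : ℕ} (V : ℕ → Fact K) (W : ℕ → ℕ → Fact K) (s : ℕ) (D0 : ℕ → Finset ℕ) (Act : Finset ℕ)
    (hAct : ∀ x ∈ Act, x < s) (r : ℕ) (hr : ∀ D V, (∀ y ∈ V, ∀ x ∈ V, x ∉ D y) → Q r D V)
    (L tm : ℕ) {ε : ℝ} (hε : 0 < ε) (hε1 : ε ≤ 1) :
    ∃ (t : ℕ) (D : ℕ → Finset ℕ) (T : Finset ℕ), s ≤ t ∧ tm ≤ t ∧ (∀ y < s, D y = D0 y) ∧
      T ⊆ Ico s t ∧ (∀ y, s ≤ y → y < t → (∀ x < s, (x ∈ D y ↔ x ∈ Act)) ∧ ∀ x ∈ D y, x < y) ∧
      ∀ t' D', t ≤ t' → (∀ y < t, D' y = D y) →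
        (∀ y, t ≤ y → y < t' → (∀ x < t, (x ∈ D' y ↔ x ∈ Act ∪ T)) ∧ ∀ x ∈ D' y, x < y) →
        Q r D' (Ico t t') →
        Q (r + 1) D' (Ico s t') ∧
        mass L (K * t') (fun e A => ind1 ((V e).P t' D' A ∧ ¬ (V e).P t D' A)) ≤ ε ∧
        mass L (K * t') (fun e A => ind1 ((∃ x, t ≤ x ∧ x < t' ∧ (W e x).P t' D' A) ∧
          ¬ ∃ x ∈ T, (W e x).P t' D' A)) ≤ ε := by
  -- scales
  have hθ : (0 : ℝ) < (1 / 4) ^ r := by positivity
  have hθ1 : ((1 : ℝ) / 4) ^ r ≤ 1 := pow_le_one₀ (by norm_num) (by norm_num)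
  obtain ⟨G, hG⟩ := exists_nat_gt (4 * (L : ℝ) / ε)
  rw [div_lt_iff₀ hε, mul_comm (G : ℝ)] at hG
  obtain ⟨M, hM0, hM1, hM2⟩ := ex_scales L G hε hε1 hθ
  have hMm : Monotone M := monotone_nat_of_le_succ hM1
  set β : ℕ → ℝ := fun g => 1 / (2 * M g) with hβ
  have hM0' : ∀ g, (0 : ℝ) < M g := fun g => by exact_mod_cast hM0 g
  have hβ0 : ∀ g, 0 < β g := fun g => by have := hM0' g; simp only [hβ]; positivity
  have hβ1 : ∀ g, β g ≤ 1 / 2 := fun g => by
    have h1 : (1 : ℝ) ≤ M g := by exact_mod_cast hM0 g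
    simp only [hβ]
    rw [div_le_div_iff₀ (by positivity) (by norm_num)]
    linarith
  -- near maximal structure
  let Ω := {σ : LS s D0 Act r // tm ≤ σ.t}
  have : Nonempty Ω := ⟨⟨LS.init s D0 Act hAct r (max s tm) (le_max_left _ _) hr, le_max_right _ _⟩⟩
  have hδ : 0 < ε / (32 * M G) := div_pos hε (mul_pos (by norm_num) (hM0' G))
  obtain ⟨⟨σ, hσt⟩, hσ⟩ := near_max (fun a : Ω => pot V W β G L a.1)
    (fun a => pot_le V W β G L (fun g => (hβ1 g).trans (by norm_num)) a.1) hδ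
  obtain ⟨g, hgG, hgap⟩ := gap W G L σ hM1 hG
  obtain ⟨q, hq0, hq1, hq2, hq3⟩ := hM2 g
  -- selection
  set P := range L ×ˢ (range (K * σ.t)).powerset with hP
  set α : ℝ := 1 / (8 * M g) with hα
  have hα0 : 0 < α := by have := hM0' g; rw [hα]; positivity
  obtain ⟨Y, hY, I, hI, hsel⟩ := select P (range (G + 1)) (fun j => (Ico s σ.t).filter (σ.blk · = j))
    (fun p j => fr W σ p.1 p.2 j) (fun p j => filter_subset _ _) (Indep σ.D) ((1 / 4) ^ r) q hθ.le hθ1
    hq0.le (hq1.trans (by norm_num)) (fun g => (1 - β g)⁻¹) (range (σ.k + 1))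
    (fun j hj w hw => (σ.blocks j (Nat.lt_succ_iff.1 (mem_range.1 hj))).wt w hw)
    (fun p => α * ind1 (M (g + 1) ≤ nb W σ p.1 p.2)) (fun p g => (1 - β g) ^ nb W σ p.1 p.2)
    (fun p => mul_nonneg hα0.le (ind1_nonneg _))
  set T := Y.biUnion fun j => (I j).filter fun x => σ.use x = 0 with hT
  have hTs : ∀ x, x ∈ T ↔ ∃ j ∈ Y, x ∈ I j ∧ σ.use x = 0 := fun x => by simp [hT]
  have hTI : T ⊆ Ico s σ.t := fun x hx => by
    obtain ⟨j, hj, h1, _⟩ := (hTs x).1 hx
    exact (mem_filter.1 ((hI j hj).1 h1)).1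
  have hTblk : ∀ j ∈ Y, ∀ x ∈ I j, σ.blk x = j := fun j hj x hx => (mem_filter.1 ((hI j hj).1 hx)).2
  have hT0 : ∀ x ∈ T, σ.use x = 0 := fun x hx => by
    obtain ⟨j, hj, _, h1⟩ := (hTs x).1 hx
    exact h1
  have hTi : Indep σ.D T := fun x hx y hy hxy => by
    obtain ⟨j, hj, h1, _⟩ := (hTs x).1 hx
    obtain ⟨j', hj', h2, _⟩ := (hTs y).1 hy
    obtain ⟨a1, a2⟩ := mem_Ico.1 (hTI hx)
    obtain ⟨b1, b2⟩ := mem_Ico.1 (hTI hy)
    have l := σ.lt y b1 b2 x hxy
    have m := σ.blk_mono x y a1 l.le b2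
    rcases m.eq_or_lt with m | m
    · have : j = j' := by rw [← hTblk j hj x h1, ← hTblk j' hj' y h2, m]
      subst this
      exact (hI j hj).2 x h1 y h2 hxy
    · have := (σ.cross x y a1 l b2 m).1 hxy
      rw [hT0 x hx] at this
      omega
  -- number of lost blocks
  set lo : ℕ → Finset ℕ → ℕ := fun e A => #{j ∈ Y | (fr W σ e A j).Nonempty} with hlo
  have hlo_le : ∀ e A, lo e A ≤ nb W σ e A := fun e A => card_le_card (filter_subset_filter _ hY)
  have hlo_loc : ∀ e, Loc (K * σ.t) (lo e) := fun e A A' h => by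
    simp only [hlo]
    congr 1
    refine filter_congr fun j _ => ?_
    rw [show fr W σ e A j = fr W σ e A' j from fr_loc W σ e j A A' h]
  -- unhit at the selection
  set un : ℕ → Finset ℕ → Prop := fun e A => ¬ ∃ x ∈ T, (W e x).P σ.t σ.D A with hun
  -- consequence of the selection in terms of masses
  have hm : α * mass L (K * σ.t) (fun e A => ind1 (M (g + 1) ≤ nb W σ e A ∧ un e A)) +
      mass L (K * σ.t) (fun e A => ∑ g ∈ range (G + 1),
        ((1 - β g) ^ (nb W σ e A - lo e A) - (1 - β g) ^ nb W σ e A)) ≤ ε / (32 * M g) := by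
    have c1 : ∀ g, (0 : ℝ) < 1 - β g := fun g => by linarith [hβ1 g]
    -- left side
    have s1 : ∀ p ∈ P, α * ind1 (M (g + 1) ≤ nb W σ p.1 p.2 ∧ un p.1 p.2) +
        ∑ g ∈ range (G + 1), (1 - β g) ^ (nb W σ p.1 p.2 - lo p.1 p.2) ≤
        α * ind1 (M (g + 1) ≤ nb W σ p.1 p.2) *
          (if ∀ j ∈ Y, Disjoint (fr W σ p.1 p.2 j) (I j) then 1 else 0) +
          ∑ g ∈ range (G + 1), (1 - β g) ^ nb W σ p.1 p.2 *
            (1 - β g)⁻¹ ^ #{j ∈ Y | (fr W σ p.1 p.2 j).Nonempty} := by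
      intro p _
      refine add_le_add ?_ (sum_le_sum fun g _ => ?_)
      · rw [mul_assoc]
        refine mul_le_mul_of_nonneg_left ?_ hα0.le
        by_cases h : M (g + 1) ≤ nb W σ p.1 p.2 ∧ un p.1 p.2
        · rw [ind1_true h, ind1_true h.1, if_pos, mul_one]
          intro j hj
          rw [disjoint_left]
          intro x hx hxI
          obtain ⟨_, hx2, hx3⟩ := mem_filter.1 hx
          exact h.2 ⟨x, (hTs x).2 ⟨j, hj, hxI, hx2⟩, hx3⟩
        · rw [ind1_false h]
          exact mul_nonneg (ind1_nonneg _) (by split_ifs <;> norm_num)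
      · have e1 : nb W σ p.1 p.2 = (nb W σ p.1 p.2 - lo p.1 p.2) + lo p.1 p.2 :=
          (Nat.sub_add_cancel (hlo_le _ _)).symm
        have e2 : #{j ∈ Y | (fr W σ p.1 p.2 j).Nonempty} = lo p.1 p.2 := rfl
        rw [e2]
        conv_rhs => rw [e1, pow_add, mul_assoc, ← mul_pow, mul_inv_cancel₀ (c1 g).ne', one_pow, mul_one]
    -- right side
    have s2 : ∀ p ∈ P, α * ind1 (M (g + 1) ≤ nb W σ p.1 p.2) *
          (1 - q * (1 / 4) ^ r) ^ #{j ∈ range (σ.k + 1) | (fr W σ p.1 p.2 j).Nonempty} +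
        ∑ g ∈ range (G + 1), (1 - β g) ^ nb W σ p.1 p.2 *
          (1 - q + q * (1 - β g)⁻¹) ^ #{j ∈ range (σ.k + 1) | (fr W σ p.1 p.2 j).Nonempty} ≤
        α * (1 / (M (g + 1) * (q * (1 / 4) ^ r))) + ((G + 1) * (2 * q) +
          ∑ g ∈ range (G + 1), (1 - β g) ^ nb W σ p.1 p.2) := by
      intro p _
      have e2 : #{j ∈ range (σ.k + 1) | (fr W σ p.1 p.2 j).Nonempty} = nb W σ p.1 p.2 := rfl
      rw [e2]
      have hqθ0 : 0 < q * (1 / 4) ^ r := mul_pos hq0 hθ
      have hqθ1 : q * (1 / 4 : ℝ) ^ r ≤ 1 := by nlinarith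
      refine add_le_add ?_ ?_
      · rw [mul_assoc]
        refine mul_le_mul_of_nonneg_left ?_ hα0.le
        by_cases h : M (g + 1) ≤ nb W σ p.1 p.2
        · rw [ind1_true h, one_mul]
          exact unhit_le hqθ0 hqθ1 (hM0 _) h
        · rw [ind1_false h, zero_mul]
          have := hM0' (g + 1)
          positivity
      · have e3 : ((G : ℝ) + 1) * (2 * q) = ∑ g ∈ range (G + 1), (2 * q) := by simp
        rw [e3, ← sum_add_distrib]
        refine sum_le_sum fun g _ => ?_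
        rw [← mul_pow]
        have e4 : (1 - β g) * (1 - q + q * (1 - β g)⁻¹) = 1 - β g + β g * q := by
          have := (c1 g).ne'
          field_simp
          ring
        rw [e4]
        linarith [loss_le (hβ0 g).le ((hβ1 g).trans (by norm_num)) hq0.le hq1 (nb W σ p.1 p.2)]
    have s3 := (sum_le_sum s1).trans (hsel.trans (sum_le_sum s2))
    have s4 : (∑ p ∈ P, (α * ind1 (M (g + 1) ≤ nb W σ p.1 p.2 ∧ un p.1 p.2) +
        ∑ g ∈ range (G + 1), (1 - β g) ^ (nb W σ p.1 p.2 - lo p.1 p.2))) / 2 ^ (K * σ.t) ≤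
        (∑ p ∈ P, (α * (1 / (M (g + 1) * (q * (1 / 4) ^ r))) + ((G + 1) * (2 * q) +
          ∑ g ∈ range (G + 1), (1 - β g) ^ nb W σ p.1 p.2))) / 2 ^ (K * σ.t) :=
      div_le_div_of_nonneg_right s3 (by positivity)
    rw [hP, ← mass_eq L (K * σ.t) (fun e A => α * ind1 (M (g + 1) ≤ nb W σ e A ∧ un e A) +
        ∑ g ∈ range (G + 1), (1 - β g) ^ (nb W σ e A - lo e A)),
      ← mass_eq L (K * σ.t) (fun e A => α * (1 / (M (g + 1) * (q * (1 / 4) ^ r))) + ((G + 1) * (2 * q) +
          ∑ g ∈ range (G + 1), (1 - β g) ^ nb W σ e A)), mass_add, mass_add, mass_add, mass_mul,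
      mass_const, mass_const] at s4
    have s5 : mass L (K * σ.t) (fun e A => ∑ g ∈ range (G + 1),
        ((1 - β g) ^ (nb W σ e A - lo e A) - (1 - β g) ^ nb W σ e A)) =
        mass L (K * σ.t) (fun e A => ∑ g ∈ range (G + 1), (1 - β g) ^ (nb W σ e A - lo e A)) -
        mass L (K * σ.t) (fun e A => ∑ g ∈ range (G + 1), (1 - β g) ^ nb W σ e A) := by
      rw [← mass_sub]
      simp only [sum_sub_distrib]
    rw [s5]
    have s6 : (L : ℝ) * (α * (1 / (M (g + 1) * (q * (1 / 4) ^ r)))) ≤ ε / (64 * M g) := by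
      calc (L : ℝ) * (α * (1 / (M (g + 1) * (q * (1 / 4) ^ r)))) =
          α * (L / (M (g + 1) * (q * (1 / 4) ^ r))) := by ring
        _ ≤ α * (ε / 8) := mul_le_mul_of_nonneg_left hq3 hα0.le
        _ = ε / (64 * M g) := by rw [hα]; field_simp; ring
    have s7 : ε / (32 * M g) = ε / (64 * M g) + ε / (64 * M g) := by
      have := (hM0' g).ne'
      field_simp
      ring
    have s8 : (L : ℝ) * ((G + 1) * (2 * q)) = (G + 1) * L * (2 * q) := by ring
    rw [s7]
    rw [s8] at s4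
    linarith
  set Λ := mass L (K * σ.t) (fun e A => ∑ g ∈ range (G + 1),
        ((1 - β g) ^ (nb W σ e A - lo e A) - (1 - β g) ^ nb W σ e A)) with hΛ
  have hΛ0 : 0 ≤ Λ := mass_nonneg fun e A => sum_nonneg fun g _ => by
    have : (1 - β g) ^ nb W σ e A ≤ (1 - β g) ^ (nb W σ e A - lo e A) :=
      pow_le_pow_of_le_one (by linarith [hβ1 g]) (by linarith [hβ0 g]) (Nat.sub_le _ _)
    linarith
  have hun0 : 0 ≤ mass L (K * σ.t) (fun e A => ind1 (M (g + 1) ≤ nb W σ e A ∧ un e A)) :=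
    mass_nonneg fun e A => ind1_nonneg _
  have hΛ1 : Λ ≤ ε / (32 * M g) := by nlinarith
  have hun1 : mass L (K * σ.t) (fun e A => ind1 (M (g + 1) ≤ nb W σ e A ∧ un e A)) ≤ ε / 4 := by
    have h1 : α * mass L (K * σ.t) (fun e A => ind1 (M (g + 1) ≤ nb W σ e A ∧ un e A)) ≤
        ε / (32 * M g) := by linarith
    have h2 : ε / (32 * M g) = α * (ε / 4) := by
      rw [hα]
      have := (hM0' g).ne'
      field_simp
      ring
    rw [h2] at h1
    exact le_of_mul_le_mul_left h1 hα0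
  have hδle : ε / (32 * M G) ≤ ε / (32 * M g) := by
    have : (M g : ℝ) ≤ M G := by exact_mod_cast hMm hgG.le
    have := hM0' g
    exact div_le_div_of_nonneg_left hε.le (by positivity) (by linarith)
  refine ⟨σ.t, σ.D, T, σ.hst, hσt, σ.base, hTI, fun y h1 h2 => ⟨σ.act y h1 h2, σ.lt y h1 h2⟩,
    fun t' D' ht hD hD' hq => ?_⟩
  set σ' := σ.ext T hTI hT0 hTi t' D' ht hD hD' hAct hq with hσ'
  have hKt : K * σ.t ≤ K * t' := Nat.mul_le_mul_left K ht
  have hpot : pot V W β G L σ' < pot V W β G L σ + ε / (32 * M G) := hσ ⟨σ', hσt.trans ht⟩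
  -- facts at the old stage do not depend on the new part
  have hold : ∀ (F : Fact K) A, F.P σ.t D' A ↔ F.P σ.t σ.D A := fun F A => F.loc hD fun _ _ => Iff.rfl
  -- new elements
  set new : ℕ → Finset ℕ → Prop := fun e A => ∃ x, σ.t ≤ x ∧ x < t' ∧ (W e x).P t' D' A with hnew
  have hnb : ∀ e A, nb W σ e A - lo e A + (if new e A then 1 else 0) ≤ nb W σ' e A := by
    intro e A
    have sub : ∀ j < σ.k + 1, j ∉ Y → (fr W σ e A j).Nonempty → (fr W σ' e A j).Nonempty := by
      rintro j hj hjY ⟨x, hx⟩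
      obtain ⟨hx1, hx2, hx3⟩ := mem_filter.1 hx
      obtain ⟨hx4, hx5⟩ := mem_filter.1 hx1
      have hx6 := mem_Ico.1 hx4
      refine ⟨x, mem_filter.2 ⟨mem_filter.2 ⟨mem_Ico.2 ⟨hx6.1, hx6.2.trans_le ht⟩, ?_⟩, ?_, ?_⟩⟩
      · show (if x < σ.t then σ.blk x else σ.k + 1) = j
        rw [if_pos hx6.2]
        exact hx5
      · show (if x ∈ T then σ.k + 1 else if x < σ.t then σ.use x else 0) = 0
        rw [if_neg, if_pos hx6.2]
        · exact hx2
        · intro h
          obtain ⟨j', hj', h1, _⟩ := (hTs x).1 h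
          rw [← hx5, hTblk j' hj' x h1] at hjY
          exact hjY hj'
      · exact (W e x).mono ht ((hold _ _).2 hx3)
    have c1 : nb W σ e A - lo e A ≤ #{j ∈ range (σ.k + 1) | (fr W σ' e A j).Nonempty} := by
      have e1 : {j ∈ range (σ.k + 1) | (fr W σ e A j).Nonempty} ⊆
          {j ∈ range (σ.k + 1) | (fr W σ' e A j).Nonempty} ∪ {j ∈ Y | (fr W σ e A j).Nonempty} := by
        intro j hj
        obtain ⟨hj1, hj2⟩ := mem_filter.1 hj
        by_cases h : j ∈ Y
        · exact mem_union_right _ (mem_filter.2 ⟨h, hj2⟩)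
        · exact mem_union_left _ (mem_filter.2 ⟨hj1, sub j (mem_range.1 hj1) h hj2⟩)
      have e2 := (card_le_card e1).trans (card_union_le _ _)
      have e3 : nb W σ e A = #{j ∈ range (σ.k + 1) | (fr W σ e A j).Nonempty} := rfl
      have e4 : lo e A = #{j ∈ Y | (fr W σ e A j).Nonempty} := rfl
      omega
    have c2 : nb W σ' e A = #{j ∈ range (σ.k + 1) | (fr W σ' e A j).Nonempty} +
        if (fr W σ' e A (σ.k + 1)).Nonempty then 1 else 0 := by
      show #{j ∈ range (σ.k + 1 + 1) | (fr W σ' e A j).Nonempty} = _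
      rw [range_add_one (n := σ.k + 1), filter_insert]
      split_ifs with h
      · rw [card_insert_of_notMem (by simp)]
      · rfl
    rw [c2]
    refine add_le_add c1 ?_
    by_cases h : new e A
    · obtain ⟨x, h1, h2, h3⟩ := h
      have : (fr W σ' e A (σ.k + 1)).Nonempty := by
        refine ⟨x, mem_filter.2 ⟨mem_filter.2 ⟨mem_Ico.2 ⟨σ.hst.trans h1, h2⟩, ?_⟩, ?_, h3⟩⟩
        · show (if x < σ.t then σ.blk x else σ.k + 1) = σ.k + 1
          rw [if_neg (by omega)]
        · show (if x ∈ T then σ.k + 1 else if x < σ.t then σ.use x else 0) = 0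
          rw [if_neg (fun e => by have := mem_Ico.1 (hTI e); omega), if_neg (by omega)]
      rw [if_pos this]
      split_ifs <;> norm_num
    · rw [if_neg h]
      exact Nat.zero_le _
  -- lower bound for the new potential
  have low1 : mass L (K * t') (fun e A => ∑ g ∈ range (G + 1), (1 - (1 - β g) ^ nb W σ e A)) - Λ +
      1 / (4 * M g) * mass L (K * t') (fun e A => ind1 (new e A ∧ nb W σ e A < M g)) ≤
      mass L (K * t') (fun e A => ∑ g ∈ range (G + 1), (1 - (1 - β g) ^ nb W σ' e A)) := by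
    have hΛ' : Λ = mass L (K * t') (fun e A => ∑ g ∈ range (G + 1),
        ((1 - β g) ^ (nb W σ e A - lo e A) - (1 - β g) ^ nb W σ e A)) := by
      rw [hΛ]
      refine (mass_loc hKt fun e A A' h => ?_).symm
      have h1 : nb W σ e A = nb W σ e A' := nb_loc W σ e A A' h
      have h2 : lo e A = lo e A' := hlo_loc e A A' h
      simp only [h1, h2]
    rw [hΛ', ← mass_sub, ← mass_mul, ← mass_add]
    refine mass_mono fun e A => ?_
    rw [← sum_sub_distrib]
    have d1 : ∀ g', (1 - (1 - β g') ^ nb W σ e A) - ((1 - β g') ^ (nb W σ e A - lo e A) -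
        (1 - β g') ^ nb W σ e A) = 1 - (1 - β g') ^ (nb W σ e A - lo e A) := fun g' => by ring
    rw [sum_congr rfl fun g' _ => d1 g']
    have d2 : ∀ g', (1 - β g') ^ nb W σ' e A ≤ (1 - β g') ^ (nb W σ e A - lo e A) := fun g' =>
      pow_le_pow_of_le_one (by linarith [hβ1 g']) (by linarith [hβ0 g'])
        ((Nat.le_add_right _ _).trans (hnb e A))
    by_cases h : new e A ∧ nb W σ e A < M g
    · rw [ind1_true h, mul_one]
      have hg : g ∈ range (G + 1) := mem_range.2 (hgG.trans (Nat.lt_succ_self _))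
      rw [← add_sum_erase _ _ hg, ← add_sum_erase (range (G + 1))
        (fun g' => 1 - (1 - β g') ^ nb W σ' e A) hg]
      have d3 : ∑ g' ∈ (range (G + 1)).erase g, (1 - (1 - β g') ^ (nb W σ e A - lo e A)) ≤
          ∑ g' ∈ (range (G + 1)).erase g, (1 - (1 - β g') ^ nb W σ' e A) :=
        sum_le_sum fun g' _ => by linarith [d2 g']
      have d4 : 1 / (4 * M g : ℝ) ≤ (1 - β g) ^ (nb W σ e A - lo e A) -
          (1 - β g) ^ (nb W σ e A - lo e A + 1) :=
        gain_ge ((Nat.sub_le _ _).trans h.2.le) (hM0 g)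
      have d5 : (1 - β g) ^ nb W σ' e A ≤ (1 - β g) ^ (nb W σ e A - lo e A + 1) :=
        pow_le_pow_of_le_one (by linarith [hβ1 g]) (by linarith [hβ0 g]) (by
          have := hnb e A
          rwa [if_pos h.1] at this)
      linarith
    · rw [ind1_false h, mul_zero, add_zero]
      exact sum_le_sum fun g' _ => by linarith [d2 g']
  have low2 : mass L (K * σ.t) (fun e A => ∑ g ∈ range (G + 1), (1 - (1 - β g) ^ nb W σ e A)) =
      mass L (K * t') (fun e A => ∑ g ∈ range (G + 1), (1 - (1 - β g) ^ nb W σ e A)) := by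
    refine (mass_loc hKt fun e A A' h => ?_).symm
    have h1 : nb W σ e A = nb W σ e A' := nb_loc W σ e A A' h
    simp only [h1]
  have low3 : mass L (K * σ.t) (fun e A => ind1 ((V e).P σ.t σ.D A)) =
      mass L (K * t') (fun e A => ind1 ((V e).P σ.t D' A)) := by
    have : mass L (K * t') (fun e A => ind1 ((V e).P σ.t D' A)) =
        mass L (K * t') (fun e A => ind1 ((V e).P σ.t σ.D A)) := by
      simp only [hold]
    rw [this]
    refine (mass_loc hKt fun e A A' h => ?_).symm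
    simp only [(V e).loc (fun _ _ => rfl) h]
  have low4 : mass L (K * t') (fun e A => ind1 ((V e).P t' D' A)) -
      mass L (K * t') (fun e A => ind1 ((V e).P σ.t D' A)) =
      mass L (K * t') (fun e A => ind1 ((V e).P t' D' A ∧ ¬ (V e).P σ.t D' A)) := by
    rw [← mass_sub]
    congr 1
    funext e A
    by_cases h1 : (V e).P σ.t D' A
    · have h2 := (V e).mono ht h1
      rw [ind1_true h1, ind1_true h2, ind1_false (fun h => h.2 h1), sub_self]
    · by_cases h2 : (V e).P t' D' A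
      · rw [ind1_false h1, ind1_true h2, ind1_true ⟨h2, h1⟩, sub_zero]
      · rw [ind1_false h1, ind1_false h2, ind1_false (fun h => h2 h.1), sub_zero]
  have hpot' : mass L (K * t') (fun e A => ∑ g ∈ range (G + 1), (1 - (1 - β g) ^ nb W σ' e A)) +
      mass L (K * t') (fun e A => ind1 ((V e).P t' D' A)) <
      mass L (K * σ.t) (fun e A => ∑ g ∈ range (G + 1), (1 - (1 - β g) ^ nb W σ e A)) +
      mass L (K * σ.t) (fun e A => ind1 ((V e).P σ.t σ.D A)) + ε / (32 * M G) := hpot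
  rw [low2, low3] at hpot'
  have hV0 : 0 ≤ mass L (K * t') (fun e A => ind1 ((V e).P t' D' A ∧ ¬ (V e).P σ.t D' A)) :=
    mass_nonneg fun e A => ind1_nonneg _
  have hN0 : 0 ≤ mass L (K * t') (fun e A => ind1 (new e A ∧ nb W σ e A < M g)) :=
    mass_nonneg fun e A => ind1_nonneg _
  have hMg := hM0' g
  have hMg1 : (1 : ℝ) ≤ M g := by exact_mod_cast hM0 g
  have hN1 : 0 ≤ 1 / (4 * M g) * mass L (K * t') (fun e A => ind1 (new e A ∧ nb W σ e A < M g)) :=
    mul_nonneg (by positivity) hN0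
  have h32 : ε / (32 * M g) ≤ ε / 32 := div_le_div_of_nonneg_left hε.le (by norm_num) (by linarith)
  refine ⟨σ'.q, by linarith, ?_⟩
  -- the hitting property
  have small : mass L (K * t') (fun e A => ind1 (new e A ∧ nb W σ e A < M g)) ≤ ε / 4 := by
    have h1 : 1 / (4 * M g) * mass L (K * t') (fun e A => ind1 (new e A ∧ nb W σ e A < M g)) ≤
        ε / (16 * M g) := by
      have : ε / (16 * M g) = ε / (32 * M g) + ε / (32 * M g) := by field_simp; ring
      linarith
    have h2 : ε / (16 * M g) = 1 / (4 * M g) * (ε / 4) := by field_simp; ring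
    rw [h2] at h1
    exact le_of_mul_le_mul_left h1 (by positivity)
  have gap' : mass L (K * t') (fun e A => ind1 (M g ≤ nb W σ e A ∧ nb W σ e A < M (g + 1))) ≤ ε / 4 := by
    refine (mass_loc hKt fun e A A' h => ?_).trans_le hgap
    have h1 : nb W σ e A = nb W σ e A' := nb_loc W σ e A A' h
    simp only [h1]
  have un' : mass L (K * t') (fun e A => ind1 (M (g + 1) ≤ nb W σ e A ∧ un e A)) ≤ ε / 4 := by
    refine (mass_loc hKt fun e A A' h => ?_).trans_le hun1
    have h1 : nb W σ e A = nb W σ e A' := nb_loc W σ e A A' h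
    have h2 : un e A ↔ un e A' := by
      simp only [hun]
      exact not_congr (exists_congr fun x => and_congr_right fun _ => (W e x).loc (fun _ _ => rfl) h)
    simp only [h1, h2]
  calc mass L (K * t') (fun e A => ind1 ((∃ x, σ.t ≤ x ∧ x < t' ∧ (W e x).P t' D' A) ∧
          ¬ ∃ x ∈ T, (W e x).P t' D' A)) ≤
        mass L (K * t') (fun e A => ind1 (new e A ∧ nb W σ e A < M g) +
          ind1 (M g ≤ nb W σ e A ∧ nb W σ e A < M (g + 1)) +
          ind1 (M (g + 1) ≤ nb W σ e A ∧ un e A)) := by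
        refine mass_mono fun e A => ?_
        have n1 := ind1_nonneg (new e A ∧ nb W σ e A < M g)
        have n2 := ind1_nonneg (M g ≤ nb W σ e A ∧ nb W σ e A < M (g + 1))
        have n3 := ind1_nonneg (M (g + 1) ≤ nb W σ e A ∧ un e A)
        by_cases h : (∃ x, σ.t ≤ x ∧ x < t' ∧ (W e x).P t' D' A) ∧ ¬ ∃ x ∈ T, (W e x).P t' D' A
        · rw [ind1_true h]
          have hu : un e A := fun ⟨x, hx, hx2⟩ => h.2 ⟨x, hx, (W e x).mono ht ((hold _ _).2 hx2)⟩
          rcases lt_or_ge (nb W σ e A) (M g) with a | a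
          · rw [ind1_true (show new e A ∧ nb W σ e A < M g from ⟨h.1, a⟩)]
            linarith
          · rcases lt_or_ge (nb W σ e A) (M (g + 1)) with b | b
            · rw [ind1_true (show M g ≤ nb W σ e A ∧ nb W σ e A < M (g + 1) from ⟨a, b⟩)]
              linarith
            · rw [ind1_true (show M (g + 1) ≤ nb W σ e A ∧ un e A from ⟨b, hu⟩)]
              linarith
        · rw [ind1_false h]
          linarith
    _ = _ := by rw [mass_add, mass_add]
    _ ≤ ε / 4 + ε / 4 + ε / 4 := by linarith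
    _ ≤ ε := by linarith

end Pool.Agent.H653
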