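import Pool.Agent.H653.Orac

set_option autoImplicit false

namespace Pool.Agent.H653

open Filter Pool.Agent.H40.Bsig

/-- Data for an initial segment of an ultrapower: the segment is generated by the classes of
`m ↦ B j m`, and `R m` is a family of sets at the coordinate `m`. -/
structure CD where
  B : ℕ → ℕ → ℕ
  B0 : ∀ᶠ m in U, m ≤ B 0 m
  step : ∀ j, ∀ᶠ m in U, (B j m + 1) ^ 2 ≤ B (j + 1) m
  R : ℕ → ℕ → ℕ → Prop

namespace CD

variable (p : CD)

theorem lt_succ (j : ℕ) : ∀ᶠ m in U, p.B j m < p.B (j + 1) m :=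
  (p.step j).mono fun m e => lt_of_lt_of_le (by nlinarith) e

theorem le_of_le {i j : ℕ} (h : i ≤ j) : ∀ᶠ m in U, p.B i m ≤ p.B j m := by
  induction h with
  | refl => exact Eventually.of_forall fun _ => le_rfl
  | step _ ih => exact (ih.and (p.lt_succ _)).mono fun m e => e.1.trans e.2.le

def Bd (f : ℕ → ℕ) : Prop := ∃ j, ∀ᶠ m in U, f m ≤ p.B j m

variable {p}

theorem Bd.mono {f g : ℕ → ℕ} (h : p.Bd g) (e : ∀ᶠ m in U, f m ≤ g m) : p.Bd f :=
  h.imp fun _ h => (h.and e).mono fun _ e => e.2.trans e.1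

theorem bd_B (j : ℕ) : p.Bd (p.B j) := ⟨j, Eventually.of_forall fun _ => le_rfl⟩

theorem bd_id : p.Bd fun m => m := ⟨0, p.B0⟩

theorem bd_const (c : ℕ) : p.Bd fun _ => c := ⟨0, ((U_ge c).and p.B0).mono fun _ e => e.1.trans e.2⟩

theorem Bd.max {f g : ℕ → ℕ} (h : p.Bd f) (h' : p.Bd g) : p.Bd fun m => max (f m) (g m) :=
  h.elim fun j h => h'.elim fun k h' => ⟨Max.max j k, by
    filter_upwards [h, h', p.le_of_le (le_max_left j k), p.le_of_le (le_max_right j k)] with m a b c d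
    exact max_le (a.trans c) (b.trans d)⟩

theorem Bd.of_le {f g k : ℕ → ℕ} (h : p.Bd f) (h' : p.Bd g)
    (e : ∀ m, k m ≤ (Max.max (f m) (g m) + 1) ^ 2) : p.Bd k := by
  obtain ⟨j, hj⟩ := h.max h'
  exact ⟨j + 1, (hj.and (p.step j)).mono fun m a => (e m).trans
    ((Nat.pow_le_pow_left (Nat.succ_le_succ a.1) 2).trans a.2)⟩

theorem Bd.add {f g : ℕ → ℕ} (h : p.Bd f) (h' : p.Bd g) : p.Bd fun m => f m + g m :=
  h.of_le h' fun m => by nlinarith [le_max_left (f m) (g m), le_max_right (f m) (g m)]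

theorem Bd.mul {f g : ℕ → ℕ} (h : p.Bd f) (h' : p.Bd g) : p.Bd fun m => f m * g m :=
  h.of_le h' fun m => (Nat.mul_le_mul (le_max_left _ _) (le_max_right _ _)).trans (by
    generalize Max.max (f m) (g m) = t
    nlinarith)

theorem Bd.pair {f g : ℕ → ℕ} (h : p.Bd f) (h' : p.Bd g) : p.Bd fun m => Nat.pair (f m) (g m) :=
  h.of_le h' fun _ => (Nat.pair_lt_max_add_one_sq _ _).le

variable (p)

def sto : Setoid {f // p.Bd f} where
  r f g := ∀ᶠ m in U, f.1 m = g.1 m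
  iseqv := ⟨fun _ => Eventually.of_forall fun _ => rfl, fun h => h.mono fun _ => Eq.symm,
    fun h h' => by filter_upwards [h, h'] with x a b using a.trans b⟩

def I : Type := Quotient p.sto

variable {p}

noncomputable def rep (x : p.I) : ℕ → ℕ := (Quotient.out x).1
theorem bd_rep (x : p.I) : p.Bd (rep x) := (Quotient.out x).2
def mkI (f : ℕ → ℕ) (h : p.Bd f) : p.I := Quotient.mk p.sto ⟨f, h⟩
theorem rep_mk (f : ℕ → ℕ) (h : p.Bd f) : ∀ᶠ m in U, rep (mkI f h) m = f m :=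
  Quotient.mk_out (s := p.sto) ⟨f, h⟩
theorem ext_iff (x y : p.I) : x = y ↔ ∀ᶠ m in U, rep x m = rep y m :=
  (Quotient.out_equiv_out (s := p.sto)).symm

theorem ex_rep {f : ℕ → ℕ} (h : p.Bd f) : ∃ x : p.I, ∀ᶠ m in U, rep x m = f m := ⟨_, rep_mk f h⟩

def Zs (c : p.I) : Set p.I := {x | ∀ᶠ m in U, p.R m (rep c m) (rep x m)}

/-- The level of the index `c` is bounded by the standard number `k`. -/
def LevLe (c : p.I) (k : ℕ) : Prop := ∀ᶠ m in U, (rep c m).unpair.1 ≤ k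

theorem LevLe.mono {c : p.I} {k k' : ℕ} (h : LevLe c k) (e : k ≤ k') : LevLe c k' :=
  Filter.Eventually.mono h fun _ a => a.trans e

variable (p)

noncomputable abbrev M : Mod where
  N := p.I
  zero := mkI _ (bd_const 0)
  one := mkI _ (bd_const 1)
  add x y := mkI _ ((bd_rep x).add (bd_rep y))
  mul x y := mkI _ ((bd_rep x).mul (bd_rep y))
  lt x y := ∀ᶠ m in U, rep x m < rep y m
  S := {Z | ∃ c c' : p.I, (∃ k, LevLe c k ∧ LevLe c' k) ∧ Z = Zs c ∧ Zᶜ = Zs c'}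

variable {p}

theorem los_tm (t : Tm) (v : ℕ → p.I) (u : ℕ → ℕ → ℕ) (h : ∀ i, ∀ᶠ m in U, rep (v i) m = u m i) :
    ∀ᶠ m in U, rep (t.ev p.M v) m = t.ev std (u m) := by
  induction t with
  | var i => exact h i
  | zero => exact rep_mk _ _
  | one => exact rep_mk _ _
  | add s t a b =>
    filter_upwards [a, b, rep_mk _ ((bd_rep (s.ev p.M v)).add (bd_rep (t.ev p.M v)))] with m a b c
    exact c.trans (congrArg₂ _ a b)
  | mul s t a b =>
    filter_upwards [a, b, rep_mk _ ((bd_rep (s.ev p.M v)).mul (bd_rep (t.ev p.M v)))] with m a b c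
    exact c.trans (congrArg₂ _ a b)

theorem cons_ae {v : ℕ → p.I} {u : ℕ → ℕ → ℕ} (h : ∀ i, ∀ᶠ m in U, rep (v i) m = u m i)
    {x : p.I} {f : ℕ → ℕ} (hx : ∀ᶠ m in U, rep x m = f m) :
    ∀ i, ∀ᶠ m in U, rep (cons x v i) m = cons (f m) (u m) i
  | 0 => hx
  | i + 1 => h i

theorem ball_iff {b : ℕ → ℕ} (hb : p.Bd b) (P : ℕ → ℕ → Prop) :
    (∀ x : p.I, (∀ᶠ m in U, rep x m < b m) → ∀ᶠ m in U, P m (rep x m)) ↔
      ∀ᶠ m in U, ∀ x < b m, P m x := by
  refine ⟨fun h => ?_, fun h x hx => (h.and hx).mono fun m e => e.1 _ e.2⟩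
  by_contra hc
  obtain ⟨f, hf⟩ := ae_choose (P := fun m x => x < b m ∧ ¬ P m x)
    ((ae_not.2 hc).mono fun m e => by simpa using e)
  obtain ⟨x, hx⟩ := ex_rep (hb.mono (hf.mono fun _ e => e.1.le))
  obtain ⟨m, a1, a2, a3⟩ := ((h x ((hf.and hx).mono fun m e => e.2 ▸ e.1.1)).and (hf.and hx)).exists
  exact a2.2 (a3 ▸ a1)

theorem los {θ : Fm} (hθ : Bdd θ) {V : ℕ → Set p.I} {W : ℕ → ℕ → Set ℕ}
    (hV : ∀ i x, x ∈ V i ↔ ∀ᶠ m in U, rep x m ∈ W m i) : ∀ (v : ℕ → p.I) (u : ℕ → ℕ → ℕ),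
    (∀ i, ∀ᶠ m in U, rep (v i) m = u m i) →
      (Sat p.M θ v V ↔ ∀ᶠ m in U, Sat std θ (u m) (W m)) := by
  induction hθ with
  | eq s t =>
    exact fun v u h => (ext_iff _ _).trans (eventually_congr
      (((los_tm s v u h).and (los_tm t v u h)).mono fun m e => by rw [e.1, e.2]; rfl))
  | lt s t =>
    exact fun v u h => eventually_congr
      (((los_tm s v u h).and (los_tm t v u h)).mono fun m e => by rw [e.1, e.2]; rfl)
  | mem s i =>
    exact fun v u h => (hV _ _).trans (eventually_congr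
      ((los_tm s v u h).mono fun m e => by rw [e]; rfl))
  | neg _ ih => exact fun v u h => (not_congr (ih v u h)).trans ae_not.symm
  | and _ _ a b => exact fun v u h => (and_congr (a v u h) (b v u h)).trans eventually_and.symm
  | @ball t φ _ ih =>
    intro v u h
    refine (forall₂_congr fun x _ => ih (cons x v) (fun m => cons (rep x m) (u m))
      (cons_ae h (Eventually.of_forall fun _ => rfl))).trans ((ball_iff (bd_rep _)
        fun m x => Sat std φ (cons x (u m)) (W m)).trans (eventually_congr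
          ((los_tm t v u h).mono fun m e => by rw [e]; rfl)))

theorem los0 {θ : Fm} (hθ : Bdd θ) (v : ℕ → p.I) : Sat p.M θ v (fun _ => Set.univ) ↔
    ∀ᶠ m in U, Sat std θ (fun i => rep (v i) m) fun _ => Set.univ :=
  los hθ (W := fun _ _ => Set.univ) (fun _ _ => by simp) v _
    fun _ => Eventually.of_forall fun _ => rfl

theorem basic : Basic p.M := by
  have key : ∀ {θ : Fm}, Bdd θ → (∀ u, Sat std θ u fun _ => Set.univ) → ∀ x y : p.I,
      Sat p.M θ (cons x fun _ => y) fun _ => Set.univ := fun hθ h x y =>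
    (los0 hθ _).2 (Eventually.of_forall fun _ => h _)
  refine ⟨fun n => key (.neg (.eq (.add (.var 0) .one) .zero)) (fun u => Nat.succ_ne_zero _) n n,
    fun m n e => by_contra fun e' => key (.neg (.and (.eq (.add (.var 0) .one) (.add (.var 1) .one))
      (.neg (.eq (.var 0) (.var 1))))) (fun u h => h.2 (Nat.succ_injective h.1)) m n ⟨e, e'⟩,
    fun m => key (.eq (.add (.var 0) .zero) (.var 0)) (fun _ => rfl) m m,
    key (.eq (.add (.var 0) (.add (.var 1) .one)) (.add (.add (.var 0) (.var 1)) .one)) fun _ => rfl,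
    fun m => key (.eq (.mul (.var 0) .zero) .zero) (fun _ => rfl) m m,
    key (.eq (.mul (.var 0) (.add (.var 1) .one)) (.add (.mul (.var 0) (.var 1)) (.var 0)))
      fun _ => rfl,
    fun m => key (.neg (.lt (.var 0) .zero)) (fun u => Nat.not_lt_zero _) m m, fun m n => ?_⟩
  rw [ext_iff]
  refine (eventually_congr ?_).trans ae_or
  filter_upwards [rep_mk _ ((bd_rep n).add (bd_rep p.M.one)), rep_mk _ (bd_const (p := p) 1)]
    with k a b
  have a' : rep (p.M.add n p.M.one) k = rep n k + 1 := a.trans (congrArg _ b)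
  omega

theorem succ_ae (x : p.I) : ∀ᶠ m in U, rep (p.M.add x p.M.one) m = rep x m + 1 :=
  los_tm (.add (.var 0) .one) (fun _ => x) (fun m _ => rep x m)
    fun _ => Eventually.of_forall fun _ => rfl

theorem add_ae (x y : p.I) : ∀ᶠ m in U, rep (p.M.add x y) m = rep x m + rep y m := rep_mk _ _

theorem mul_ae (x y : p.I) : ∀ᶠ m in U, rep (p.M.mul x y) m = rep x m * rep y m := rep_mk _ _

theorem zero_ae : ∀ᶠ m in U, rep p.M.zero m = 0 := rep_mk _ _

theorem one_ae : ∀ᶠ m in U, rep p.M.one m = 1 := rep_mk _ _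

theorem rfl_ae {f : ℕ → ℕ} : ∀ᶠ m in U, f m = f m := Eventually.of_forall fun _ => rfl

theorem pair_ae (x y : p.I) : ∀ᶠ m in U, rep (Pool.Agent.H40.Bsig.pair p.M x y) m = sp (rep x m) (rep y m) :=
  los_tm (.add (.mul (.add (.var 0) (.var 1)) (.add (.var 0) (.var 1))) (.var 0)) (cons x fun _ => y)
    (fun m => cons (rep x m) fun _ => rep y m) (cons_ae (fun _ => rfl_ae) rfl_ae)

theorem int_ind (W : ℕ → ℕ → Prop) (h0 : ∀ᶠ m in U, W m (rep p.M.zero m))
    (h1 : ∀ x : p.I, (∀ᶠ m in U, W m (rep x m)) → ∀ᶠ m in U, W m (rep (p.M.add x p.M.one) m))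
    (x : p.I) : ∀ᶠ m in U, W m (rep x m) := by
  by_contra hc
  obtain ⟨f, hf⟩ := ae_choose (P := fun m y => y < rep x m ∧ W m y ∧ ¬ W m (y + 1)) (by
    filter_upwards [ae_not.2 hc, h0, rep_mk _ (bd_const (p := p) 0)] with m a b c
    by_contra hd
    push Not at hd
    have : ∀ y ≤ rep x m, W m y := fun y hy => by
      induction y with
      | zero => exact c ▸ b
      | succ y ih => exact hd y hy (ih (by omega))
    exact a (this _ le_rfl))
  obtain ⟨y, hy⟩ := ex_rep ((bd_rep x).mono (hf.mono fun _ e => e.1.le))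
  obtain ⟨m, a1, a2, a3, a4⟩ := ((h1 y ((hf.and hy).mono fun m e => e.2 ▸ e.1.2.1)).and
    (hf.and (hy.and (succ_ae y)))).exists
  rw [a4, a3] at a1
  exact a2.2.2 a1

theorem int_coll (W : ℕ → ℕ → ℕ → Prop) (a : p.I)
    (h : ∀ x, p.M.lt x a → ∃ y : p.I, ∀ᶠ m in U, W m (rep x m) (rep y m)) :
    ∃ b : p.I, ∀ x, p.M.lt x a → ∃ y : p.I, p.M.lt y b ∧ ∀ᶠ m in U, W m (rep x m) (rep y m) := by
  have h1 : ∀ m, ∃ x, (x < rep a m ∨ x = 0) ∧ ∀ x' < rep a m, sInf {y | W m x' y} ≤ sInf {y | W m x y} := by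
    intro m
    rcases (Finset.range (rep a m)).eq_empty_or_nonempty with e | e
    · exact ⟨0, Or.inr rfl, fun x' h => absurd (Finset.mem_range.2 h) (by simp [e])⟩
    · obtain ⟨x, a1, a2⟩ := Finset.exists_max_image _ (fun x => sInf {y | W m x y}) e
      exact ⟨x, Or.inl (Finset.mem_range.1 a1), fun x' h => a2 x' (Finset.mem_range.2 h)⟩
  choose f h2 h3 using h1
  by_cases ha : ∀ᶠ m in U, rep a m = 0
  · exact ⟨a, fun x hx => ((ha.and hx).exists.elim fun m e => by omega)⟩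
  have h4 : ∀ᶠ m in U, f m < rep a m := (ae_not.2 ha).mono fun m e => by have := h2 m; omega
  obtain ⟨x₀, hx₀⟩ := ex_rep ((bd_rep a).mono (h4.mono fun _ => le_of_lt))
  obtain ⟨y₀, hy₀⟩ := h x₀ ((h4.and hx₀).mono fun m e => e.2 ▸ e.1)
  refine ⟨p.M.add y₀ p.M.one, fun x hx => ?_⟩
  obtain ⟨y, hy⟩ := h x hx
  obtain ⟨y', hy'⟩ := ex_rep (f := fun m => sInf {y | W m (rep x m) y})
    ((bd_rep y).mono (hy.mono fun _ e => Nat.sInf_le e))
  refine ⟨y', ?_, (hy.and hy').mono fun m e => e.2 ▸ Nat.sInf_mem (s := {y | W m (rep x m) y}) ⟨_, e.1⟩⟩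
  filter_upwards [hx, hy', hx₀, hy₀, succ_ae y₀] with m a1 a2 a3 a4 a5
  have := (h3 m _ a1).trans (Nat.sInf_le (a3 ▸ a4))
  omega

/-- A simple form of collection: if every element below `a` has a bound with a monotone property
then there is a uniform bound. -/
theorem int_unif (W : ℕ → ℕ → ℕ → Prop) (a : p.I) (hW : ∀ m x y y', y ≤ y' → W m x y → W m x y')
    (h : ∀ x, p.M.lt x a → ∃ y : p.I, ∀ᶠ m in U, W m (rep x m) (rep y m)) :
    ∃ b, p.Bd b ∧ ∀ᶠ m in U, ∀ x < rep a m, W m x (b m) := by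
  obtain ⟨b, hb⟩ := int_coll W a h
  refine ⟨rep b, bd_rep b, (ball_iff (bd_rep a) _).1 fun x hx => ?_⟩
  obtain ⟨y, h1, h2⟩ := hb x hx
  exact (h1.and h2).mono fun m e => hW m _ _ _ e.1.le e.2

theorem code (n : ℕ) : ∀ u : ℕ → p.I, ∃ d, p.Bd d ∧ ∀ i < n, ∀ᶠ m in U, dec (d m) i = rep (u i) m := by
  induction n with
  | zero => exact fun _ => ⟨_, bd_const 0, fun _ h => absurd h (by simp)⟩
  | succ n ih =>
    intro u
    obtain ⟨d, h1, h2⟩ := ih fun i => u (i + 1)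
    refine ⟨_, (bd_rep (u 0)).pair h1, ?_⟩
    rintro (_ | i) hi <;> simp only [dec_pair]
    · exact Eventually.of_forall fun _ => rfl
    · exact h2 i (by omega)

variable (p) in
def Sig : Prop := ∀ θ, Bdd θ → ∀ V : ℕ → Set p.I, (∀ i, V i ∈ p.M.S) →
  ∃ (k c₀ : ℕ) (d₂ : ℕ → ℕ), p.Bd d₂ ∧ ∀ (v : ℕ → p.I) (d₁ : ℕ → ℕ), p.Bd d₁ →
    (∀ i < θ.sup, ∀ᶠ m in U, dec (d₁ m) i = rep (v i) m) → ∀ x : p.I,
    (Sat p.M θ.ex (cons x v) V ↔
      ∀ᶠ m in U, p.R m (Nat.pair k (Nat.pair c₀ (Nat.pair (d₁ m) (d₂ m)))) (rep x m))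

theorem sig1 (hs : p.Sig) {θ : Fm} (hθ : Bdd θ) {V : ℕ → Set p.I} (hV : ∀ i, V i ∈ p.M.S) (v : ℕ → p.I) :
    ∃ (c : p.I) (k : ℕ), LevLe c k ∧ ∀ x : p.I, Sat p.M θ.ex (cons x v) V ↔ x ∈ Zs c := by
  obtain ⟨k, c₀, d₂, h1, h2⟩ := hs θ hθ V hV
  obtain ⟨d₁, h3, h4⟩ := code θ.sup v
  obtain ⟨c, hc⟩ := ex_rep ((bd_const k).pair ((bd_const c₀).pair (h3.pair h1)))
  refine ⟨c, k, hc.mono fun m e => by rw [e, Nat.unpair_pair],
    fun x => (h2 v d₁ h3 h4 x).trans (eventually_congr (hc.mono fun m e => by rw [e]))⟩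

theorem rca (hs : p.Sig) (hn : p.M.S.Nonempty) : RCA0 p.M := by
  refine ⟨basic, hn, ?_, ?_⟩
  · rintro _ ⟨θ, hθ, rfl⟩ v V hV h0 h1 x
    obtain ⟨c, _, _, hc⟩ := sig1 hs hθ hV v
    simp only [hc] at h0 h1 ⊢
    exact int_ind (fun m t => p.R m (rep c m) t) h0 h1 x
  · rintro _ _ ⟨θ, hθ, rfl⟩ ⟨θ', hθ', rfl⟩ v V hV h
    obtain ⟨c, k, hk, hc⟩ := sig1 hs hθ hV v
    obtain ⟨c', k', hk', hc'⟩ := sig1 hs (Bdd.neg hθ') hV v
    exact ⟨c, c', ⟨max k k', hk.mono (le_max_left _ _), hk'.mono (le_max_right _ _)⟩, Set.ext hc,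
      Set.ext fun x => (not_congr (h x)).trans (not_forall.trans (hc' x))⟩

theorem bnd (hs : p.Sig) : Bnd p.M 2 := by
  rintro _ ⟨_, ⟨θ, hθ, rfl⟩, rfl⟩ v V hV a h
  obtain ⟨k, c₀, d₂, h1, h2⟩ := hs _ (Bdd.neg hθ) V hV
  obtain ⟨d₁, h3, h4⟩ := code θ.sup v
  have key : ∀ w y x : p.I, Sat p.M θ.all (cons w (cons y (cons x v))) V ↔ ∀ᶠ m in U,
      ¬ p.R m (Nat.pair k (Nat.pair c₀ (Nat.pair
        (Nat.pair (rep y m) (Nat.pair (rep x m) (d₁ m))) (d₂ m)))) (rep w m) := fun w y x => by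
    rw [ae_not, ← h2 (cons y (cons x v)) _ ((bd_rep y).pair ((bd_rep x).pair h3))]
    · exact not_exists_not.symm
    · simp only [dec_pair]
      rintro (_ | _ | i) hi
      · exact Eventually.of_forall fun _ => rfl
      · exact Eventually.of_forall fun _ => rfl
      · exact h4 i (Nat.lt_of_succ_lt (Nat.lt_of_succ_lt hi))
  obtain ⟨b, hb⟩ := int_coll (fun m x q => ¬ p.R m (Nat.pair k (Nat.pair c₀ (Nat.pair
      (Nat.pair q.unpair.1 (Nat.pair x (d₁ m))) (d₂ m)))) q.unpair.2) a fun x hx => by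
    obtain ⟨y, w, h5⟩ := h x hx
    obtain ⟨q, hq⟩ := ex_rep ((bd_rep y).pair (bd_rep w))
    exact ⟨q, (((key w y x).1 h5).and hq).mono fun m e => by simpa [e.2] using e.1⟩
  refine ⟨b, fun x hx => ?_⟩
  obtain ⟨q, h5, h6⟩ := hb x hx
  obtain ⟨y, hy⟩ := ex_rep ((bd_rep q).mono (Eventually.of_forall fun m => Nat.unpair_left_le _))
  obtain ⟨w, hw⟩ := ex_rep ((bd_rep q).mono (Eventually.of_forall fun m => Nat.unpair_right_le _))
  exact ⟨y, (h5.and hy).mono fun m e => e.2 ▸ (Nat.unpair_left_le _).trans_lt e.1, w,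
    (key w y x).2 ((h6.and (hy.and hw)).mono fun m e => by rw [e.2.1, e.2.2]; exact e.1)⟩

end CD

end Pool.Agent.H653
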