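import Pool.Graph.R_pool_sql_team_ae5b0c61.H40.DenDefs

/-!
Definitions for the statement: separable permutations, colourings of pairs, the principles
`coRT²₂(p)` and `2-RAN` in structures for second-order arithmetic.

The structures (`Mod`), satisfaction (`Sat`), bounded formulas (`Bdd`), the pairing `pair`, the systems
`RCA0` and `Bnd M 2` (`B Σ⁰₂`) are in `H40.BsigDefs`; `Cnt M C j c` (`C` has exactly `c` elements
below `j`) and `Pow2 M k e` (`e = 2 ^ k`) are in `H40.DenDefs`.
-/

set_option autoImplicit false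

namespace Pool.Agent.H653.RanDefs

open Pool.Agent.H40.Bsig

/-- Separable permutations, written as range sequences: they arise from the one-point permutation
by direct sums and skew sums. -/
inductive Separable : List ℕ → Prop
  | one : Separable [0]
  | dsum {π σ : List ℕ} : Separable π → Separable σ → Separable (π ++ σ.map (· + π.length))
  | ssum {π σ : List ℕ} : Separable π → Separable σ → Separable (π.map (· + σ.length) ++ σ)

variable (M : Mod)

/-- A set `F` codes the colouring of the pairs `x < y` which is `1` if `(x, y) ∈ F` and `0`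
otherwise. The increasing sequence `x` realizes the pattern of the permutation `π`: the pair
`x i < x j` has colour `0` if and only if `π i < π j`. -/
def Realizes (F : Set M.N) (π : List ℕ) (x : ℕ → M.N) : Prop :=
  ∀ i j, i < j → j < π.length → M.lt (x i) (x j) ∧
    (pair M (x i) (x j) ∈ F ↔ ¬ π.getD i 0 < π.getD j 0)

/-- The colouring coded by `F` avoids the pattern of `π`. -/
def Avoids (F : Set M.N) (π : List ℕ) : Prop := ¬ ∃ x, Realizes M F π x

/-- `H` is unbounded. -/
def Unbounded (H : Set M.N) : Prop := ∀ b, ∃ x ∈ H, M.lt b x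

/-- `H` is homogeneous for the colouring coded by `F`. -/
def Homogeneous (F H : Set M.N) : Prop :=
  (∀ x ∈ H, ∀ y ∈ H, M.lt x y → pair M x y ∈ F) ∨ ∀ x ∈ H, ∀ y ∈ H, M.lt x y → pair M x y ∉ F

/-- `coRT²₂(p)` for the pattern of `π`: every colouring which avoids it has an infinite
homogeneous set. -/
def CoRT (π : List ℕ) : Prop :=
  ∀ F ∈ M.S, Avoids M F π → ∃ H ∈ M.S, Unbounded M H ∧ Homogeneous M F H

/-- The `i`-th binary digit of `s` is one. -/
def Bit (s i : M.N) : Prop :=
  ∃ e q r, Pow2 M i e ∧ M.lt r e ∧ s = M.add (M.mul (M.add (M.add q q) M.one) e) r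

/-- A bounded formula `ψ`, number parameters `v` and a set `X` define a uniform sequence of
`Σ⁰₂(X)` classes `U_n = ⋃ᵢ P_{n,i}` where `P_{n,i} = {Z | ∀ k, ψ (k, i, n, v, Z, X)}`. -/
def InU (ψ : Fm) (v : ℕ → M.N) (X : Set M.N) (n : M.N) (Z : Set M.N) : Prop :=
  Sat M (.ex (.all ψ)) (cons n v) (cons Z fun _ => X)

/-- The strings of length `d` are given by the numbers `s < 2 ^ d = D` (binary digits). The
strings `s ∈ C` cover `⋃_{i < a} P_{n,i}`: for each other string `s` and each `i < a` there is a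
`k` such that no `Z` which extends `s` satisfies `ψ (k, i, n, v, Z, X)`. -/
def Covers (ψ : Fm) (v : ℕ → M.N) (X : Set M.N) (n a d D : M.N) (C : Set M.N) : Prop :=
  ∀ s, M.lt s D → s ∉ C → ∀ i, M.lt i a → ∃ k, ∀ Z ∈ M.S, (∀ x, M.lt x d → (x ∈ Z ↔ Bit M s x)) →
    ¬ Sat M ψ (cons k (cons i (cons n v))) (cons Z fun _ => X)

/-- `⋃_{i < a} P_{n,i}` is covered by a clopen set of measure at most `2 ^ (-n) + 2 ^ (-k)`. -/
def SmallUnion (ψ : Fm) (v : ℕ → M.N) (X : Set M.N) (n a k : M.N) : Prop :=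
  ∃ d D C c N E, Pow2 M d D ∧ Pow2 M n N ∧ Pow2 M k E ∧ C ∈ M.S ∧ Cnt M C D c ∧
    ¬ M.lt (M.mul (M.add N E) D) (M.mul (M.mul c N) E) ∧ Covers M ψ v X n a d D C

/-- The measure of `U_n` is at most `2 ^ (-n)` for all `n`. -/
def IsTest (ψ : Fm) (v : ℕ → M.N) (X : Set M.N) : Prop := ∀ n a k, SmallUnion M ψ v X n a k

/-- `Y` is 2-random relative to `X`: it is not in `⋂_n U_n` for any uniform sequence `(U_n)` of
`Σ⁰₂(X)` classes such that the measure of `U_n` is at most `2 ^ (-n)`. -/
def TwoRandom (X Y : Set M.N) : Prop :=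
  ∀ ψ, Bdd ψ → ∀ v, IsTest M ψ v X → ∃ n, ¬ InU M ψ v X n Y

/-- The principle `2-RAN`. -/
def TwoRan : Prop := ∀ X ∈ M.S, ∃ Y ∈ M.S, TwoRandom M X Y

end Pool.Agent.H653.RanDefs
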