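import Pool.Agent.H867.FT.Gen2

/-!
# `S_EON` of the project FT of helper867 (`MP_7dd379_ag`)
-/

set_option autoImplicit false

namespace Pool.Agent.H653.FT867EON

open Pool.Agent.H867.FT

section trace

variable {L K : Type} [Field L] [Field K] [Algebra L K]

theorem tr_smul (l : L) (z : K) :
    Algebra.trace L K (algebraMap L K l * z) = l * Algebra.trace L K z := by
  rw [← Algebra.smul_def, map_smul, smul_eq_mul]

/-- expansion in the trace dual basis -/
theorem expand [FiniteDimensional L K] [Algebra.IsSeparable L K] (h3 : Module.finrank L K = 3)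
    (u : Fin 3 → K)
    (hu : ∀ l₀ l₁ l₂ : L, algebraMap L K l₀ * u 0 + algebraMap L K l₁ * u 1 +
      algebraMap L K l₂ * u 2 = 0 → l₀ = 0 ∧ l₁ = 0 ∧ l₂ = 0) :
    ∃ e : Fin 3 → K, (∀ i j, Algebra.trace L K (e i * u j) = if j = i then 1 else 0) ∧
      ∀ z : K, z = ∑ i, algebraMap L K (Algebra.trace L K (z * u i)) * e i := by
  have hli : LinearIndependent L u := by
    rw [Fintype.linearIndependent_iff]
    intro g hg i
    rw [Fin.sum_univ_three] at hg
    simp only [Algebra.smul_def] at hg
    obtain ⟨h0, h1, h2⟩ := hu _ _ _ hg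
    fin_cases i
    · exact h0
    · exact h1
    · exact h2
  let b := basisOfLinearIndependentOfCardEqFinrank hli (by rw [h3, Fintype.card_fin])
  have hb : ∀ i, b i = u i := fun i => by
    show (basisOfLinearIndependentOfCardEqFinrank hli _) i = u i
    rw [coe_basisOfLinearIndependentOfCardEqFinrank]
  let e := (Algebra.traceForm L K).dualBasis (traceForm_nondegenerate L K) b
  refine ⟨e, ?_, ?_⟩
  · intro i j
    have h := LinearMap.BilinForm.apply_dualBasis_left (traceForm_nondegenerate L K) b i j
    rw [hb, Algebra.traceForm_apply] at h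
    exact h
  · intro z
    have h := e.sum_repr z
    rw [← h]
    conv_lhs => rw [← h]
    apply Finset.sum_congr rfl
    intro i _
    rw [Algebra.smul_def]
    congr 2
    have h2 := LinearMap.BilinForm.dualBasis_repr_apply (traceForm_nondegenerate L K) b z i
    rw [hb, Algebra.traceForm_apply] at h2
    rw [h]
    exact h2

end trace

theorem eon : S_EON := by
  intro P R V L W K _ _ _ _ _ _ _ _ _ _ _ _ _ _ _ _ _ _ _ _ _ _ _ _ _ _ _ _ _ _ _ _ _ _ C
    a b c d x y₀ ω θ π δ h3 hCtr hcub hπ hau hb hc hd hδ hδW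
  obtain ⟨u, hu, hau⟩ := hau
  obtain ⟨b', hb⟩ := hb
  obtain ⟨c', hc⟩ := hc
  obtain ⟨d', hd⟩ := hd
  obtain ⟨u', hu'⟩ := hu.exists_right_inv
  have hP : ∀ p : P, algebraMap P K p = algebraMap V K (algebraMap P V p) := fun p =>
    IsScalarTower.algebraMap_apply P V K p
  have hPL : ∀ p : P, algebraMap P K p = algebraMap L K (algebraMap P L p) := fun p =>
    IsScalarTower.algebraMap_apply P L K p
  have hVL : ∀ v : V, algebraMap V K v = algebraMap L K (algebraMap V L v) := fun v =>
    IsScalarTower.algebraMap_apply V L K v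
  have hWV : ∀ v : V, algebraMap W K (algebraMap V W v) = algebraMap V K v := fun v =>
    (IsScalarTower.algebraMap_apply V W K v).symm
  have hVinj : Function.Injective (algebraMap V L) := IsFractionRing.injective V L
  have hWinj : Function.Injective (algebraMap W K) := IsFractionRing.injective W K
  have hVKinj : Function.Injective (algebraMap V K) := by
    intro v v' h
    rw [hVL, hVL] at h
    exact hVinj ((algebraMap L K).injective h)
  have hπK : algebraMap V K (algebraMap P V π) ≠ 0 := by
    intro h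
    rw [← map_zero (algebraMap V K)] at h
    exact hπ.ne_zero (hVKinj h)
  have hδK : algebraMap W K δ ≠ 0 := by
    intro h
    rw [← map_zero (algebraMap W K)] at h
    exact hδ (hWinj h)
  have huK : algebraMap V K u * algebraMap V K u' = 1 := by
    rw [← map_mul, hu', map_one]
  have eq1 : algebraMap V K u * x ^ 3 + algebraMap V K b' * x ^ 2 + algebraMap V K c' * x +
      algebraMap V K d' = 0 := by
    have h := hcub.root
    rw [hP, hP, hP, hP, hau, hb, hc, hd] at h
    simp only [map_mul] at h
    have h' : algebraMap V K (algebraMap P V π) * (algebraMap V K u * x ^ 3 +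
        algebraMap V K b' * x ^ 2 + algebraMap V K c' * x + algebraMap V K d') = 0 := by
      linear_combination h
    exact (mul_eq_zero.1 h').resolve_left hπK
  have hx : ∃ xW : W, algebraMap W K xW = x := by
    rw [← IsIntegralClosure.isIntegral_iff (R := V)]
    refine ⟨Polynomial.X ^ 3 + Polynomial.C (b' * u') * Polynomial.X ^ 2 +
      Polynomial.C (c' * u') * Polynomial.X + Polynomial.C (d' * u'), by monicity!, ?_⟩
    simp only [Polynomial.eval₂_add, Polynomial.eval₂_mul, Polynomial.eval₂_pow,
      Polynomial.eval₂_X, Polynomial.eval₂_C, map_mul]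
    linear_combination (algebraMap V K u') * eq1 - x ^ 3 * huK
  obtain ⟨xW, hxW⟩ := hx
  refine ⟨⟨xW, hxW⟩, ?_⟩
  have hωK : algebraMap R K ω = algebraMap V K (algebraMap P V a) * x := by
    rw [hcub.hω, hP]
  have hθK : algebraMap R K θ = algebraMap V K (algebraMap P V a) * x ^ 2 +
      algebraMap V K (algebraMap P V b) * x + algebraMap V K (algebraMap P V c) := by
    rw [hcub.hθ, hP, hP, hP]
  have haL : algebraMap P L a ≠ 0 := by
    intro h
    rw [← map_zero (algebraMap P L)] at h
    exact hcub.ha (IsFractionRing.injective P L h)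
  -- independence
  have hindV : ∀ v₀ v₁ v₂ : V, algebraMap V K v₀ + algebraMap V K v₁ * x +
      algebraMap V K v₂ * x ^ 2 = 0 → v₀ = 0 ∧ v₁ = 0 ∧ v₂ = 0 := by
    intro v₀ v₁ v₂ h
    rw [hVL, hVL, hVL] at h
    obtain ⟨h0, h1, h2⟩ := hcub.ind _ _ _ h
    refine ⟨?_, ?_, ?_⟩
    · exact hVinj (by rw [h0, map_zero])
    · exact hVinj (by rw [h1, map_zero])
    · exact hVinj (by rw [h2, map_zero])
  obtain ⟨e, he, hexp⟩ := expand (L := L) h3 ![1, algebraMap R K ω, algebraMap R K θ] (by
    intro l₀ l₁ l₂ h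
    simp only [Matrix.cons_val_zero, Matrix.cons_val_one, Matrix.cons_val] at h
    rw [hcub.hω, hcub.hθ, hPL, hPL, hPL] at h
    obtain ⟨h0, h1, h2⟩ := hcub.ind (l₀ + l₂ * algebraMap P L c)
      (l₁ * algebraMap P L a + l₂ * algebraMap P L b) (l₂ * algebraMap P L a) (by
        simp only [map_add, map_mul]
        linear_combination h)
    have k2 : l₂ = 0 := (mul_eq_zero.1 h2).resolve_right haL
    rw [k2, zero_mul, add_zero] at h1 h0
    exact ⟨h0, (mul_eq_zero.1 h1).resolve_right haL, k2⟩)
  have heC : ∀ i, e i ∈ C := by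
    intro i
    rw [hCtr]
    intro r
    obtain ⟨r₀, r₁, r₂, rfl⟩ := hcub.gen r
    refine ⟨if i = 0 then r₀ else if i = 1 then r₁ else r₂, ?_⟩
    have h1 : e i * algebraMap R K (algebraMap P R r₀ + r₁ • ω + r₂ • θ) =
        algebraMap L K (algebraMap P L r₀) * (e i * ![1, algebraMap R K ω, algebraMap R K θ] 0) +
        algebraMap L K (algebraMap P L r₁) * (e i * ![1, algebraMap R K ω, algebraMap R K θ] 1) +
        algebraMap L K (algebraMap P L r₂) *
          (e i * ![1, algebraMap R K ω, algebraMap R K θ] 2) := by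
      simp only [Matrix.cons_val_zero, Matrix.cons_val_one, Matrix.cons_val, Algebra.smul_def,
        map_add, map_mul]
      rw [← IsScalarTower.algebraMap_apply P R K, ← IsScalarTower.algebraMap_apply P R K,
        ← IsScalarTower.algebraMap_apply P R K, hPL, hPL, hPL]
      ring
    rw [h1, map_add, map_add, tr_smul, tr_smul, tr_smul, he, he, he]
    fin_cases i <;> simp
  choose G0 G1 G2 hG using fun i => (hcub.hC (e i)).1 (heC i)
  -- the elements of W
  have hωW : algebraMap W K (algebraMap V W (algebraMap P V a) * xW) = algebraMap R K ω := by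
    rw [map_mul, hWV, hxW, hωK]
  have hθW : algebraMap W K (algebraMap V W (algebraMap P V a) * xW ^ 2 +
      algebraMap V W (algebraMap P V b) * xW + algebraMap V W (algebraMap P V c)) =
      algebraMap R K θ := by
    rw [map_add, map_add, map_mul, map_mul, map_pow, hWV, hWV, hWV, hxW, hθK]
  have hz : ∀ z : K, (∀ w : W, ∃ v : V,
      algebraMap V L v = Algebra.trace L K (z * algebraMap W K w)) →
      ∃ g₀ g₁ g₂ : V, z = y₀ * (algebraMap V K g₀ + algebraMap V K g₁ * x +
        algebraMap V K g₂ * algebraMap R K θ) := by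
    intro z hz
    have h1 : ∀ i : Fin 3, ∃ v : V, algebraMap V L v =
        Algebra.trace L K (z * ![1, algebraMap R K ω, algebraMap R K θ] i) := by
      intro i
      fin_cases i
      · obtain ⟨v, hv⟩ := hz 1
        rw [map_one] at hv
        exact ⟨v, hv⟩
      · obtain ⟨v, hv⟩ := hz (algebraMap V W (algebraMap P V a) * xW)
        rw [hωW] at hv
        exact ⟨v, hv⟩
      · obtain ⟨v, hv⟩ := hz (algebraMap V W (algebraMap P V a) * xW ^ 2 +
          algebraMap V W (algebraMap P V b) * xW + algebraMap V W (algebraMap P V c))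
        rw [hθW] at hv
        exact ⟨v, hv⟩
    choose v hv using h1
    refine ⟨∑ i, v i * algebraMap P V (G0 i), ∑ i, v i * algebraMap P V (G1 i),
      ∑ i, v i * algebraMap P V (G2 i), ?_⟩
    conv_lhs => rw [hexp z]
    simp only [Fin.sum_univ_three, ← hv, ← hVL, hG, hP, map_add, map_mul]
    ring
  -- the element y
  have hy : ∀ w : W, ∃ v : V, algebraMap V L v =
      Algebra.trace L K ((algebraMap W K δ)⁻¹ * algebraMap W K w) :=
    (hδW _).2 ⟨1, by rw [inv_mul_cancel₀ hδK, map_one]⟩
  have hyx : ∀ w : W, ∃ v : V, algebraMap V L v =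
      Algebra.trace L K ((algebraMap W K δ)⁻¹ * x * algebraMap W K w) := by
    intro w
    obtain ⟨v, hv⟩ := hy (xW * w)
    refine ⟨v, ?_⟩
    rw [hv, map_mul (algebraMap W K), hxW, mul_assoc]
  have hyxx : ∀ w : W, ∃ v : V, algebraMap V L v =
      Algebra.trace L K ((algebraMap W K δ)⁻¹ * x * x * algebraMap W K w) := by
    intro w
    obtain ⟨v, hv⟩ := hyx (xW * w)
    refine ⟨v, ?_⟩
    rw [hv, map_mul (algebraMap W K), hxW, mul_assoc, mul_assoc, mul_assoc]
  obtain ⟨g₀, g₁, g₂, hg⟩ := hz _ hy
  obtain ⟨h₀, h₁, h₂, hh⟩ := hz _ hyx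
  obtain ⟨k₀, k₁, k₂, hk⟩ := hz _ hyxx
  -- comparison of the coordinates
  have hy0 := hcub.hy
  have hroot : algebraMap V K (algebraMap P V a) * x ^ 3 +
      algebraMap V K (algebraMap P V b) * x ^ 2 + algebraMap V K (algebraMap P V c) * x +
      algebraMap V K (algebraMap P V d) = 0 := by
    have h := hcub.root
    rw [hP, hP, hP, hP] at h
    exact h
  have c1 : (algebraMap V K g₀ + algebraMap V K g₁ * x + algebraMap V K g₂ * algebraMap R K θ) * x =
      algebraMap V K h₀ + algebraMap V K h₁ * x + algebraMap V K h₂ * algebraMap R K θ := by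
    apply mul_left_cancel₀ hy0
    rw [← mul_assoc, ← hg, ← hh]
  have c2 : (algebraMap V K h₀ + algebraMap V K h₁ * x + algebraMap V K h₂ * algebraMap R K θ) * x =
      algebraMap V K k₀ + algebraMap V K k₁ * x + algebraMap V K k₂ * algebraMap R K θ := by
    apply mul_left_cancel₀ hy0
    rw [← mul_assoc, ← hh, ← hk]
  rw [hθK] at c1 c2
  obtain ⟨-, d1, d2⟩ := hindV (-(g₂ * algebraMap P V d) - h₀ - h₂ * algebraMap P V c)
    (g₀ - h₁ - h₂ * algebraMap P V b) (g₁ - h₂ * algebraMap P V a) (by
      simp only [map_sub, map_mul, map_neg]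
      linear_combination c1 - algebraMap V K g₂ * hroot)
  obtain ⟨-, -, d3⟩ := hindV (-(h₂ * algebraMap P V d) - k₀ - k₂ * algebraMap P V c)
    (h₀ - k₁ - k₂ * algebraMap P V b) (h₁ - k₂ * algebraMap P V a) (by
      simp only [map_sub, map_mul, map_neg]
      linear_combination c2 - algebraMap V K h₂ * hroot)
  have f1 : g₁ = algebraMap P V π * (h₂ * u) := by
    rw [sub_eq_zero.1 d2, hau]; ring
  have f0 : g₀ = algebraMap P V π * (k₂ * u + h₂ * b') := by
    have : g₀ = h₁ + h₂ * algebraMap P V b := by linear_combination d1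
    rw [this, sub_eq_zero.1 d3, hau, hb]; ring
  refine ⟨algebraMap V W (k₂ * u + h₂ * b') + algebraMap V W (h₂ * u) * xW +
    algebraMap V W g₂ * (algebraMap V W u * xW ^ 2 + algebraMap V W b' * xW +
      algebraMap V W c'), ?_⟩
  rw [f0, f1, hθK, hau, hb, hc] at hg
  simp only [map_add, map_mul, map_pow, hWV, hxW, hP] at hg ⊢
  have hfin : (algebraMap W K δ)⁻¹ * algebraMap W K δ = 1 := inv_mul_cancel₀ hδK
  rw [hg] at hfin
  linear_combination hfin

end Pool.Agent.H653.FT867EON
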