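import Pool.Agent.H653.Coord

set_option autoImplicit false

namespace Pool.Agent.H653

open Filter Pool.Agent.H40.Bsig Finset Classical

theorem ex_Cr : Nonempty Cr := by
  choose S D T A h0 h1 h2 h3 h4 using coord
  have hm : ∀ l, ∀ᶠ m in U, l < m := fun l => (U_ge (l + 1)).mono fun m e => e
  refine ⟨{
    B := fun j m => S m j
    τ := fun m => S m m
    O := fun m => orc (m + 1) (D m) (A m)
    B0 := h0
    step := fun j => (hm j).mono fun m e => h2 m j e
    Bτ := fun j => (hm j).mono fun m e => h1 m j e.le
    settle := fun j => (hm j).mono fun m e c hc x hx h => ?_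
    D := D
    T := fun l m => T m l
    hO := fun m x => Iff.rfl
    mult := h3
    hit := fun l => (hm l).mono fun m e => ⟨(h4 m l e).2.1, (h4 m l e).2.2.1, fun e' he' hx =>
      (h4 m l e).2.2.2.1 e' (le_lt_Lf he') hx⟩
    count := fun l => (hm l).mono fun m e c hc n hn h => ?_
    rand := fun k hk l l' l'' hl hl' => ?_ }⟩
  · have := (h4 m j e).1 (Nat.pair 0 (Nat.pair c x)) (pair_lt_Lf (by omega) hc hx)
    simp only [VF, Nat.unpair_pair, if_true] at this
    exact this h
  · have := (h4 m l e).1 (Nat.pair 1 (Nat.pair c n)) (pair_lt_Lf (by omega) hc hn)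
    simp only [VF, Nat.unpair_pair, one_ne_zero, if_false] at this
    convert this ?_
    convert h
  · filter_upwards [hm l, hm l', hm l'', hm k] with m e1 e2 e3 e4 e he hT hg
    obtain ⟨j, rfl⟩ : ∃ j, k = j + 1 := ⟨k - 1, by omega⟩
    have := (h4 m l e1).2.2.2.2 j (by omega) l' e2.le l'' e3.le e he hT
    convert this ?_
    convert hg

end Pool.Agent.H653
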