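import Pool.Agent.H653.Co
import Pool.Agent.H653.Defs

set_option autoImplicit false

namespace Pool.Agent.H653

open Filter Pool.Agent.H40.Bsig RanDefs

/-- The data at all coordinates together with the colouring. -/
structure Cf extends Co where
  D : ℕ → ℕ → Finset ℕ
  T : ℕ → ℕ → Finset ℕ
  hO : ∀ m x, O m 0 x ↔ ∃ a b, x = sp a b ∧ a < b ∧ a ∉ D m b
  mult : ∀ m y, ∃ c : ℕ → ℕ, (∀ x ∈ D m y, c x < m) ∧
    ∀ x ∈ D m y, ∀ x' ∈ D m y, x < x' → (x ∈ D m x' ↔ c x ≠ c x')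
  hit : ∀ l, ∀ᶠ m in U, (∀ x ∈ T l m, x < B (l + 1) m) ∧ (∀ y, B (l + 1) m ≤ y → T l m ⊆ D m y) ∧
    ∀ e ≤ B l m, (∃ x, B (l + 1) m ≤ x ∧ x < τ m ∧ Rh (restr (g (O m)) (τ m)) e x) →
      ∃ x ∈ T l m, Rh (restr (g (O m)) (τ m)) e x
  count : ∀ l, ∀ᶠ m in U, ∀ c ≤ B l m, ∀ n ≤ B l m,
    open Classical in n ≤ ((Finset.range (τ m)).filter fun x => Rh (restr (g (O m)) (τ m)) c x).card →
      n ≤ ((Finset.range (B (l + 1) m)).filter fun x => Rh (restr (g (O m)) (B (l + 1) m)) c x).card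

namespace Cf

open CD Co

variable (q : Cf)

/-- The colouring. -/
def F : Set q.cd.I := {x | ∀ᶠ m in U, Psi (q.O m) 1 0 (rep x m)}

variable {q}

theorem F_mem : q.F ∈ q.cd.M.S := decS (q := q.toCo) 1 (bd_const 0)

theorem F_iff {x y : q.cd.I} (h : q.cd.M.lt x y) :
    pair q.cd.M x y ∈ q.F ↔ ∀ᶠ m in U, rep x m ∉ q.D m (rep y m) := by
  refine eventually_congr ?_
  filter_upwards [pair_ae x y, h] with m e e'
  rw [e, Psi, q.hO]
  refine ⟨fun ⟨a, b, h1, h2, h3⟩ => ?_, fun h => ⟨_, _, rfl, e', h⟩⟩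
  obtain ⟨rfl, rfl⟩ := sp_inj h1
  exact h3

theorem F_iff' {x y : q.cd.I} (h : q.cd.M.lt x y) :
    pair q.cd.M x y ∉ q.F ↔ ∀ᶠ m in U, rep x m ∈ q.D m (rep y m) := by
  rw [F_iff h, ← ae_not]
  simp only [not_not]

theorem avoids : Avoids q.cd.M q.F [1, 2, 0, 3] := by
  rintro ⟨x, hx⟩
  have h01 := hx 0 1 (by norm_num) (by norm_num)
  have h02 := hx 0 2 (by norm_num) (by norm_num)
  have h03 := hx 0 3 (by norm_num) (by norm_num)
  have h12 := hx 1 2 (by norm_num) (by norm_num)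
  have h13 := hx 1 3 (by norm_num) (by norm_num)
  have h23 := hx 2 3 (by norm_num) (by norm_num)
  have k01 := (F_iff' h01.1).1 (by rw [h01.2]; simp)
  have k02 := (F_iff h02.1).1 (by rw [h02.2]; simp)
  have k03 := (F_iff' h03.1).1 (by rw [h03.2]; simp)
  have k12 := (F_iff h12.1).1 (by rw [h12.2]; simp)
  have k13 := (F_iff' h13.1).1 (by rw [h13.2]; simp)
  have k23 := (F_iff' h23.1).1 (by rw [h23.2]; simp)
  obtain ⟨m, a01, a02, a03, a12, a13, a23, l01, l02, l12⟩ :=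
    (k01.and (k02.and (k03.and (k12.and (k13.and (k23.and (h01.1.and (h02.1.and h12.1)))))))).exists
  obtain ⟨c, _, hc⟩ := q.mult m (rep (x 3) m)
  have e1 := (hc _ a03 _ a13 l01).1 a01
  have e2 := not_not.1 fun e => a02 ((hc _ a03 _ a23 l02).2 e)
  have e3 := not_not.1 fun e => a12 ((hc _ a13 _ a23 l12).2 e)
  exact e1 (e2.trans e3.symm)

theorem not_hom1 {H : Set q.cd.I} (hH : H ∈ q.cd.M.S) (h1 : Unbounded q.cd.M H)
    (h2 : ∀ x ∈ H, ∀ y ∈ H, q.cd.M.lt x y → pair q.cd.M x y ∈ q.F) : False := by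
  obtain ⟨c, _, _, rfl, _⟩ := hH
  obtain ⟨l, hl⟩ := bd_rep c
  obtain ⟨z, hz⟩ := ex_rep (bd_B (p := q.cd) (l + 1))
  replace hz : ∀ᶠ m in U, rep z m = q.B (l + 1) m := hz
  obtain ⟨y, hy1, hy2⟩ := h1 z
  have e1 : ∀ᶠ m in U, ∃ x ∈ q.T l m, Rh (restr (g (q.O m)) (q.τ m)) (rep c m) x := by
    filter_upwards [q.hit l, hl, hz, hy1, hy2, lt_τ (q := q.toCo) (bd_rep y)] with m a1 a2 a3 a4 a5 a6
    exact a1.2.2 _ a2 ⟨rep y m, (a3 ▸ a5 : q.B (l + 1) m < rep y m).le, a6, a4⟩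
  obtain ⟨f, hf⟩ := ae_choose e1
  have hfb : ∀ᶠ m in U, f m < q.B (l + 1) m := by
    filter_upwards [hf, q.hit l] with m a1 a2
    exact a2.1 _ a1.1
  obtain ⟨x, hx⟩ := ex_rep (p := q.cd) (f := f) ⟨l + 1, hfb.mono fun m e => e.le⟩
  have hxH : x ∈ Zs c := by
    show ∀ᶠ m in U, q.cd.R m (rep c m) (rep x m)
    filter_upwards [hf, hx] with m a1 a2
    rw [a2]
    exact a1.2
  have hxy : q.cd.M.lt x y := by
    show ∀ᶠ m in U, rep x m < rep y m
    filter_upwards [hx, hfb, hz, hy2] with m a1 a2 a3 a4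
    rw [a1]
    exact a2.trans (a3 ▸ a4)
  have := (F_iff hxy).1 (h2 x hxH y hy1 hxy)
  obtain ⟨m, b1, b2, b3, b4, b5, b6⟩ := (this.and (hx.and (hf.and (hz.and
    ((show ∀ᶠ m in U, rep z m < rep y m from hy2).and (q.hit l)))))).exists
  rw [b2] at b1
  exact b1 (b6.2.1 _ (b4 ▸ b5.le) b3.1)

theorem not_hom0 {H : Set q.cd.I} (hH : H ∈ q.cd.M.S) (h1 : Unbounded q.cd.M H)
    (h2 : ∀ x ∈ H, ∀ y ∈ H, q.cd.M.lt x y → pair q.cd.M x y ∉ q.F) : False := by
  classical
  obtain ⟨c, _, _, rfl, _⟩ := hH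
  obtain ⟨l, hl⟩ := (bd_rep c).max ((bd_id (p := q.cd)).add (bd_const 2))
  have hb := bd_B (p := q.cd) (l + 1)
  -- in each coordinate `H` is a clique below `B (l + 1) m`
  have e1 : ∀ᶠ m in U, ∀ y < q.B (l + 1) m, q.cd.R m (rep c m) y → ∀ x < y, q.cd.R m (rep c m) x →
      x ∈ q.D m y := by
    by_contra hc
    have hc' := ae_not.2 hc
    obtain ⟨fy, hfy⟩ := ae_choose (P := fun m y => y < q.B (l + 1) m ∧ q.cd.R m (rep c m) y ∧ ∃ x < y,
      q.cd.R m (rep c m) x ∧ x ∉ q.D m y) (hc'.mono fun m e => by push Not at e; exact e)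
    obtain ⟨fx, hfx⟩ := ae_choose (hfy.mono fun m e => e.2.2)
    obtain ⟨y, hy⟩ := ex_rep (hb.mono (hfy.mono fun m e => e.1.le))
    obtain ⟨x, hx⟩ := ex_rep ((bd_rep y).mono ((hfx.and hy).mono fun m e => e.2 ▸ e.1.1.le))
    have hxy : q.cd.M.lt x y := by
      show ∀ᶠ m in U, rep x m < rep y m
      filter_upwards [hx, hy, hfx] with m a b c
      rw [a, b]
      exact c.1
    have := (F_iff' hxy).1 (h2 x (by
      show ∀ᶠ m in U, q.cd.R m (rep c m) (rep x m)
      filter_upwards [hx, hfx] with m a b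
      rw [a]
      exact b.2.1) y (by
      show ∀ᶠ m in U, q.cd.R m (rep c m) (rep y m)
      filter_upwards [hy, hfy] with m a b
      rw [a]
      exact b.2.1) hxy)
    obtain ⟨m, a1, a2, a3, a4⟩ := (this.and (hx.and (hy.and hfx))).exists
    rw [a2, a3] at a1
    exact a4.2.2 a1
  -- so it has at most `m + 1` elements there
  have e2 : ∀ᶠ m in U, ((Finset.range (q.B (l + 1) m)).filter fun x =>
      Rh (restr (g (q.O m)) (q.B (l + 1) m)) (rep c m) x).card ≤ m + 1 := by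
    filter_upwards [e1, q.Bτ (l + 1)] with m a a'
    set C := (Finset.range (q.B (l + 1) m)).filter fun x =>
      Rh (restr (g (q.O m)) (q.B (l + 1) m)) (rep c m) x with hC
    have hCR : ∀ x ∈ C, x < q.B (l + 1) m ∧ q.cd.R m (rep c m) x := fun x hx => by
      obtain ⟨h1, h2⟩ := Finset.mem_filter.1 hx
      exact ⟨Finset.mem_range.1 h1, Rh_mono a' h2⟩
    rcases C.eq_empty_or_nonempty with e | e
    · rw [e]
      simp
    · set y := C.max' e with hy
      have hyC : y ∈ C := C.max'_mem e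
      obtain ⟨co, hc1, hc2⟩ := q.mult m y
      have hsub : ∀ x ∈ C.erase y, x ∈ q.D m y := fun x hx => by
        obtain ⟨h1, h2⟩ := Finset.mem_erase.1 hx
        have := C.le_max' x h2
        exact a y (hCR y hyC).1 (hCR y hyC).2 x (lt_of_le_of_ne this h1) (hCR x h2).2
      have hinj : Set.InjOn co (C.erase y) := by
        have key : ∀ x ∈ C.erase y, ∀ x' ∈ C.erase y, x < x' → co x ≠ co x' := fun x hx x' hx' l' =>
          (hc2 x (hsub x hx) x' (hsub x' hx') l').1 (a x' (hCR x' (Finset.mem_of_mem_erase hx')).1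
            (hCR x' (Finset.mem_of_mem_erase hx')).2 x l' (hCR x (Finset.mem_of_mem_erase hx)).2)
        intro x hx x' hx' he
        rcases lt_trichotomy x x' with h | h | h
        · exact absurd he (key x hx x' hx' h)
        · exact h
        · exact absurd he.symm (key x' hx' x hx h)
      have hcard : (C.erase y).card ≤ m := by
        have := Finset.card_le_card_of_injOn co (s := C.erase y) (t := Finset.range m)
          (fun x hx => by simpa using hc1 x (hsub x hx)) hinj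
        simpa using this
      have := Finset.card_erase_add_one hyC
      omega
  -- hence all elements are verified at `B (l + 1) m`
  obtain ⟨z, hz⟩ := ex_rep hb
  replace hz : ∀ᶠ m in U, rep z m = q.B (l + 1) m := hz
  obtain ⟨y, hy1, hy2⟩ := h1 z
  have hy1' : ∀ᶠ m in U, q.cd.R m (rep c m) (rep y m) := hy1
  have hy2' : ∀ᶠ m in U, rep z m < rep y m := hy2
  obtain ⟨m, a1, a2, a3, a4, a5, a6, a7, a8⟩ := (e2.and (hl.and (hz.and (hy1'.and (hy2'.and
    ((lt_τ (q := q.toCo) (bd_rep y)).and ((q.count l).and (q.Bτ (l + 1))))))))).exists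
  set C := (Finset.range (q.B (l + 1) m)).filter fun x =>
      Rh (restr (g (q.O m)) (q.B (l + 1) m)) (rep c m) x with hC
  have sub : insert (rep y m) C ⊆ (Finset.range (q.τ m)).filter fun x =>
      Rh (restr (g (q.O m)) (q.τ m)) (rep c m) x := by
    intro x hx
    rcases Finset.mem_insert.1 hx with rfl | hx
    · exact Finset.mem_filter.2 ⟨Finset.mem_range.2 a6, a4⟩
    · obtain ⟨h1, h2⟩ := Finset.mem_filter.1 hx
      exact Finset.mem_filter.2 ⟨Finset.mem_range.2 ((Finset.mem_range.1 h1).trans_le a8),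
        Rh_mono a8 h2⟩
  have hyC : rep y m ∉ C := fun h => by
    have := Finset.mem_range.1 (Finset.mem_filter.1 h).1
    rw [← a3] at this
    omega
  have c1 := Finset.card_le_card sub
  rw [Finset.card_insert_of_notMem hyC] at c1
  have c2 : C.card + 1 ≤ C.card := a7 (rep c m) ((le_max_left _ _).trans a2) (C.card + 1)
    ((Nat.succ_le_succ a1).trans ((le_max_right _ _).trans a2)) c1
  omega

theorem not_coRT : ¬ CoRT q.cd.M [1, 2, 0, 3] := fun h => by
  obtain ⟨H, h1, h2, h3 | h3⟩ := h _ F_mem avoids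
  · exact not_hom1 h1 h2 h3
  · exact not_hom0 h1 h2 h3

end Cf

theorem sep1203 : Separable [1, 2, 0, 3] :=
  .dsum (π := [1, 2, 0]) (σ := [0]) (.ssum (π := [0, 1]) (σ := [0]) (.dsum (π := [0]) (σ := [0]) .one .one)
    .one) .one

end Pool.Agent.H653
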