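import Pool.Agent.H653.Rec

set_option autoImplicit false

namespace Pool.Agent.H653

open Pool.Agent.H40.Bsig Finset Classical

/-- At stage `t` the string `σ` of length `t` is seen to be outside of the class. -/
def kill1 (h : H) (ψ : Fm) (c c' pm n i t : ℕ) (σ : Finset ℕ) : Prop :=
  ∃ κ < t, ∀ V : ℕ → Set ℕ, (∀ x < t, x ∈ V 0 ↔ x ∈ σ) →
    (∀ j, ∀ x < t, (Rh (restr h t) c x → x ∈ V (j + 1)) ∧ (Rh (restr h t) c' x → x ∉ V (j + 1))) →
    ¬ Sat std ψ (cons κ (cons i (cons n (dec pm)))) V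

/-- The same for the test with index `e`. -/
def Kill (h : H) (e n i t : ℕ) (σ : Finset ℕ) : Prop :=
  Sum.elim (fun ψ => kill1 h ψ e.unpair.2.unpair.2.unpair.1 e.unpair.2.unpair.2.unpair.2
    e.unpair.2.unpair.1 n i t σ) (fun _ => True) (ops e.unpair.1)

/-- The sets used by the test with index `e` have levels at most `k`. -/
def TLev (e k : ℕ) : Prop :=
  e.unpair.2.unpair.2.unpair.1.unpair.1 ≤ k ∧ e.unpair.2.unpair.2.unpair.2.unpair.1 ≤ k

theorem kill1_mono {h : H} {ψ : Fm} {c c' pm n i t t' : ℕ} {σ σ' : Finset ℕ} (e : t ≤ t')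
    (hσ : ∀ x < t, x ∈ σ ↔ x ∈ σ') (a : kill1 h ψ c c' pm n i t σ) : kill1 h ψ c c' pm n i t' σ' := by
  obtain ⟨κ, hκ, hk⟩ := a
  exact ⟨κ, hκ.trans_le e, fun V h1 h2 => hk V
    (fun x hx => (h1 x (hx.trans_le e)).trans (hσ x hx).symm)
    fun j x hx => ⟨fun r => (h2 j x (hx.trans_le e)).1 (Rh_mono e r),
      fun r => (h2 j x (hx.trans_le e)).2 (Rh_mono e r)⟩⟩

theorem Kill_mono {h : H} {e n i t t' : ℕ} {σ σ' : Finset ℕ} (ht : t ≤ t')
    (hσ : ∀ x < t, x ∈ σ ↔ x ∈ σ') (a : Kill h e n i t σ) : Kill h e n i t' σ' := by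
  unfold Kill at a ⊢
  revert a
  generalize ops e.unpair.1 = o
  intro a
  rcases o with ψ | o
  · exact kill1_mono ht hσ a
  · trivial

theorem Kill_loc {O O' : ℕ → ℕ → Prop} {e k n i t : ℕ} {σ : Finset ℕ} (hk : TLev e k)
    (h : ∀ j < k, ∀ x < t, O j x ↔ O' j x) : Kill (g O) e n i t σ ↔ Kill (g O') e n i t σ := by
  have key : ∀ c, c.unpair.1 ≤ k → ∀ x, Rh (restr (g O) t) c x ↔ Rh (restr (g O') t) c x := fun c hc x => by
    have h1 := restr_loc (O := O) (O' := O') k t h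
    have h2 : ∀ h : H, Rh (cutk h k) c x ↔ Rh h c x := fun h =>
      ⟨fun ⟨y, _, b⟩ => ⟨y, b⟩, fun ⟨y, b⟩ => ⟨y, hc, b⟩⟩
    rw [← h2, h1, h2]
  unfold Kill
  rcases ops e.unpair.1 with ψ | o
  · simp only [Sum.elim_inl, kill1]
    simp only [key _ hk.1, key _ hk.2]
  · exact Iff.rfl

/-- The binary number of `σ ∩ [0, d)`. -/
noncomputable def bc (d : ℕ) (σ : Finset ℕ) : ℕ := Nat.ofBits fun i : Fin d => decide (i.1 ∈ σ)

theorem bc_lt (d : ℕ) (σ : Finset ℕ) : bc d σ < 2 ^ d := Nat.ofBits_lt_two_pow _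

theorem bc_test {d x : ℕ} (σ : Finset ℕ) (h : x < d) : (bc d σ).testBit x = true ↔ x ∈ σ := by
  rw [bc, Nat.testBit_ofBits_lt _ _ h]
  simp

theorem bc_test_ge {d x : ℕ} (σ : Finset ℕ) (h : d ≤ x) : (bc d σ).testBit x = false :=
  Nat.testBit_ofBits_ge _ _ h

theorem count_good {R : ℕ → Prop} {d t n a : ℕ} (hdt : d ≤ t) {K : ℕ → Finset ℕ → Prop}
    (h : ∀ σ ⊆ range t, ¬ R (bc d σ) → ∀ i < a, K i σ) (hc : ct R (2 ^ d) * 2 ^ n ≤ 2 * 2 ^ d) :
    #{σ ∈ (range t).powerset | ∃ i < a, ¬ K i σ} * 2 ^ n ≤ 2 * 2 ^ t := by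
  have h1 : #{σ ∈ (range t).powerset | ∃ i < a, ¬ K i σ} ≤
      #(((range (2 ^ d)).filter R) ×ˢ (Ico d t).powerset) := by
    refine card_le_card_of_injOn (fun σ => (bc d σ, σ.filter (d ≤ ·))) (fun σ hσ => ?_)
      fun σ hσ σ' hσ' e => ?_
    · obtain ⟨a1, i, hi, a2⟩ := mem_filter.1 hσ
      have a1' := mem_powerset.1 a1
      refine mem_coe.2 (mem_product.2 ⟨mem_filter.2 ⟨mem_range.2 (bc_lt _ _), ?_⟩,
        mem_powerset.2 fun x hx => ?_⟩)
      · by_contra hR
        exact a2 (h σ a1' hR i hi)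
      · obtain ⟨b1, b2⟩ := mem_filter.1 hx
        exact mem_Ico.2 ⟨b2, mem_range.1 (a1' b1)⟩
    · obtain ⟨e1, e2⟩ := Prod.ext_iff.1 e
      ext x
      rcases lt_or_ge x d with hx | hx
      · rw [← bc_test σ hx, ← bc_test σ' hx]
        simp only at e1
        rw [e1]
      · have := Finset.ext_iff.1 e2 x
        simpa [hx] using this
  have h2 : ct R (2 ^ d) = #((range (2 ^ d)).filter R) := by
    unfold ct
    rw [Nat.count_eq_card_filter_range]
  rw [card_product, card_powerset, Nat.card_Ico, ← h2] at h1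
  calc _ ≤ ct R (2 ^ d) * 2 ^ (t - d) * 2 ^ n := Nat.mul_le_mul_right _ h1
    _ = (ct R (2 ^ d) * 2 ^ n) * 2 ^ (t - d) := by ring
    _ ≤ (2 * 2 ^ d) * 2 ^ (t - d) := Nat.mul_le_mul_right _ hc
    _ = 2 * 2 ^ t := by rw [mul_assoc, ← pow_add, Nat.add_sub_cancel' hdt]

/-- Fubini: a random choice of the bits at the positions `pos x`, `x < t`, is in a small family
given by the other bits with small probability. -/
theorem fubini (s t n : ℕ) (pos : ℕ → ℕ) (hinj : Set.InjOn pos (Set.Iio t)) (hpos : ∀ x < t, pos x < s)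
    (B : Finset ℕ → Finset (Finset ℕ))
    (hB : ∀ A A', (∀ y, (∀ x < t, y ≠ pos x) → (y ∈ A ↔ y ∈ A')) → B A = B A') :
    avg s (fun A => ind1 (#(B A) * 2 ^ n ≤ 2 * 2 ^ t ∧ (range t).filter (fun x => pos x ∈ A) ∈ B A)) ≤
      2 / 2 ^ n := by
  set P := (range t).image pos with hP
  have hPs : P ⊆ range s := fun y hy => by
    obtain ⟨x, hx, rfl⟩ := mem_image.1 hy
    exact mem_range.2 (hpos x (mem_range.1 hx))
  have hPc : #P = t := by
    rw [hP, card_image_of_injOn, card_range]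
    simpa using hinj
  have hmem : ∀ y, y ∉ P ↔ ∀ x < t, y ≠ pos x := fun y => by
    simp only [hP, mem_image, mem_range, not_exists, not_and]
    exact ⟨fun h x hx e => h x hx e.symm, fun h x hx e => h x hx e.symm⟩
  have e1 : ∑ A ∈ (range s).powerset, ind1 (#(B A) * 2 ^ n ≤ 2 * 2 ^ t ∧
      (range t).filter (fun x => pos x ∈ A) ∈ B A) =
      ((#{A ∈ (range s).powerset | #(B A) * 2 ^ n ≤ 2 * 2 ^ t ∧
        (range t).filter (fun x => pos x ∈ A) ∈ B A} : ℕ) : ℝ) := by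
    rw [card_filter]
    push_cast
    exact sum_congr rfl fun A _ => by unfold ind1; split_ifs <;> rfl
  unfold avg
  rw [e1]
  have e2 : ((#{A ∈ (range s).powerset | #(B A) * 2 ^ n ≤ 2 * 2 ^ t ∧
        (range t).filter (fun x => pos x ∈ A) ∈ B A}) : ℕ) * 2 ^ n ≤ 2 * 2 ^ s := by
    set Z := (range s).powerset.filter fun A => #(B A) * 2 ^ n ≤ 2 * 2 ^ t ∧
        (range t).filter (fun x => pos x ∈ A) ∈ B A with hZ
    have m1 : ∀ A ∈ Z, A \ P ∈ (range s \ P).powerset := fun A hA =>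
      mem_powerset.2 (sdiff_subset_sdiff (mem_powerset.1 (mem_filter.1 hA).1) Subset.rfl)
    rw [card_eq_sum_card_fiberwise m1, sum_mul]
    have m2 : ∀ A' ∈ (range s \ P).powerset, #{A ∈ Z | A \ P = A'} * 2 ^ n ≤ 2 * 2 ^ t := by
      intro A' hA'
      rcases {A ∈ Z | A \ P = A'}.eq_empty_or_nonempty with he | ⟨A0, hA0⟩
      · rw [he]
        simp
      · have hBA : ∀ A ∈ Z.filter (fun A => A \ P = A'), B A = B A0 := fun A hA => hB A A0 fun y hy => by
          have hy' := (hmem y).2 hy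
          have c1 := Finset.ext_iff.1 ((mem_filter.1 hA).2.trans (mem_filter.1 hA0).2.symm) y
          simpa [hy'] using c1
        have c2 := (mem_filter.1 (mem_filter.1 hA0).1).2.1
        refine le_trans (Nat.mul_le_mul_right _ ?_) c2
        refine card_le_card_of_injOn (fun A => (range t).filter fun x => pos x ∈ A) (fun A hA => ?_)
          fun A hA A2 hA2 e => ?_
        · have := (mem_filter.1 (mem_filter.1 hA).1).2.2
          rw [hBA A hA] at this
          exact this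
        · ext y
          by_cases hy : y ∈ P
          · obtain ⟨x, hx, rfl⟩ := mem_image.1 hy
            have := Finset.ext_iff.1 e x
            simpa [mem_range.1 hx] using this
          · have c1 := Finset.ext_iff.1 ((mem_filter.1 hA).2.trans (mem_filter.1 hA2).2.symm) y
            simpa [hy] using c1
    calc ∑ A' ∈ (range s \ P).powerset, #{A ∈ Z | A \ P = A'} * 2 ^ n ≤
        ∑ A' ∈ (range s \ P).powerset, 2 * 2 ^ t := sum_le_sum m2
      _ = 2 ^ (s - t) * (2 * 2 ^ t) := by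
        rw [sum_const, card_powerset, card_sdiff_of_subset hPs, card_range, hPc, smul_eq_mul]
      _ = 2 * 2 ^ s := by
        have : t ≤ s := by
          rw [← hPc, ← card_range s]
          exact card_le_card hPs
        calc 2 ^ (s - t) * (2 * 2 ^ t) = 2 * (2 ^ (s - t) * 2 ^ t) := by ring
          _ = _ := by rw [← pow_add, Nat.sub_add_cancel this]
  rw [div_le_div_iff₀ (by positivity) (by positivity)]
  exact_mod_cast e2

end Pool.Agent.H653
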