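import Pool.Agent.H653.Num

set_option autoImplicit false

namespace Pool.Agent.H653

open Finset Classical

/-- No `0`-edges inside `I`; `x ∈ D y` means that `x < y` and `{x, y}` has colour `0`. -/
def Indep (D : ℕ → Finset ℕ) (I : Finset ℕ) : Prop := ∀ x ∈ I, ∀ y ∈ I, x ∉ D y

theorem Indep.subset {D : ℕ → Finset ℕ} {I I' : Finset ℕ} (h : Indep D I) (e : I' ⊆ I) : Indep D I' :=
  fun x hx y hy => h x (e hx) y (e hy)

/-- The `0`-predecessors inside `V` form a complete multipartite graph with at most `r` parts, and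
`V` has fractional chromatic number at most `4 ^ r`. -/
structure Q (r : ℕ) (D : ℕ → Finset ℕ) (V : Finset ℕ) : Prop where
  mult : ∀ y ∈ V, ∃ c : ℕ → ℕ, (∀ x ∈ D y, x ∈ V → c x < r) ∧
    ∀ x ∈ D y, ∀ x' ∈ D y, x ∈ V → x' ∈ V → x < x' → (x ∈ D x' ↔ c x ≠ c x')
  wt : ∀ w : ℕ → ℝ, (∀ x, 0 ≤ w x) →
    ∃ I ⊆ V, Indep D I ∧ (1 / 4 : ℝ) ^ r * ∑ x ∈ V, w x ≤ ∑ x ∈ I, w x

theorem Q.congr {r : ℕ} {D D' : ℕ → Finset ℕ} {V : Finset ℕ} (h : Q r D V) (e : ∀ y ∈ V, D y = D' y) :
    Q r D' V where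
  mult := fun y hy => by
    obtain ⟨c, h1, h2⟩ := h.mult y hy
    rw [← e y hy]
    exact ⟨c, h1, fun x hx x' hx' a b l => by rw [← e x' b]; exact h2 x hx x' hx' a b l⟩
  wt := fun w hw => by
    obtain ⟨I, h1, h2, h3⟩ := h.wt w hw
    exact ⟨I, h1, fun x hx y hy => by rw [← e y (h1 hy)]; exact h2 x hx y hy, h3⟩

theorem Q.zero {D : ℕ → Finset ℕ} {V : Finset ℕ} (h : ∀ y ∈ V, ∀ x ∈ V, x ∉ D y) : Q 0 D V where
  mult := fun y hy => ⟨fun _ => 0, fun x hx hV => absurd hx (h y hy x hV),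
    fun x hx _ _ hV => absurd hx (h y hy x hV)⟩
  wt := fun w _ => ⟨V, Subset.rfl, fun x hx y hy => h y hy x hx, by simp⟩

/-- Colourings of `[0, t)` which extend `D0` on `[0, s)` and which are built in blocks on `[s, t)`. -/
structure LS (s : ℕ) (D0 : ℕ → Finset ℕ) (Act : Finset ℕ) (r : ℕ) where
  t : ℕ
  D : ℕ → Finset ℕ
  k : ℕ
  blk : ℕ → ℕ
  use : ℕ → ℕ
  hst : s ≤ t
  base : ∀ y < s, D y = D0 y
  act : ∀ y, s ≤ y → y < t → ∀ x < s, (x ∈ D y ↔ x ∈ Act)
  lt : ∀ y, s ≤ y → y < t → ∀ x ∈ D y, x < y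
  blk_le : ∀ x, s ≤ x → x < t → blk x ≤ k
  blk_mono : ∀ x y, s ≤ x → x ≤ y → y < t → blk x ≤ blk y
  cross : ∀ x y, s ≤ x → x < y → y < t → blk x < blk y → (x ∈ D y ↔ use x = blk y)
  use_le : ∀ x, s ≤ x → x < t → use x ≤ k
  use_gt : ∀ x, s ≤ x → x < t → use x ≠ 0 → blk x < use x
  ind : ∀ x y, s ≤ x → x < y → y < t → use x = use y → use x ≠ 0 → x ∉ D y
  blocks : ∀ j ≤ k, Q r D ((Ico s t).filter (blk · = j))

namespace LS

variable {s r : ℕ} {D0 : ℕ → Finset ℕ} {Act : Finset ℕ}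

theorem q (σ : LS s D0 Act r) : Q (r + 1) σ.D (Ico s σ.t) where
  mult := by
    intro y hy
    obtain ⟨hy1, hy2⟩ := mem_Ico.1 hy
    obtain ⟨c, h1, h2⟩ := (σ.blocks (σ.blk y) (σ.blk_le y hy1 hy2)).mult y
      (mem_filter.2 ⟨hy, rfl⟩)
    refine ⟨fun x => if σ.blk x < σ.blk y then r else c x, fun x hx hV => ?_, fun x hx x' hx' a b l => ?_⟩
    · obtain ⟨hx1, hx2⟩ := mem_Ico.1 hV
      show (if σ.blk x < σ.blk y then r else c x) < r + 1
      split_ifs with h
      · exact Nat.lt_succ_self _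
      · have := σ.blk_mono x y hx1 (σ.lt y hy1 hy2 x hx).le hy2
        exact (h1 x hx (mem_filter.2 ⟨hV, by omega⟩)).trans (Nat.lt_succ_self _)
    · obtain ⟨ha1, ha2⟩ := mem_Ico.1 a
      obtain ⟨hb1, hb2⟩ := mem_Ico.1 b
      have lx := σ.lt y hy1 hy2 x hx
      have lx' := σ.lt y hy1 hy2 x' hx'
      have m1 := σ.blk_mono x y ha1 lx.le hy2
      have m2 := σ.blk_mono x' y hb1 lx'.le hy2
      have m3 := σ.blk_mono x x' ha1 l.le hb2
      show (x ∈ σ.D x' ↔ (if σ.blk x < σ.blk y then r else c x) ≠ if σ.blk x' < σ.blk y then r else c x')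
      by_cases e1 : σ.blk x < σ.blk y
      · have u1 := (σ.cross x y ha1 lx hy2 e1).1 hx
        by_cases e2 : σ.blk x' < σ.blk y
        · have u2 := (σ.cross x' y hb1 lx' hy2 e2).1 hx'
          rw [if_pos e1, if_pos e2]
          refine iff_of_false (σ.ind x x' ha1 l hb2 (u1.trans u2.symm) (by omega)) (by simp)
        · have e3 : σ.blk x' = σ.blk y := by omega
          rw [if_pos e1, if_neg e2]
          refine iff_of_true ((σ.cross x x' ha1 l hb2 (by omega)).2 (by omega)) ?_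
          exact (h1 x' hx' (mem_filter.2 ⟨b, e3⟩)).ne'
      · have e3 : σ.blk x = σ.blk y := by omega
        have e4 : σ.blk x' = σ.blk y := by omega
        rw [if_neg e1, if_neg (by omega)]
        exact h2 x hx x' hx' (mem_filter.2 ⟨a, e3⟩) (mem_filter.2 ⟨b, e4⟩) l
  wt := by
    intro w hw
    choose! I h1 h2 h3 using fun j (hj : j ≤ σ.k) => (σ.blocks j hj).wt w hw
    set V := Ico s σ.t with hV
    set V1 := V.filter fun x => x ∈ I (σ.blk x) with hV1
    -- total weight of V1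
    have t1 : (1 / 4 : ℝ) ^ r * ∑ x ∈ V, w x ≤ ∑ x ∈ V1, w x := by
      have e1 : ∀ x ∈ V, σ.blk x ∈ range (σ.k + 1) := fun x hx =>
        mem_range.2 (Nat.lt_succ_of_le (σ.blk_le x (mem_Ico.1 hx).1 (mem_Ico.1 hx).2))
      rw [← sum_fiberwise_of_maps_to e1 w,
        ← sum_fiberwise_of_maps_to (s := V1) (g := σ.blk) (t := range (σ.k + 1))
          (fun x hx => e1 x (mem_filter.1 hx).1) w, mul_sum]
      refine sum_le_sum fun j hj => ?_
      have hj' := Nat.lt_succ_iff.1 (mem_range.1 hj)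
      refine (h3 j hj').trans (sum_le_sum_of_subset_of_nonneg (fun x hx => ?_) fun x _ _ => hw x)
      obtain ⟨a, b⟩ := mem_filter.1 (h1 j hj' hx)
      exact mem_filter.2 ⟨mem_filter.2 ⟨a, b.symm ▸ hx⟩, b⟩
    -- averaging over sets of blocks
    set U := range (σ.k + 1) with hU
    have t2 : ∀ x ∈ V1, (2 : ℝ) ^ #U ≤ 4 * ∑ S ∈ U.powerset,
        if σ.blk x ∈ S ∧ (σ.use x = 0 ∨ σ.use x ∉ S) then (1 : ℝ) else 0 := by
      intro x hx
      have hxV := (mem_filter.1 hx).1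
      obtain ⟨a, b⟩ := mem_Ico.1 hxV
      have hb : σ.blk x ∈ U := mem_range.2 (Nat.lt_succ_of_le (σ.blk_le x a b))
      have key : ∀ u, σ.blk x ≠ u → (∀ S ∈ U.powerset, u ∉ S → (σ.use x = 0 ∨ σ.use x ∉ S)) →
          (2 : ℝ) ^ #U ≤ 4 * ∑ S ∈ U.powerset,
            if σ.blk x ∈ S ∧ (σ.use x = 0 ∨ σ.use x ∉ S) then (1 : ℝ) else 0 := fun u hu hS => by
        refine (quarter U hb hu).trans (mul_le_mul_of_nonneg_left (sum_le_sum fun S h => ?_)
          (by norm_num))
        by_cases e : σ.blk x ∈ S ∧ u ∉ S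
        · rw [if_pos e, if_pos ⟨e.1, hS S h e.2⟩]
        · rw [if_neg e]
          split_ifs <;> norm_num
      by_cases h0 : σ.use x = 0
      · exact key (σ.blk x + 1) (by omega) fun S _ _ => Or.inl h0
      · exact key (σ.use x) (σ.use_gt x a b h0).ne fun S _ h => Or.inr h
    obtain ⟨S, hS, hle⟩ : ∃ S ∈ U.powerset, (1 / 4 : ℝ) * ∑ x ∈ V1, w x ≤
        ∑ x ∈ V1 with σ.blk x ∈ S ∧ (σ.use x = 0 ∨ σ.use x ∉ S), w x := by
      by_contra hc
      push Not at hc
      have e1 : ∑ S ∈ U.powerset, ∑ x ∈ V1 with σ.blk x ∈ S ∧ (σ.use x = 0 ∨ σ.use x ∉ S), w x <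
          ∑ S ∈ U.powerset, (1 / 4 : ℝ) * ∑ x ∈ V1, w x :=
        sum_lt_sum_of_nonempty ⟨∅, by simp⟩ hc
      rw [sum_const, card_powerset, nsmul_eq_mul] at e1
      have e2 : ∑ S ∈ U.powerset, ∑ x ∈ V1 with σ.blk x ∈ S ∧ (σ.use x = 0 ∨ σ.use x ∉ S), w x =
          ∑ x ∈ V1, w x * ∑ S ∈ U.powerset,
            if σ.blk x ∈ S ∧ (σ.use x = 0 ∨ σ.use x ∉ S) then (1 : ℝ) else 0 := by
        simp only [sum_filter, mul_sum]
        rw [sum_comm]
        exact sum_congr rfl fun x _ => sum_congr rfl fun S _ => by split_ifs <;> simp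
      rw [e2] at e1
      have e3 : ∑ x ∈ V1, w x * 2 ^ #U ≤ ∑ x ∈ V1, w x * (4 * ∑ S ∈ U.powerset,
            if σ.blk x ∈ S ∧ (σ.use x = 0 ∨ σ.use x ∉ S) then (1 : ℝ) else 0) :=
        sum_le_sum fun x hx => mul_le_mul_of_nonneg_left (t2 x hx) (hw x)
      rw [← sum_mul] at e3
      have e4 : ∑ x ∈ V1, w x * (4 * ∑ S ∈ U.powerset,
            if σ.blk x ∈ S ∧ (σ.use x = 0 ∨ σ.use x ∉ S) then (1 : ℝ) else 0) =
          4 * ∑ x ∈ V1, w x * ∑ S ∈ U.powerset,
            if σ.blk x ∈ S ∧ (σ.use x = 0 ∨ σ.use x ∉ S) then (1 : ℝ) else 0 := by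
        rw [mul_sum]
        exact sum_congr rfl fun x _ => by ring
      rw [e4] at e3
      push_cast at e1
      linarith
    refine ⟨{x ∈ V1 | σ.blk x ∈ S ∧ (σ.use x = 0 ∨ σ.use x ∉ S)},
      (filter_subset _ _).trans (filter_subset _ _), fun x hx y hy hxy => ?_, ?_⟩
    · obtain ⟨hx1, hx2, hx3⟩ := mem_filter.1 hx
      obtain ⟨hy1, hy2, hy3⟩ := mem_filter.1 hy
      obtain ⟨hx4, hx5⟩ := mem_filter.1 hx1
      obtain ⟨hy4, hy5⟩ := mem_filter.1 hy1
      obtain ⟨a1, a2⟩ := mem_Ico.1 hx4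
      obtain ⟨b1, b2⟩ := mem_Ico.1 hy4
      have l := σ.lt y b1 b2 x hxy
      have m := σ.blk_mono x y a1 l.le b2
      rcases m.eq_or_lt with m | m
      · exact h2 _ (σ.blk_le y b1 b2) x (m ▸ hx5) y hy5 hxy
      · have u := (σ.cross x y a1 l b2 m).1 hxy
        rcases hx3 with h | h
        · omega
        · exact h (u ▸ hy2)
    · calc (1 / 4 : ℝ) ^ (r + 1) * ∑ x ∈ V, w x = (1 / 4) * ((1 / 4) ^ r * ∑ x ∈ V, w x) := by ring
        _ ≤ (1 / 4) * ∑ x ∈ V1, w x := mul_le_mul_of_nonneg_left t1 (by norm_num)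
        _ ≤ _ := hle

/-- The empty structure. -/
def init (s : ℕ) (D0 : ℕ → Finset ℕ) (Act : Finset ℕ) (hAct : ∀ x ∈ Act, x < s) (r t : ℕ) (h : s ≤ t)
    (hq : ∀ D V, (∀ y ∈ V, ∀ x ∈ V, x ∉ D y) → Q r D V) : LS s D0 Act r where
  t := t
  D := fun y => if y < s then D0 y else Act
  k := 0
  blk := fun _ => 0
  use := fun _ => 0
  hst := h
  base := fun y hy => if_pos hy
  act := fun y hy _ x _ => by rw [if_neg (by omega)]
  lt := fun y hy _ x hx => by
    rw [if_neg (by omega)] at hx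
    exact (hAct x hx).trans_le hy
  blk_le := fun _ _ _ => le_rfl
  blk_mono := fun _ _ _ _ _ => le_rfl
  cross := fun _ _ _ _ _ h => absurd h (lt_irrefl _)
  use_le := fun _ _ _ => le_rfl
  use_gt := fun _ _ _ h => absurd rfl h
  ind := fun _ _ _ _ _ _ h => absurd rfl h
  blocks := fun j _ => hq _ _ fun y hy x hx e => by
    have hy := mem_Ico.1 (mem_filter.1 hy).1
    have hx := mem_Ico.1 (mem_filter.1 hx).1
    rw [if_neg (by omega)] at e
    have := hAct x e
    omega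

/-- Add a block. -/
def ext (σ : LS s D0 Act r) (T : Finset ℕ) (hT : T ⊆ Ico s σ.t) (hT0 : ∀ x ∈ T, σ.use x = 0)
    (hTi : Indep σ.D T) (t' : ℕ) (D' : ℕ → Finset ℕ) (ht : σ.t ≤ t') (hD : ∀ y < σ.t, D' y = σ.D y)
    (hD' : ∀ y, σ.t ≤ y → y < t' → (∀ x < σ.t, (x ∈ D' y ↔ x ∈ Act ∪ T)) ∧ ∀ x ∈ D' y, x < y)
    (hAct : ∀ x ∈ Act, x < s) (hq : Q r D' (Ico σ.t t')) : LS s D0 Act r where
  t := t'
  D := D'
  k := σ.k + 1
  blk := fun x => if x < σ.t then σ.blk x else σ.k + 1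
  use := fun x => if x ∈ T then σ.k + 1 else if x < σ.t then σ.use x else 0
  hst := σ.hst.trans ht
  base := fun y hy => (hD y (hy.trans_le σ.hst)).trans (σ.base y hy)
  act := fun y h1 h2 x hx => by
    by_cases h : y < σ.t
    · rw [hD y h]
      exact σ.act y h1 h x hx
    · rw [(hD' y (by omega) h2).1 x (hx.trans_le σ.hst), mem_union]
      exact ⟨fun e => e.resolve_right fun e => by have := mem_Ico.1 (hT e); omega, Or.inl⟩
  lt := fun y h1 h2 x hx => by
    by_cases h : y < σ.t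
    · rw [hD y h] at hx
      exact σ.lt y h1 h x hx
    · exact (hD' y (by omega) h2).2 x hx
  blk_le := fun x h1 h2 => by
    split_ifs with h
    · exact (σ.blk_le x h1 h).trans (Nat.le_succ _)
    · exact le_rfl
  blk_mono := fun x y h1 h2 h3 => by
    split_ifs with h h' h'
    · exact σ.blk_mono x y h1 h2 h'
    · exact (σ.blk_le x h1 h).trans (Nat.le_succ _)
    · omega
    · exact le_rfl
  cross := fun x y h1 h2 h3 h4 => by
    by_cases hy : y < σ.t
    · have hx : x < σ.t := h2.trans hy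
      rw [if_pos hy, if_pos hx] at h4
      rw [if_pos hy, if_pos hx, hD y hy, σ.cross x y h1 h2 hy h4]
      have := σ.blk_le y (by omega) hy
      by_cases hxT : x ∈ T
      · rw [if_pos hxT, hT0 x hxT]
        exact iff_of_false (by omega) (by omega)
      · rw [if_neg hxT]
    · by_cases hx : x < σ.t
      · rw [if_pos hx, if_neg hy, (hD' y (by omega) h3).1 x hx, mem_union]
        have := σ.use_le x h1 hx
        by_cases hxT : x ∈ T
        · simp [hxT]
        · rw [if_neg hxT]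
          refine iff_of_false (not_or.2 ⟨fun e => ?_, hxT⟩) (by omega)
          have := hAct x e
          omega
      · rw [if_neg hx, if_neg hy] at h4
        exact absurd h4 (lt_irrefl _)
  use_le := fun x h1 h2 => by
    split_ifs with h h'
    · exact le_rfl
    · exact (σ.use_le x h1 h').trans (Nat.le_succ _)
    · exact Nat.zero_le _
  use_gt := fun x h1 h2 h3 => by
    by_cases hxT : x ∈ T
    · have := mem_Ico.1 (hT hxT)
      rw [if_pos hxT, if_pos this.2]
      exact Nat.lt_succ_of_le (σ.blk_le x h1 this.2)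
    · rw [if_neg hxT] at h3 ⊢
      by_cases hx : x < σ.t
      · rw [if_pos hx] at h3 ⊢
        rw [if_pos hx]
        exact σ.use_gt x h1 hx h3
      · rw [if_neg hx] at h3
        exact absurd rfl h3
  ind := fun x y h1 h2 h3 h4 h5 => by
    have hx : x < σ.t := by
      by_contra h
      rw [if_neg (fun e => h (mem_Ico.1 (hT e)).2), if_neg h] at h5
      exact h5 rfl
    have hy : y < σ.t := by
      by_contra h
      rw [if_neg (c := y ∈ T) (fun e => h (mem_Ico.1 (hT e)).2), if_neg h] at h4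
      exact h5 h4
    rw [hD y hy]
    have l1 := σ.use_le x h1 hx
    have l2 := σ.use_le y (by omega) hy
    by_cases hxT : x ∈ T
    · by_cases hyT : y ∈ T
      · exact hTi x hxT y hyT
      · rw [if_pos hxT, if_neg hyT, if_pos hy] at h4
        omega
    · rw [if_neg hxT, if_pos hx] at h4 h5
      by_cases hyT : y ∈ T
      · rw [if_pos hyT] at h4
        omega
      · rw [if_neg hyT, if_pos hy] at h4
        exact σ.ind x y h1 h2 hy h4 h5
  blocks := fun j hj => by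
    rcases hj.eq_or_lt with rfl | hj
    · have e : (Ico s t').filter (fun x => (if x < σ.t then σ.blk x else σ.k + 1) = σ.k + 1) =
          Ico σ.t t' := by
        ext x
        simp only [mem_filter, mem_Ico]
        constructor
        · rintro ⟨⟨a, b⟩, c⟩
          refine ⟨?_, b⟩
          by_contra h
          rw [if_pos (by omega)] at c
          have := σ.blk_le x a (by omega)
          omega
        · rintro ⟨a, b⟩
          exact ⟨⟨σ.hst.trans a, b⟩, if_neg (by omega)⟩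
      rw [e]
      exact hq
    · have e : (Ico s t').filter (fun x => (if x < σ.t then σ.blk x else σ.k + 1) = j) =
          (Ico s σ.t).filter (σ.blk · = j) := by
        ext x
        simp only [mem_filter, mem_Ico]
        constructor
        · rintro ⟨⟨a, b⟩, c⟩
          by_cases h : x < σ.t
          · rw [if_pos h] at c
            exact ⟨⟨a, h⟩, c⟩
          · rw [if_neg h] at c
            omega
        · rintro ⟨⟨a, b⟩, c⟩
          exact ⟨⟨a, b.trans_le ht⟩, by rw [if_pos b]; exact c⟩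
      rw [e]
      exact (σ.blocks j (Nat.lt_succ_iff.1 hj)).congr fun y hy =>
        (hD y (mem_Ico.1 (mem_filter.1 hy).1).2).symm

end LS

end Pool.Agent.H653
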