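import Pool.Agent.H653.Core

set_option autoImplicit false

namespace Pool.Agent.H653

open Finset Classical

theorem Q.empty (r : ℕ) (D : ℕ → Finset ℕ) (V : Finset ℕ) (h : ∀ y ∈ V, ∀ x ∈ V, x ∉ D y) : Q r D V where
  mult := fun y hy => ⟨fun _ => 0, fun x hx hV => absurd hx (h y hy x hV),
    fun x hx _ _ hV => absurd hx (h y hy x hV)⟩
  wt := fun w hw => ⟨V, Subset.rfl, fun x hx y hy => h y hy x hx, by
    have h1 : ((1 : ℝ) / 4) ^ r ≤ 1 := pow_le_one₀ (by norm_num) (by norm_num)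
    have h2 : 0 ≤ ∑ x ∈ V, w x := sum_nonneg fun x _ => hw x
    nlinarith⟩

theorem Q.subset {r : ℕ} {D : ℕ → Finset ℕ} {V V' : Finset ℕ} (h : Q r D V) (e : V' ⊆ V) : Q r D V' where
  mult := fun y hy => by
    obtain ⟨c, h1, h2⟩ := h.mult y (e hy)
    exact ⟨c, fun x hx hV => h1 x hx (e hV), fun x hx x' hx' a b l => h2 x hx x' hx' (e a) (e b) l⟩
  wt := fun w hw => by
    obtain ⟨I, h1, h2, h3⟩ := h.wt (fun x => if x ∈ V' then w x else 0) fun x => by
      split_ifs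
      · exact hw x
      · exact le_rfl
    refine ⟨I.filter (· ∈ V'), fun x hx => (mem_filter.1 hx).2, h2.subset (filter_subset _ _), ?_⟩
    rw [sum_filter]
    rwa [← sum_filter, filter_mem_eq_inter, inter_eq_right.2 e] at h3

theorem levels {K : ℕ} (V : ℕ → Fact K) (W : ℕ → ℕ → Fact K) (Lf tf : ℕ → ℕ) (εf : ℕ → ℝ)
    (hε : ∀ s, 0 < εf s) (hε1 : ∀ s, εf s ≤ 1) (r : ℕ) :
    ∀ (s : ℕ) (D0 : ℕ → Finset ℕ) (Act : Finset ℕ), (∀ x ∈ Act, x < s) →
    ∃ (D : ℕ → Finset ℕ) (S : ℕ → ℕ) (T : ℕ → Finset ℕ), S 0 = s ∧ (∀ y < s, D y = D0 y) ∧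
      (∀ y, s ≤ y → (∀ x < s, (x ∈ D y ↔ x ∈ Act)) ∧ ∀ x ∈ D y, x < y) ∧
      (∀ t', Q r D (Ico s t')) ∧
      ∀ l < r, S l ≤ S (l + 1) ∧ tf (S l) ≤ S (l + 1) ∧ T l ⊆ Ico (S l) (S (l + 1)) ∧
        (∀ y, S (l + 1) ≤ y → T l ⊆ D y) ∧ ∀ t', S (l + 1) ≤ t' →
        mass (Lf (S l)) (K * t') (fun e A => ind1 ((V e).P t' D A ∧ ¬ (V e).P (S (l + 1)) D A)) ≤
          εf (S l) ∧
        mass (Lf (S l)) (K * t') (fun e A => ind1 ((∃ x, S (l + 1) ≤ x ∧ x < t' ∧ (W e x).P t' D A) ∧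
          ¬ ∃ x ∈ T l, (W e x).P t' D A)) ≤ εf (S l) := by
  induction r with
  | zero =>
    intro s D0 Act hAct
    have e : ∀ y, s ≤ y → (fun y => if y < s then D0 y else Act) y = Act := fun y hy =>
      if_neg (by omega)
    refine ⟨fun y => if y < s then D0 y else Act, fun _ => s, fun _ => ∅, rfl, fun y hy => if_pos hy,
      fun y hy => ⟨fun x _ => by rw [e y hy], fun x hx => ?_⟩, fun t' => ?_,
      fun l hl => absurd hl (Nat.not_lt_zero l)⟩
    · rw [e y hy] at hx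
      exact (hAct x hx).trans_le hy
    · refine Q.empty 0 _ _ fun y hy x hx h => ?_
      have := mem_Ico.1 hy
      have h3 := mem_Ico.1 hx
      rw [if_neg (by omega)] at h
      have := hAct x h
      omega
  | succ r ih =>
    intro s D0 Act hAct
    obtain ⟨t, D1, T1, c1, c2, c3, c4, c5, c6⟩ := core V W s D0 Act hAct r (Q.empty r) (Lf s) (tf s)
      (hε s) (hε1 s)
    have hAct' : ∀ x ∈ Act ∪ T1, x < t := fun x hx => by
      rcases mem_union.1 hx with h | h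
      · exact (hAct x h).trans_le c1
      · exact (mem_Ico.1 (c4 h)).2
    obtain ⟨D, S, T, d1, d2, d3, d4, d5⟩ := ih t D1 (Act ∪ T1) hAct'
    have c6' := fun t' (ht : t ≤ t') => c6 t' D ht d2 (fun y h1 _ => d3 y h1) (d4 t')
    refine ⟨D, fun l => Nat.casesOn l s S, fun l => Nat.casesOn l T1 T, rfl,
      fun y hy => (d2 y (hy.trans_le c1)).trans (c3 y hy), fun y hy => ?_, fun t' => ?_, fun l hl => ?_⟩
    · by_cases h : y < t
      · rw [d2 y h]
        exact c5 y hy h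
      · refine ⟨fun x hx => ?_, (d3 y (by omega)).2⟩
        rw [(d3 y (by omega)).1 x (hx.trans_le c1), mem_union]
        exact ⟨fun e => e.resolve_right fun e => by have := mem_Ico.1 (c4 e); omega, Or.inl⟩
    · by_cases h : t ≤ t'
      · exact (c6' t' h).1
      · exact (c6' t le_rfl).1.subset (Ico_subset_Ico_right (by omega))
    · cases l with
      | zero =>
        show s ≤ S 0 ∧ tf s ≤ S 0 ∧ T1 ⊆ Ico s (S 0) ∧ (∀ y, S 0 ≤ y → T1 ⊆ D y) ∧ ∀ t', S 0 ≤ t' →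
          mass (Lf s) (K * t') (fun e A => ind1 ((V e).P t' D A ∧ ¬ (V e).P (S 0) D A)) ≤ εf s ∧
          mass (Lf s) (K * t') (fun e A => ind1 ((∃ x, S 0 ≤ x ∧ x < t' ∧ (W e x).P t' D A) ∧
            ¬ ∃ x ∈ T1, (W e x).P t' D A)) ≤ εf s
        rw [d1]
        exact ⟨c1, c2, c4, fun y hy x hx => ((d3 y hy).1 x (hAct' x (mem_union_right _ hx))).2
          (mem_union_right _ hx), fun t' ht => (c6' t' ht).2⟩
      | succ l => exact d5 l (by omega)

end Pool.Agent.H653
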