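import Pool.Agent.H653.Sel

set_option autoImplicit false

namespace Pool.Agent.H653

open Finset Classical

theorem loss_le {β q : ℝ} (hβ : 0 ≤ β) (hβ1 : β ≤ 1) (hq : 0 ≤ q) (hq1 : q ≤ 1 / 2) (n : ℕ) :
    (1 - β + β * q) ^ n - (1 - β) ^ n ≤ 2 * q := by
  induction n with
  | zero => simp [hq]
  | succ n ih =>
    have h1 : (1 - β) ^ n ≤ 1 := pow_le_one₀ (by linarith) (by linarith)
    have h2 : 0 ≤ 1 - β + β * q := by nlinarith
    have h3 : (1 - β + β * q) ^ (n + 1) - (1 - β) ^ (n + 1) =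
        (1 - β + β * q) * ((1 - β + β * q) ^ n - (1 - β) ^ n) + β * q * (1 - β) ^ n := by ring
    rw [h3]
    have h4 := mul_le_mul_of_nonneg_left ih h2
    have h5 := mul_le_mul_of_nonneg_left h1 (mul_nonneg hβ hq)
    nlinarith [mul_nonneg hβ hq]

theorem gain_ge {M m : ℕ} (h : m ≤ M) (hM : 0 < M) :
    1 / (4 * M : ℝ) ≤ (1 - 1 / (2 * M : ℝ)) ^ m - (1 - 1 / (2 * M : ℝ)) ^ (m + 1) := by
  have hM' : (0 : ℝ) < M := by exact_mod_cast hM
  have h1 : (1 : ℝ) ≤ M := by exact_mod_cast hM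
  have h0 : (1 : ℝ) / (2 * M) ≤ 1 / 2 := by
    rw [div_le_div_iff₀ (by positivity) (by norm_num)]
    linarith
  have h2 : (1 : ℝ) / 2 ≤ (1 - 1 / (2 * M : ℝ)) ^ m := by
    have := one_add_mul_le_pow (a := -(1 / (2 * M : ℝ))) (by linarith) m
    have h3 : (m : ℝ) * (1 / (2 * M)) ≤ 1 / 2 := by
      rw [mul_one_div, div_le_div_iff₀ (by positivity) (by norm_num)]
      have : (m : ℝ) ≤ M := by exact_mod_cast h
      linarith
    have h4 : (1 : ℝ) + -(1 / (2 * M)) = 1 - 1 / (2 * M) := by ring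
    rw [h4] at this
    linarith
  have h5 : (1 - 1 / (2 * M : ℝ)) ^ m - (1 - 1 / (2 * M : ℝ)) ^ (m + 1) =
      (1 / (2 * M)) * (1 - 1 / (2 * M : ℝ)) ^ m := by ring
  rw [h5]
  have h6 : (1 : ℝ) / (4 * M) = (1 / (2 * M)) * (1 / 2) := by ring
  rw [h6]
  exact mul_le_mul_of_nonneg_left h2 (by positivity)

theorem unhit_le {x : ℝ} (h0 : 0 < x) (h1 : x ≤ 1) {n M : ℕ} (hM : 0 < M) (h : M ≤ n) :
    (1 - x) ^ n ≤ 1 / (M * x) := by
  have hM' : (0 : ℝ) < M := by exact_mod_cast hM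
  rw [le_div_iff₀ (by positivity)]
  have h2 := one_add_mul_le_pow (a := x) (by linarith) n
  have h3 : (1 - x) ^ n * (1 + x) ^ n ≤ 1 := by
    rw [← mul_pow]
    exact pow_le_one₀ (mul_nonneg (by linarith) (by linarith)) (by nlinarith)
  have h4 : 0 ≤ (1 - x) ^ n := pow_nonneg (by linarith) n
  have h5 : (M : ℝ) ≤ n := by exact_mod_cast h
  calc (1 - x) ^ n * (M * x) ≤ (1 - x) ^ n * (1 + x) ^ n :=
        mul_le_mul_of_nonneg_left (by nlinarith) h4
    _ ≤ 1 := h3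

/-- The scales. -/
theorem ex_scales (L G : ℕ) {ε θ : ℝ} (hε : 0 < ε) (hε1 : ε ≤ 1) (hθ : 0 < θ) :
    ∃ M : ℕ → ℕ, (∀ g, 0 < M g) ∧ (∀ g, M g ≤ M (g + 1)) ∧
      ∀ g, ∃ q : ℝ, 0 < q ∧ q ≤ 1 / 2 ∧ (G + 1) * L * (2 * q) ≤ ε / (64 * M g) ∧
        L / (M (g + 1) * (q * θ)) ≤ ε / 8 := by
  have step : ∀ m : ℕ, ∃ m' : ℕ, m ≤ m' ∧ (0 < m → ∃ q : ℝ, 0 < q ∧ q ≤ 1 / 2 ∧
      (G + 1) * L * (2 * q) ≤ ε / (64 * m) ∧ L / (m' * (q * θ)) ≤ ε / 8) := by
    intro m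
    rcases Nat.eq_zero_or_pos m with rfl | hm
    · exact ⟨0, le_rfl, fun h => absurd h (lt_irrefl 0)⟩
    have hm' : (0 : ℝ) < m := by exact_mod_cast hm
    have hm1 : (1 : ℝ) ≤ m := by exact_mod_cast hm
    have hG : (0 : ℝ) ≤ G := Nat.cast_nonneg _
    have hL : (0 : ℝ) ≤ L := Nat.cast_nonneg _
    set q : ℝ := ε / (128 * m * (G + 1) * (L + 1)) with hq
    have hden : (0 : ℝ) < 128 * m * (G + 1) * (L + 1) := by positivity
    have hq0 : 0 < q := div_pos hε hden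
    refine ⟨max m ⌈8 * L / (ε * (q * θ))⌉₊, le_max_left _ _, fun _ => ⟨q, hq0, ?_, ?_, ?_⟩⟩
    · rw [hq, div_le_div_iff₀ hden (by norm_num)]
      have : (1 : ℝ) ≤ m * (G + 1) * (L + 1) := by
        have h1 : (1 : ℝ) ≤ m * (G + 1) := by nlinarith
        nlinarith
      nlinarith
    · rw [le_div_iff₀ (by positivity)]
      have e : (G + 1) * L * (2 * q) * (64 * m) = ε * (L / (L + 1)) := by
        rw [hq]
        field_simp
        ring
      rw [e]
      have : (L : ℝ) / (L + 1) ≤ 1 := by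
        rw [div_le_one (by positivity)]
        linarith
      nlinarith
    · have h1 : (8 * L / (ε * (q * θ)) : ℝ) ≤ ((max m ⌈8 * L / (ε * (q * θ))⌉₊ : ℕ) : ℝ) :=
        (Nat.le_ceil _).trans (by exact_mod_cast le_max_right _ _)
      have h2 : (0 : ℝ) < ((max m ⌈8 * L / (ε * (q * θ))⌉₊ : ℕ) : ℝ) := by
        exact_mod_cast lt_max_of_lt_left hm
      have hqθ : 0 < q * θ := mul_pos hq0 hθ
      rw [div_le_div_iff₀ (by positivity) (by norm_num)]
      rw [div_le_iff₀ (by positivity)] at h1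
      linarith
  choose nx h1 h2 using step
  have pos : ∀ g, 0 < nx^[g] 1 := fun g => by
    induction g with
    | zero => exact Nat.one_pos
    | succ g ih =>
      rw [Function.iterate_succ_apply']
      exact ih.trans_le (h1 _)
  refine ⟨fun g => nx^[g] 1, pos, fun g => ?_, fun g => ?_⟩
  · show nx^[g] 1 ≤ nx^[g + 1] 1
    rw [Function.iterate_succ_apply']
    exact h1 _
  · simp only [Function.iterate_succ_apply']
    exact h2 _ (pos g)

/-- A nearly maximal element. -/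
theorem near_max {α : Type} [Nonempty α] (Φ : α → ℝ) {C : ℝ} (h : ∀ a, Φ a ≤ C) {δ : ℝ} (hδ : 0 < δ) :
    ∃ a, ∀ b, Φ b < Φ a + δ := by
  have hb : BddAbove (Set.range Φ) := ⟨C, by rintro _ ⟨a, rfl⟩; exact h a⟩
  obtain ⟨a, ha⟩ := exists_lt_of_lt_ciSup (show iSup Φ - δ < iSup Φ by linarith)
  exact ⟨a, fun b => by have := le_ciSup hb b; linarith⟩

/-- The sum over `e < L` of averages. -/
noncomputable def mass (L s : ℕ) (X : ℕ → Finset ℕ → ℝ) : ℝ := avg s fun A => ∑ e ∈ range L, X e A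

theorem mass_eq (L s : ℕ) (X : ℕ → Finset ℕ → ℝ) :
    mass L s X = (∑ p ∈ range L ×ˢ (range s).powerset, X p.1 p.2) / 2 ^ s := by
  rw [mass, avg, sum_product, sum_comm]

theorem mass_mono {L s : ℕ} {X Y : ℕ → Finset ℕ → ℝ} (h : ∀ e A, X e A ≤ Y e A) :
    mass L s X ≤ mass L s Y := avg_mono fun A => sum_le_sum fun e _ => h e A

theorem mass_add (L s : ℕ) (X Y : ℕ → Finset ℕ → ℝ) :
    mass L s (fun e A => X e A + Y e A) = mass L s X + mass L s Y := by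
  simp only [mass, sum_add_distrib, avg_add]

theorem mass_sub (L s : ℕ) (X Y : ℕ → Finset ℕ → ℝ) :
    mass L s (fun e A => X e A - Y e A) = mass L s X - mass L s Y := by
  simp only [mass, sum_sub_distrib, avg_sub]

theorem mass_mul (L s : ℕ) (c : ℝ) (X : ℕ → Finset ℕ → ℝ) :
    mass L s (fun e A => c * X e A) = c * mass L s X := by
  simp only [mass, ← mul_sum, avg_mul]

theorem mass_sum (L s : ℕ) (T : Finset ℕ) (X : ℕ → ℕ → Finset ℕ → ℝ) :
    mass L s (fun e A => ∑ g ∈ T, X g e A) = ∑ g ∈ T, mass L s (X g) := by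
  simp only [mass]
  rw [← avg_sum]
  congr 1
  funext A
  rw [sum_comm]

theorem mass_const (L s : ℕ) (c : ℝ) : mass L s (fun _ _ => c) = L * c := by
  simp [mass, avg_const]

theorem mass_nonneg {L s : ℕ} {X : ℕ → Finset ℕ → ℝ} (h : ∀ e A, 0 ≤ X e A) : 0 ≤ mass L s X :=
  avg_nonneg fun A => sum_nonneg fun e _ => h e A

theorem mass_loc {L s s' : ℕ} (e : s ≤ s') {X : ℕ → Finset ℕ → ℝ} (h : ∀ e, Loc s (X e)) :
    mass L s' X = mass L s X :=
  avg_loc e fun A A' a => sum_congr rfl fun e _ => h e A A' a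

end Pool.Agent.H653
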