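import Pool.Agent.H653.Levels
import Pool.Graph.R_pool_sql_team_ae5b0c61.H40.Den1

set_option autoImplicit false

namespace Pool.Agent.H653

open Finset Classical
open Pool.Agent.H40.Bsig (H restr restr_restr Good ops cod ops_cod Rh dec dec_pair dec_le cons Sat std Bdd Fm
  sp sp_inj le_sp ex_use use bb)

/-- The basic sets: finite sets given by binary codes, and the oracles. -/
def Psi (O : ℕ → ℕ → Prop) : ℕ → ℕ → ℕ → Prop
  | 0, d, x => d.testBit x = true
  | j + 1, _, x => O j x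

/-- Only the sets with an index of level at most `k`. -/
def cutk (h : H) (k : ℕ) : H := fun y c x => c.unpair.1 ≤ k ∧ h y c x

def Phi (O : ℕ → ℕ → Prop) (h : H) (z c x : ℕ) : Prop :=
  Sum.elim (fun θ => Good θ (cutk h c.unpair.1) z c.unpair.2.unpair.2 x)
    (fun o => z = x ∧ o.1 ≤ c.unpair.1 ∧ (Psi O o.1 c.unpair.2.unpair.2 x ↔ o.2 = true))
    (ops c.unpair.2.unpair.1)

def hist (O : ℕ → ℕ → Prop) : ℕ → H
  | 0 => fun _ _ _ => False
  | z + 1 => fun y c x => hist O z y c x ∨ (y = z ∧ Phi O (hist O z) z c x)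

/-- At stage `y` the number `x` enters the `c`-th set. -/
def g (O : ℕ → ℕ → Prop) : H := fun y => Phi O (hist O y) y

variable {O O' : ℕ → ℕ → Prop}

theorem hist_eq (z : ℕ) : hist O z = restr (g O) z := by
  induction z with
  | zero => funext y c x; simp [hist, restr]
  | succ z ih =>
    funext y c x
    refine propext ⟨?_, fun e => ?_⟩
    · rintro (e | ⟨rfl, e⟩)
      · rw [ih] at e
        exact ⟨e.1.trans (Nat.lt_succ_self z), e.2⟩
      · exact ⟨Nat.lt_succ_self _, e⟩
    · rcases Nat.lt_succ_iff_lt_or_eq.1 e.1 with e' | rfl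
      · exact Or.inl (ih ▸ ⟨e', e.2⟩)
      · exact Or.inr ⟨rfl, e.2⟩

theorem g_sig (θ : Fm) (z k d x : ℕ) :
    g O z (Nat.pair k (Nat.pair (cod (.inl θ)) d)) x ↔ Good θ (cutk (restr (g O) z) k) z d x := by
  simp only [g, Phi, Nat.unpair_pair, ops_cod, hist_eq, Sum.elim_inl]

theorem R_dec (j : ℕ) (b : Bool) (k d x : ℕ) (hj : j ≤ k) :
    Rh (g O) (Nat.pair k (Nat.pair (cod (.inr (j, b))) d)) x ↔ (Psi O j d x ↔ b = true) := by
  simp only [Rh, g, Phi, Nat.unpair_pair, ops_cod, hist_eq, Sum.elim_inr]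
  exact ⟨fun ⟨_, _, _, h⟩ => h, fun h => ⟨x, rfl, hj, h⟩⟩

/-- The stage at which a decidable basic fact is verified. -/
theorem R_dec_restr (j : ℕ) (b : Bool) (k d x z : ℕ) (hj : j ≤ k) (hx : x < z) :
    Rh (restr (g O) z) (Nat.pair k (Nat.pair (cod (.inr (j, b))) d)) x ↔ (Psi O j d x ↔ b = true) := by
  rw [← R_dec (O := O) j b k d x hj]
  refine ⟨fun ⟨y, h⟩ => ⟨y, h.2⟩, fun ⟨y, h⟩ => ⟨y, ?_, h⟩⟩
  simp only [g, Phi, Nat.unpair_pair, ops_cod, hist_eq, Sum.elim_inr] at h
  rwa [h.1]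

theorem g_loc (k t : ℕ) (h : ∀ j < k, ∀ x < t, O j x ↔ O' j x) :
    ∀ y < t, ∀ c, c.unpair.1 ≤ k → ∀ x, g O y c x ↔ g O' y c x := by
  intro y
  induction y using Nat.strong_induction_on with
  | _ y ih =>
    intro hy c hc x
    have e : cutk (restr (g O) y) c.unpair.1 = cutk (restr (g O') y) c.unpair.1 := by
      funext y' c' x'
      refine propext (and_congr_right fun hc' => and_congr_right fun hy' => ?_)
      exact ih y' hy' (hy'.trans hy) c' (hc'.trans hc) x'
    simp only [g, Phi, hist_eq, e]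
    rcases ops c.unpair.2.unpair.1 with θ | o
    · exact Iff.rfl
    · simp only [Sum.elim_inr]
      refine and_congr_right fun hx => and_congr_right fun ho => ?_
      rcases o with ⟨_ | j, b⟩
      · exact Iff.rfl
      · refine iff_congr (h j ?_ x (hx ▸ hy)) Iff.rfl
        exact Nat.lt_of_succ_le (ho.trans hc)

theorem restr_loc (k t : ℕ) (h : ∀ j < k, ∀ x < t, O j x ↔ O' j x) :
    cutk (restr (g O) t) k = cutk (restr (g O') t) k := by
  funext y c x
  exact propext (and_congr_right fun hc => and_congr_right fun hy => g_loc k t h y hy c hc x)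

theorem Rh_mono {h : H} {z z' c x : ℕ} (e : z ≤ z') (a : Rh (restr h z) c x) : Rh (restr h z') c x :=
  a.imp fun _ b => ⟨b.1.trans_le e, b.2⟩

/-- The oracles given by a colouring and a set of bits. -/
def orc (K : ℕ) (D : ℕ → Finset ℕ) (A : Finset ℕ) : ℕ → ℕ → Prop
  | 0, x => ∃ a b, x = sp a b ∧ a < b ∧ a ∉ D b
  | j + 1, x => j < K ∧ K * x + j ∈ A

theorem orc_loc {K t : ℕ} {D D' : ℕ → Finset ℕ} {A A' : Finset ℕ} (h1 : ∀ y < t, D y = D' y)
    (h2 : ∀ x < K * t, x ∈ A ↔ x ∈ A') (j x : ℕ) (hx : x < t) : orc K D A j x ↔ orc K D' A' j x := by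
  cases j with
  | zero =>
    refine exists₂_congr fun a b => and_congr_right fun e => and_congr_right fun _ => ?_
    rw [h1 b (lt_of_le_of_lt (le_sp a b).2 (e ▸ hx))]
  | succ j =>
    refine and_congr_right fun hj => h2 _ ?_
    calc K * x + j < K * x + K := Nat.add_lt_add_left hj _
      _ = K * (x + 1) := by ring
      _ ≤ K * t := Nat.mul_le_mul_left K hx

theorem orc_restr {K t : ℕ} {D D' : ℕ → Finset ℕ} {A A' : Finset ℕ} (h1 : ∀ y < t, D y = D' y)
    (h2 : ∀ x < K * t, x ∈ A ↔ x ∈ A') : restr (g (orc K D A)) t = restr (g (orc K D' A')) t := by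
  funext y c x
  exact propext (and_congr_right fun hy =>
    g_loc c.unpair.1 t (fun j _ x hx => orc_loc h1 h2 j x hx) y hy c le_rfl x)

/-- The `e`-th settling fact. -/
def VF (K e : ℕ) : Fact K where
  P := fun t D A => if e.unpair.1 = 0 then Rh (restr (g (orc K D A)) t) e.unpair.2.unpair.1 e.unpair.2.unpair.2
    else e.unpair.2.unpair.2 ≤ #{x ∈ range t | Rh (restr (g (orc K D A)) t) e.unpair.2.unpair.1 x}
  mono := fun {t t' D A} h a => by
    split_ifs at a ⊢
    · exact Rh_mono h a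
    · refine a.trans (card_le_card fun x hx => ?_)
      obtain ⟨h1, h2⟩ := mem_filter.1 hx
      exact mem_filter.2 ⟨range_mono h h1, Rh_mono h h2⟩
  loc := fun {t D D' A A'} h1 h2 => by rw [orc_restr h1 h2]

/-- `x` is enumerated in the `e`-th set. -/
def WF (K e x : ℕ) : Fact K where
  P := fun t D A => Rh (restr (g (orc K D A)) t) e x
  mono := fun h a => Rh_mono h a
  loc := fun {t D D' A A'} h1 h2 => by rw [orc_restr h1 h2]

end Pool.Agent.H653
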