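import Pool.Agent.H653.Kill

set_option autoImplicit false

namespace Pool.Agent.H653

open Filter Pool.Agent.H40.Bsig RanDefs

def nn (s : ℕ) : ℕ := 8 * s + 20

/-- The data at all coordinates with random columns. -/
structure Cr extends Cf where
  rand : ∀ k, 1 ≤ k → ∀ l l' l'', l ≤ l' → l' ≤ l'' → ∀ᶠ m in U, ∀ e ≤ B l m, TLev e k →
    open Classical in ((Finset.range (B l'' m)).powerset.filter fun σ =>
      ∃ i < B l' m, ¬ Kill (g (O m)) e (nn (B l m)) i (B l'' m) σ).card * 2 ^ nn (B l m) ≤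
        2 * 2 ^ B l'' m →
    open Classical in ∀ i < B l' m, Kill (g (O m)) e (nn (B l m)) i (B l'' m)
      ((Finset.range (B l'' m)).filter (O m k))

namespace Cr

open CD Co

variable {q : Cr}

theorem hbb (f h : ℕ → ℕ) (a : q.cd.Bd f) (b : q.cd.Bd h) : q.cd.Bd fun m => bb (f m) (h m) :=
  (dom (q := q.toCo) a b).mono (Eventually.of_forall fun _ => Nat.le_add_left _ _)

theorem bd_pow {f : ℕ → ℕ} (h : q.cd.Bd f) : q.cd.Bd fun m => 2 ^ f m :=
  (hbb _ _ h h).mono (Eventually.of_forall fun _ => Nat.le_add_left _ _)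

/-- Internal bounded sets are in the model. -/
theorem fin_mem {z : ℕ → ℕ} (hz : q.cd.Bd z) (σ : ℕ → Finset ℕ) :
    {x : q.cd.I | ∀ᶠ m in U, rep x m < z m ∧ rep x m ∈ σ m} ∈ q.cd.M.S := by
  have h1 : q.cd.Bd fun m => bc (z m) (σ m) :=
    (bd_pow hz).mono (Eventually.of_forall fun m => (bc_lt _ _).le)
  have h2 := decS (q := q.toCo) 0 h1
  have e : {x : q.cd.I | ∀ᶠ m in U, rep x m < z m ∧ rep x m ∈ σ m} =
      {x : q.cd.I | ∀ᶠ m in U, Psi (q.O m) 0 (bc (z m) (σ m)) (rep x m)} := by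
    ext x
    refine eventually_congr (Eventually.of_forall fun m => ?_)
    show _ ↔ (bc (z m) (σ m)).testBit (rep x m) = true
    by_cases h : rep x m < z m
    · rw [bc_test _ h]
      simp [h]
    · rw [bc_test_ge _ (not_lt.1 h)]
      simp [h]
  rw [e]
  exact h2

theorem twoRan : TwoRan q.cd.M := by
  classical
  intro X hX
  obtain ⟨c, c', ⟨k₀, hk, hk'⟩, hXc, hXc'⟩ := hX
  set k := max k₀ 1 with hkdef
  have hk1 : 1 ≤ k := le_max_right _ _
  refine ⟨{x : q.cd.I | ∀ᶠ m in U, Psi (q.O m) (k + 1) 0 (rep x m)}, decS (q := q.toCo) (k + 1)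
    (bd_const 0), fun ψ hψ v hT => ?_⟩
  -- membership in `X` at the coordinates
  have hXm : ∀ x, x ∈ X ↔ ∀ᶠ m in U, rep x m ∈ {t | q.cd.R m (rep c m) t} := fun x => by
    rw [hXc]; rfl
  have hcompl : ∀ b, q.cd.Bd b → ∀ᶠ m in U, ∀ t < b m,
      (q.cd.R m (rep c' m) t ↔ ¬ q.cd.R m (rep c m) t) := fun b hb =>
    (ball_iff hb _).1 fun t _ => by
      have e : t ∈ Zs c' ↔ t ∉ Zs c := by rw [← hXc, ← hXc']; rfl
      by_cases e' : t ∈ Zs c
      · exact (Filter.Eventually.and e' (ae_not.2 fun e'' => e.1 e'' e')).mono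
          fun m a => iff_of_false a.2 fun b => b a.1
      · exact (Filter.Eventually.and (e.2 e') (ae_not.2 e')).mono fun m a => iff_of_true a.1 a.2
  -- the index of the test
  obtain ⟨pm, hpm1, hpm2⟩ := code ψ.sup v
  have hpm3 : ∀ᶠ m in U, ∀ i ∈ Set.Iio ψ.sup, dec (pm m) i = rep (v i) m :=
    (eventually_all_finite (Set.finite_Iio _)).2 fun i hi => hpm2 i hi
  have hE : q.cd.Bd fun m => Nat.pair (cod (.inl ψ)) (Nat.pair (pm m) (Nat.pair (rep c m) (rep c' m))) :=
    (bd_const _).pair (hpm1.pair ((bd_rep c).pair (bd_rep c')))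
  obtain ⟨l, hl⟩ := hE
  have hKill : ∀ m n i t σ, Kill (g (q.O m)) (Nat.pair (cod (.inl ψ)) (Nat.pair (pm m)
      (Nat.pair (rep c m) (rep c' m)))) n i t σ ↔ kill1 (g (q.O m)) ψ (rep c m) (rep c' m) (pm m) n i t σ := by
    intro m n i t σ
    simp only [Kill, Nat.unpair_pair, ops_cod, Sum.elim_inl]
  have hTL : ∀ᶠ m in U, TLev (Nat.pair (cod (.inl ψ)) (Nat.pair (pm m)
      (Nat.pair (rep c m) (rep c' m)))) k := by
    filter_upwards [hk, hk'] with m a b
    simp only [TLev, Nat.unpair_pair]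
    exact ⟨a.trans (le_max_left _ _), b.trans (le_max_left _ _)⟩
  have hnb : q.cd.Bd fun m => nn (q.B l m) := ((bd_const 8).mul (bd_B (p := q.cd) l)).add (bd_const 20)
  obtain ⟨n, hn⟩ := ex_rep hnb
  refine ⟨n, fun hU => ?_⟩
  obtain ⟨i, hi⟩ := hU
  obtain ⟨l₁, hl₁⟩ := bd_rep i
  set l' := max l l₁ + 1 with hl'
  have hil' : ∀ᶠ m in U, rep i m < q.B l' m := by
    filter_upwards [hl₁, q.cd.le_of_le (le_max_right l l₁), q.cd.lt_succ (max l l₁)] with m a b d
    exact a.trans_lt (lt_of_le_of_lt b d)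
  obtain ⟨a, ha⟩ := ex_rep (bd_B (p := q.cd) l')
  replace ha : ∀ᶠ m in U, rep a m = q.B l' m := ha
  obtain ⟨d, D, C, cc, N, E, hD, hN, hE2, hC, hcnt, hle, hcov⟩ := hT n a n
  obtain ⟨γ, γ', _, hCγ, _⟩ := hC
  have hD' := (pow2_iff hbb _ _).1 hD
  have hN' := (pow2_iff hbb _ _).1 hN
  have hE' := (pow2_iff hbb _ _).1 hE2
  have hcnt' := (cnt_iff hbb (C := C) (W := fun m t => q.cd.R m (rep γ m) t) (fun x => by
    rw [hCγ]; rfl) D cc).1 hcnt
  have hsize : ∀ᶠ m in U, ct (fun t => q.cd.R m (rep γ m) t) (2 ^ rep d m) * 2 ^ nn (q.B l m) ≤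
      2 * 2 ^ rep d m := by
    have hle' := ae_not.2 hle
    filter_upwards [hle', hD', hN', hE', hcnt', hn, mul_ae (q.cd.M.add N E) D, add_ae N E,
      mul_ae (q.cd.M.mul cc N) E, mul_ae cc N] with m b1 b2 b3 b4 b5 b6 b7 b8 b9 b10
    rw [b7, b8, b9, b10, not_lt, b3, b4, b2, b5, b2, b6] at b1
    have e : 0 < 2 ^ nn (q.B l m) := by positivity
    have b1' : (ct (fun t => q.cd.R m (rep γ m) t) (2 ^ rep d m) * 2 ^ nn (q.B l m)) * 2 ^ nn (q.B l m) ≤
        (2 * 2 ^ rep d m) * 2 ^ nn (q.B l m) := by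
      calc _ ≤ (2 ^ nn (q.B l m) + 2 ^ nn (q.B l m)) * 2 ^ rep d m := b1
        _ = _ := by ring
    exact Nat.le_of_mul_le_mul_right b1' e
  -- uniform bound for the stages
  have hunif : ∃ b, q.cd.Bd b ∧ ∀ᶠ m in U, ∀ x < (max (2 ^ rep d m) (q.B l' m) + 1) ^ 2,
      rep d m ≤ b m ∧ (x.unpair.1 < 2 ^ rep d m → ¬ q.cd.R m (rep γ m) x.unpair.1 → x.unpair.2 < q.B l' m →
        ∀ σ ⊆ Finset.range (b m), bc (rep d m) σ = x.unpair.1 →
          kill1 (g (q.O m)) ψ (rep c m) (rep c' m) (pm m) (nn (q.B l m)) x.unpair.2 (b m) σ) := by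
    have hbd : q.cd.Bd fun m => (max (2 ^ rep d m) (q.B l' m) + 1) ^ 2 :=
      ((bd_pow (bd_rep d)).of_le (bd_B (p := q.cd) l') fun m => le_rfl)
    obtain ⟨a', ha'⟩ := ex_rep hbd
    let W : ℕ → ℕ → ℕ → Prop := fun m x y =>
      rep d m ≤ y ∧ (x.unpair.1 < 2 ^ rep d m → ¬ q.cd.R m (rep γ m) x.unpair.1 → x.unpair.2 < q.B l' m →
        ∀ σ ⊆ Finset.range y, bc (rep d m) σ = x.unpair.1 →
          kill1 (g (q.O m)) ψ (rep c m) (rep c' m) (pm m) (nn (q.B l m)) x.unpair.2 y σ)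
    suffices hs : (∀ m x y y', y ≤ y' → W m x y → W m x y') ∧
        ∀ x, q.cd.M.lt x a' → ∃ y : q.cd.I, ∀ᶠ m in U, W m (rep x m) (rep y m) by
      obtain ⟨b, hb1, hb2⟩ := int_unif (p := q.cd) W a' hs.1 hs.2
      exact ⟨b, hb1, (hb2.and ha').mono fun m e x hx => e.1 x (e.2 ▸ hx)⟩
    constructor
    · rintro m x y y' hy ⟨h1, h2⟩
      refine ⟨h1.trans hy, fun e1 e2 e3 σ hσ e4 => ?_⟩
      refine kill1_mono (σ := σ.filter (· < y)) hy (fun t ht => by simp [ht])
        (h2 e1 e2 e3 _ (fun t ht => Finset.mem_range.2 (Finset.mem_filter.1 ht).2) ?_)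
      rw [← e4]
      refine Nat.eq_of_testBit_eq fun t => ?_
      rcases lt_or_ge t (rep d m) with ht | ht
      · rw [Bool.eq_iff_iff, bc_test _ ht, bc_test _ ht]
        simp [ht.trans_le h1]
      · rw [bc_test_ge _ ht, bc_test_ge _ ht]
    · intro x _
      by_cases hdom : ∀ᶠ m in U, (rep x m).unpair.1 < 2 ^ rep d m ∧
          ¬ q.cd.R m (rep γ m) (rep x m).unpair.1 ∧ (rep x m).unpair.2 < q.B l' m
      swap
      · refine ⟨d, (ae_not.2 hdom).mono fun m e => ⟨le_rfl, fun e1 e2 e3 => absurd ⟨e1, e2, e3⟩ e⟩⟩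
      obtain ⟨s, hs⟩ := ex_rep (f := fun m => (rep x m).unpair.1) ((bd_rep x).mono
        (Eventually.of_forall fun m => Nat.unpair_left_le _))
      obtain ⟨i', hi'⟩ := ex_rep (f := fun m => (rep x m).unpair.2) ((bd_rep x).mono
        (Eventually.of_forall fun m => Nat.unpair_right_le _))
      have c1 : q.cd.M.lt s D := by
        show ∀ᶠ m in U, rep s m < rep D m
        filter_upwards [hdom, hs, hD'] with m a1 a2 a3
        rw [a2, a3]
        exact a1.1
      have c2 : s ∉ C := by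
        rw [hCγ]
        refine fun hh => ?_
        have hh' : ∀ᶠ m in U, q.cd.R m (rep γ m) (rep s m) := hh
        obtain ⟨m, a1, a2, a3⟩ := (hh'.and (hdom.and hs)).exists
        rw [a3] at a1
        exact a2.2.1 a1
      have c3 : q.cd.M.lt i' a := by
        show ∀ᶠ m in U, rep i' m < rep a m
        filter_upwards [hdom, hi', ha] with m a1 a2 a3
        rw [a2, a3]
        exact a1.2.2
      obtain ⟨κ, hκ⟩ := hcov s c1 c2 i' c3
      -- the use of the formula
      have hub := (dom (q := q.toCo) (bd_const (cod (.inl ψ))) ((bd_rep κ).pair ((bd_rep i').pair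
        ((bd_rep n).pair hpm1)))).mono (Eventually.of_forall fun m => Nat.le_add_right _ _)
      obtain ⟨z, hz1, hz2, hz3, hz4⟩ := settle' (q := q.toCo)
        (((bd_rep c).max (bd_rep c')).max ((bd_rep κ).max (bd_rep d))) hub
      obtain ⟨z', hz'⟩ := ex_rep hz1
      refine ⟨z', ?_⟩
      have main : ∀ᶠ m in U, ∀ σ ⊆ Finset.range (z m), bc (rep d m) σ = rep s m →
          kill1 (g (q.O m)) ψ (rep c m) (rep c' m) (pm m) (nn (q.B l m)) (rep i' m) (z m) σ := by
        by_contra hc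
        obtain ⟨σ, hσ⟩ : ∃ σ : ℕ → Finset ℕ, ∀ᶠ m in U, σ m ⊆ Finset.range (z m) ∧
            bc (rep d m) (σ m) = rep s m ∧
            ¬ kill1 (g (q.O m)) ψ (rep c m) (rep c' m) (pm m) (nn (q.B l m)) (rep i' m) (z m) (σ m) := by
          refine ⟨fun m => if h : ∃ σ ⊆ Finset.range (z m), bc (rep d m) σ = rep s m ∧
            ¬ kill1 (g (q.O m)) ψ (rep c m) (rep c' m) (pm m) (nn (q.B l m)) (rep i' m) (z m) σ
            then h.choose else ∅, (ae_not.2 hc).mono fun m e => ?_⟩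
          push Not at e
          obtain ⟨σ, e1, e2, e3⟩ := e
          have h : ∃ σ ⊆ Finset.range (z m), bc (rep d m) σ = rep s m ∧
            ¬ kill1 (g (q.O m)) ψ (rep c m) (rep c' m) (pm m) (nn (q.B l m)) (rep i' m) (z m) σ :=
            ⟨σ, e1, e2, e3⟩
          simp only [dif_pos h]
          exact h.choose_spec
        set Z : Set q.cd.I := {x | ∀ᶠ m in U, rep x m < z m ∧ rep x m ∈ σ m} with hZ
        have hZm : ∀ x, x ∈ Z ↔ ∀ᶠ m in U, rep x m ∈ (↑(σ m) : Set ℕ) := fun y => by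
          refine eventually_congr (hσ.mono fun m e => ⟨fun h => h.2, fun h => ⟨?_, h⟩⟩)
          exact Finset.mem_range.1 (e.1 h)
        have hno := hκ Z (fin_mem hz1 σ) fun y hy => by
          rw [hZm, bit_iff hbb]
          refine eventually_congr ?_
          filter_upwards [hσ, (show ∀ᶠ m in U, rep y m < rep d m from hy)] with m e1 e2
          rw [← e1.2.1, bc_test _ e2]
          rfl
        have hno' := (not_congr (los hψ (V := cons Z fun _ => X) (W := fun m => cons (↑(σ m))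
          fun _ => {t | q.cd.R m (rep c m) t}) (by
            rintro (_ | j) y
            · exact hZm y
            · exact hXm y) (cons κ (cons i' (cons n v)))
          (fun m => cons (rep κ m) (cons (rep i' m) (cons (rep n m) fun j => rep (v j) m)))
          (cons_ae (cons_ae (cons_ae (fun _ => rfl_ae) rfl_ae) rfl_ae) rfl_ae))).1 hno
        rw [← ae_not] at hno'
        obtain ⟨m, b1, b2, b3, b4, b5, b6, b7⟩ := (hno'.and (hσ.and (hz3.and (hz4.and
          ((hcompl _ hub).and (hpm3.and hn)))))).exists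
        refine b2.2.2 ⟨rep κ m, lt_of_le_of_lt ((le_max_left _ _).trans (le_max_right _ _)) b3.1,
          fun V h1 h2 h3 => b1 ?_⟩
        have e1 := (ex_use hψ (dec (Nat.pair (rep κ m) (Nat.pair (rep i' m)
          (Nat.pair (rep n m) (pm m)))))).choose_spec V (cons (↑(σ m))
          fun _ => {t | q.cd.R m (rep c m) t}) fun j t ht => by
            have ht' : t < use (cod (.inl ψ)) (Nat.pair (rep κ m) (Nat.pair (rep i' m)
              (Nat.pair (rep n m) (pm m)))) := by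
              rw [use, ops_cod]
              simpa [hψ] using ht
            cases j with
            | zero => exact h1 t (ht'.trans b3.2)
            | succ j =>
              have f1 : rep c m ≤ max (max (rep c m) (rep c' m)) (max (rep κ m) (rep d m)) :=
                (le_max_left _ _).trans (le_max_left _ _)
              have f2 : rep c' m ≤ max (max (rep c m) (rep c' m)) (max (rep κ m) (rep d m)) :=
                (le_max_right _ _).trans (le_max_left _ _)
              have h4 := h2 j t (ht'.trans b3.2)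
              show t ∈ V (j + 1) ↔ q.cd.R m (rep c m) t
              exact ⟨fun r => by_contra fun r' => h4.2 (b4 _ f2 t ht'.le ((b5 t ht').2 r')) r,
                fun r => h4.1 (b4 _ f1 t ht'.le r)⟩
        simp only [dec_pair] at e1
        rw [← b7] at h3
        refine (sat_congr ψ (cons_congr (cons_congr (cons_congr (fun j hj => b6 j hj) _) _) _)
          fun _ _ => rfl).1 (e1.1 h3)
      filter_upwards [main, hs, hi', hz', hz3] with m a1 a2 a3 a4 a5
      refine ⟨?_, fun _ _ _ => ?_⟩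
      · rw [a4]
        exact (((le_max_right _ _).trans (le_max_right _ _)).trans a5.1.le)
      · rw [a4, ← a3, ← a2]
        exact a1
  obtain ⟨b, hb1, hb2⟩ := hunif
  obtain ⟨l₂, hl₂⟩ := hb1
  set l'' := max l' l₂ with hl''
  have hbl : ∀ᶠ m in U, b m ≤ q.B l'' m := by
    filter_upwards [hl₂, q.cd.le_of_le (le_max_right l' l₂)] with m e1 e2
    exact e1.trans e2
  have hkillall : ∀ᶠ m in U, ∀ i < q.B l' m, kill1 (g (q.O m)) ψ (rep c m) (rep c' m) (pm m)
      (nn (q.B l m)) i (q.B l'' m) ((Finset.range (q.B l'' m)).filter (q.O m k)) := by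
    filter_upwards [q.rand k hk1 l l' l'' (by omega) (le_max_left _ _), hl, hTL, hb2, hbl, hsize]
      with m r1 r2 r3 r4 r5 r6
    have r7 := r1 _ r2 r3 ?_
    · intro i hi
      exact (hKill _ _ _ _ _).1 (r7 i hi)
    · have hdb : rep d m ≤ b m := (r4 0 (by positivity)).1
      refine count_good (R := fun t => q.cd.R m (rep γ m) t) (d := rep d m) (hdb.trans r5)
        (K := fun i σ => Kill (g (q.O m)) (Nat.pair (cod (.inl ψ)) (Nat.pair (pm m)
          (Nat.pair (rep c m) (rep c' m)))) (nn (q.B l m)) i (q.B l'' m) σ) ?_ r6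
      intro σ hσ hR i hi
      refine (hKill _ _ _ _ _).2 ?_
      have hlt : Nat.pair (bc (rep d m) σ) i < (max (2 ^ rep d m) (q.B l' m) + 1) ^ 2 :=
        (Nat.pair_lt_max_add_one_sq _ _).trans_le (Nat.pow_le_pow_left
          (Nat.succ_le_succ (max_le_max (bc_lt _ _).le hi.le)) 2)
      obtain ⟨_, r8⟩ := r4 _ hlt
      simp only [Nat.unpair_pair] at r8
      refine kill1_mono (σ := σ.filter (· < b m)) r5 (fun t ht => by simp [ht])
        (r8 (bc_lt _ _) hR hi _ (fun t ht => Finset.mem_range.2 (Finset.mem_filter.1 ht).2) ?_)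
      refine Nat.eq_of_testBit_eq fun t => ?_
      rcases lt_or_ge t (rep d m) with ht | ht
      · rw [Bool.eq_iff_iff, bc_test _ ht, bc_test _ ht]
        simp [ht.trans_le hdb]
      · rw [bc_test_ge _ ht, bc_test_ge _ ht]
  -- conclusion
  obtain ⟨fκ, hfκ⟩ := ae_choose (P := fun m κ => κ < q.B l'' m ∧ ∀ V : ℕ → Set ℕ,
    (∀ x < q.B l'' m, x ∈ V 0 ↔ x ∈ (Finset.range (q.B l'' m)).filter (q.O m k)) →
    (∀ j, ∀ x < q.B l'' m, (Rh (restr (g (q.O m)) (q.B l'' m)) (rep c m) x → x ∈ V (j + 1)) ∧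
      (Rh (restr (g (q.O m)) (q.B l'' m)) (rep c' m) x → x ∉ V (j + 1))) →
    ¬ Sat std ψ (cons κ (cons (rep i m) (cons (nn (q.B l m)) (dec (pm m))))) V) (by
      filter_upwards [hkillall, hil'] with m e1 e2
      obtain ⟨κ, h1, h2⟩ := e1 _ e2
      exact ⟨κ, h1, h2⟩)
  obtain ⟨κ, hκ⟩ := ex_rep ((bd_B (p := q.cd) l'').mono (hfκ.mono fun m e => e.1.le))
  have hYm : ∀ x, x ∈ {x : q.cd.I | ∀ᶠ m in U, Psi (q.O m) (k + 1) 0 (rep x m)} ↔
      ∀ᶠ m in U, rep x m ∈ {t | q.O m k t} := fun x => Iff.rfl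
  have hyes := (los hψ (V := cons {x : q.cd.I | ∀ᶠ m in U, Psi (q.O m) (k + 1) 0 (rep x m)} fun _ => X)
    (W := fun m => cons {t | q.O m k t} fun _ => {t | q.cd.R m (rep c m) t}) (by
            rintro (_ | j) y
            · exact hYm y
            · exact hXm y) (cons κ (cons i (cons n v)))
          (fun m => cons (rep κ m) (cons (rep i m) (cons (rep n m) fun j => rep (v j) m)))
          (cons_ae (cons_ae (cons_ae (fun _ => rfl_ae) rfl_ae) rfl_ae) rfl_ae)).1 (hi κ)
  obtain ⟨m, b1, b2, b3, b4, b5, b6, b7⟩ := (hyes.and (hfκ.and (hκ.and (hn.and (hpm3.and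
    ((hcompl _ (bd_B (p := q.cd) l'')).and (q.Bτ l''))))))).exists
  refine b2.2 (cons {t | q.O m k t} fun _ => {t | q.cd.R m (rep c m) t}) (fun x hx => ?_)
    (fun j x hx => ⟨fun r => Rh_mono b7 r, fun r r' => (b6 x hx).1 (Rh_mono b7 r) r'⟩) ?_
  · simp only [cons, Finset.mem_filter, Finset.mem_range]
    exact ⟨fun h => ⟨hx, h⟩, fun h => h.2⟩
  · rw [b3, b4] at b1
    exact (sat_congr ψ (cons_congr (cons_congr (cons_congr (fun j hj => (b5 j hj).symm) _) _) _)
          fun _ _ => rfl).1 b1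

end Cr

end Pool.Agent.H653
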