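import Pool.Agent.H653.Hom

set_option autoImplicit false

namespace Pool.Agent.H653

open Filter Pool.Agent.H40.Bsig RanDefs

namespace CD

variable {p : CD}

theorem beta_iff' (a b i x : p.I) :
    (p.M.lt x (p.M.add (p.M.mul b (p.M.add i p.M.one)) p.M.one) ∧
      ∃ q, p.M.add (p.M.mul (p.M.add (p.M.mul b (p.M.add i p.M.one)) p.M.one) q) x = a) ↔
      ∀ᶠ m in U, rep x m = rep a m % (rep b m * (rep i m + 1) + 1) := by
  have k1 : ∀ᶠ m in U, rep (p.M.add (p.M.mul b (p.M.add i p.M.one)) p.M.one) m =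
      rep b m * (rep i m + 1) + 1 := los_tm (.add (.mul (.var 0) (.add (.var 1) .one)) .one)
    (cons b fun _ => i) _ (cons_ae (fun _ => rfl_ae) rfl_ae)
  have key : ∀ q : p.I, ∀ᶠ m in U, rep (p.M.add (p.M.mul (p.M.add (p.M.mul b
      (p.M.add i p.M.one)) p.M.one) q) x) m = (rep b m * (rep i m + 1) + 1) * rep q m + rep x m :=
    fun q => los_tm (.add (.mul (.add (.mul (.var 0) (.add (.var 1) .one)) .one) (.var 2)) (.var 3))
      (cons b (cons i (cons q fun _ => x))) _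
      (cons_ae (cons_ae (cons_ae (fun _ => rfl_ae) rfl_ae) rfl_ae) rfl_ae)
  refine ⟨fun ⟨h, q, e⟩ => ?_, fun h => ⟨(h.and k1).mono fun m e => e.1.trans_lt
    ((Nat.mod_lt _ (Nat.succ_pos _)).trans_eq e.2.symm), ?_⟩⟩
  · filter_upwards [h, k1, key q] with m a1 a2 a3
    rw [← e, a3, Nat.mul_add_mod, Nat.mod_eq_of_lt (a1.trans_eq a2)]
  · obtain ⟨q, hq⟩ := ex_rep (f := fun m => rep a m / (rep b m * (rep i m + 1) + 1))
      ((bd_rep a).mono (Eventually.of_forall fun _ => Nat.div_le_self _ _))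
    exact ⟨q, (ext_iff _ _).2 (((key q).and (h.and hq)).mono fun m e => by
      rw [e.1, e.2.1, e.2.2, Nat.div_add_mod])⟩

theorem rec_iff (hb : ∀ f g, p.Bd f → p.Bd g → p.Bd fun m => bb (f m) (g m)) {r : ℕ → ℕ → ℕ}
    {st : ℕ → ℕ → ℕ → ℕ → Prop} {a j c : p.I} {v : ℕ → ℕ} (hv : p.Bd v) (h0 : ∀ᶠ m in U, rep a m = r m 0)
    (h1 : ∀ m i y, st m i (r m i) y ↔ y = r m (i + 1)) (h2 : ∀ m, ∀ i ≤ rep j m, r m i ≤ v m)
    {T : p.I → p.I → p.I → Prop}
    (hT : ∀ i y z, p.M.lt i j → (T i y z ↔ ∀ᶠ m in U, st m (rep i m) (rep y m) (rep z m))) :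
    (∃ s h, SeqCode p.M s (p.M.add j p.M.one) h ∧ h p.M.zero = a ∧ h j = c ∧
      ∀ i, p.M.lt i j → T i (h i) (h (p.M.add i p.M.one))) ↔ ∀ᶠ m in U, rep c m = r m (rep j m) := by
  have z : ∀ᶠ m in U, rep p.M.zero m = 0 := rep_mk _ _
  have l0 : p.M.lt p.M.zero (p.M.add j p.M.one) := (z.and (succ_ae j)).mono fun m e => by omega
  have l1 : p.M.lt j (p.M.add j p.M.one) := (succ_ae j).mono fun m e => by omega
  have l2 : ∀ i, p.M.lt i j → p.M.lt i (p.M.add j p.M.one) ∧
      p.M.lt (p.M.add i p.M.one) (p.M.add j p.M.one) := fun i h =>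
    ⟨(h.and (succ_ae j)).mono fun m e => by omega,
      (h.and ((succ_ae j).and (succ_ae i))).mono fun m e => by omega⟩
  constructor
  · rintro ⟨_, h, ⟨x, y, rfl, a1⟩, rfl, rfl, a2⟩
    have a1 := fun i hi => (beta_iff' _ _ _ _).1 (a1 i hi)
    filter_upwards [h0, z, a1 _ l0, a1 _ l1, (ball_iff (bd_rep j) fun m i => st m i
      (rep x m % (rep y m * (i + 1) + 1)) (rep x m % (rep y m * (i + 1 + 1) + 1))).1 fun i hi => by
        filter_upwards [(hT _ _ _ hi).1 (a2 i hi), a1 _ (l2 i hi).1, a1 _ (l2 i hi).2, succ_ae i] with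
          m b1 b2 b3 b4
        rwa [← b2, ← b4, ← b3]] with m b1 b2 b3 b4 b5
    have : ∀ i ≤ rep j m, rep x m % (rep y m * (i + 1) + 1) = r m i := fun i hi => by
      induction i with
      | zero => rw [← b1, b3, b2]
      | succ i ih => exact (h1 m i _).1 (ih (by omega) ▸ b5 i hi)
    rw [b4, this _ le_rfl]
  · intro e
    choose x hx y hy hxy using fun m => bb_spec (l := rep j m + 1) fun i hi =>
      h2 m i (Nat.le_of_lt_succ hi)
    have b := hb _ _ ((bd_rep j).add (bd_const 1)) hv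
    obtain ⟨x', hx'⟩ := ex_rep (b.mono (Eventually.of_forall hx))
    obtain ⟨y', hy'⟩ := ex_rep (b.mono (Eventually.of_forall hy))
    choose h hh using fun i : p.I => ex_rep (f := fun m => rep x' m % (rep y' m * (rep i m + 1) + 1))
      ((bd_rep x').mono (Eventually.of_forall fun _ => Nat.mod_le _ _))
    have k : ∀ i, p.M.lt i (p.M.add j p.M.one) → ∀ᶠ m in U, rep (h i) m = r m (rep i m) := fun i hi => by
      filter_upwards [hh i, hx', hy', hi, succ_ae j] with m a1 a2 a3 a4 a5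
      rw [a1, a2, a3, hxy m _ (a5 ▸ a4)]
    refine ⟨_, h, ⟨x', y', rfl, fun i _ => (beta_iff' _ _ _ _).2 (hh i)⟩, (ext_iff _ _).2 ?_,
      (ext_iff _ _).2 (((k _ l1).and e).mono fun m e => e.1.trans e.2.symm), fun i hi => (hT _ _ _ hi).2 ?_⟩
    · filter_upwards [k _ l0, z, h0] with m a1 a2 a3
      rw [a1, a2, a3]
    · filter_upwards [k _ (l2 i hi).1, k _ (l2 i hi).2, succ_ae i] with m a1 a2 a3
      rw [a1, h1, a2, a3]

theorem cnt_iff (hb : ∀ f g, p.Bd f → p.Bd g → p.Bd fun m => bb (f m) (g m)) {C : Set p.I}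
    {W : ℕ → ℕ → Prop} (h : ∀ x, x ∈ C ↔ ∀ᶠ m in U, W m (rep x m)) (j c : p.I) :
    Cnt p.M C j c ↔ ∀ᶠ m in U, rep c m = ct (W m) (rep j m) :=
  rec_iff hb (r := fun m => ct (W m)) (st := fun m i y z => (W m i → z = y + 1) ∧ (¬ W m i → z = y))
      (T := fun i y z => (i ∈ C → z = p.M.add y p.M.one) ∧ (i ∉ C → z = y))
      (bd_rep j) (rep_mk _ _) (fun m i y => by
        have := ct_succ (W m) i
        by_cases e : W m i <;> simp_all) (fun m i e => (ct_le _ _).trans e) fun i y z _ => by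
      rw [h, ext_iff, ext_iff]
      by_cases e : ∀ᶠ m in U, W m (rep i m)
      · simp only [e, true_imp_iff, not_true, false_imp_iff, and_true]
        exact eventually_congr ((e.and (succ_ae y)).mono fun m a => by simp [a.1, a.2])
      · simp only [e, true_imp_iff, not_false_iff, false_imp_iff, true_and]
        exact eventually_congr ((ae_not.2 e).mono fun m a => by simp [a])

theorem pow2_iff (hb : ∀ f g, p.Bd f → p.Bd g → p.Bd fun m => bb (f m) (g m)) (k e : p.I) :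
    Pow2 p.M k e ↔ ∀ᶠ m in U, rep e m = 2 ^ rep k m := by
  have bp : p.Bd fun m => 2 ^ rep k m := (hb _ _ (bd_rep k) (bd_rep k)).mono
    (Eventually.of_forall fun _ => Nat.le_add_left _ _)
  exact rec_iff hb (r := fun _ i => 2 ^ i) (st := fun _ _ y z => z = y + y)
      (T := fun _ y z => z = p.M.add y y) bp (rep_mk _ _) (fun m i y => by rw [pow_succ, mul_two])
      (fun m i e => Nat.pow_le_pow_right two_pos e) fun i y z _ => (ext_iff _ _).trans
        (eventually_congr ((add_ae y y).mono fun m a => by rw [a]))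

theorem bit_iff (hb : ∀ f g, p.Bd f → p.Bd g → p.Bd fun m => bb (f m) (g m)) (s i : p.I) :
    Bit p.M s i ↔ ∀ᶠ m in U, (rep s m).testBit (rep i m) = true := by
  have key : ∀ e q r : p.I, ∀ᶠ m in U, rep (p.M.add (p.M.mul (p.M.add (p.M.add q q) p.M.one) e) r) m =
      (rep q m + rep q m + 1) * rep e m + rep r m := fun e q r =>
    los_tm (.add (.mul (.add (.add (.var 0) (.var 0)) .one) (.var 1)) (.var 2))
      (cons q (cons e fun _ => r)) _ (cons_ae (cons_ae (fun _ => rfl_ae) rfl_ae) rfl_ae)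
  constructor
  · rintro ⟨e, q, r, h1, h2, h3⟩
    have h3' := (ext_iff _ _).1 h3
    filter_upwards [(pow2_iff hb _ _).1 h1, h2, h3', key e q r] with m a1 a2 a3 a4
    rw [a3, a4, Nat.testBit_eq_decide_div_mod_eq, a1]
    have : (0 : ℕ) < 2 ^ rep i m := by positivity
    rw [a1] at a2
    rw [Nat.add_comm, Nat.add_mul_div_right _ _ this, Nat.div_eq_of_lt a2]
    simp
    omega
  · intro h
    have hle : ∀ᶠ m in U, 2 ^ rep i m ≤ rep s m := h.mono fun m a => Nat.ge_two_pow_of_testBit a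
    obtain ⟨e, he⟩ := ex_rep ((bd_rep s).mono hle)
    obtain ⟨q, hq⟩ := ex_rep (f := fun m => rep s m / 2 ^ rep i m / 2) ((bd_rep s).mono
      (Eventually.of_forall fun m => (Nat.div_le_self _ _).trans (Nat.div_le_self _ _)))
    obtain ⟨r, hr⟩ := ex_rep (f := fun m => rep s m % 2 ^ rep i m) ((bd_rep s).mono
      (Eventually.of_forall fun m => Nat.mod_le _ _))
    refine ⟨e, q, r, (pow2_iff hb _ _).2 he, ?_, (ext_iff _ _).2 ?_⟩
    · filter_upwards [he, hr] with m a1 a2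
      rw [a1, a2]
      exact Nat.mod_lt _ (by positivity)
    · filter_upwards [key e q r, he, hq, hr, h] with m a1 a2 a3 a4 a5
      rw [a1, a2, a3, a4]
      rw [Nat.testBit_eq_decide_div_mod_eq, decide_eq_true_eq] at a5
      have e1 : rep s m / 2 ^ rep i m / 2 + rep s m / 2 ^ rep i m / 2 + 1 = rep s m / 2 ^ rep i m := by
        omega
      rw [e1, Nat.div_add_mod']

end CD

end Pool.Agent.H653
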