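import Pool.Agent.H653.Avg

set_option autoImplicit false

namespace Pool.Agent.H653

open Finset Classical

/-- Among the subsets of `U`, at least a quarter contain `a` and omit `b`. -/
theorem quarter (U : Finset ℕ) {a b : ℕ} (ha : a ∈ U) (hab : a ≠ b) :
    (2 : ℝ) ^ #U ≤ 4 * ∑ S ∈ U.powerset, if a ∈ S ∧ b ∉ S then (1 : ℝ) else 0 := by
  rw [← Finset.sum_filter, sum_const, nsmul_eq_mul, mul_one]
  have h1 : #(((U.erase a).erase b).powerset) ≤ #(U.powerset.filter fun S => a ∈ S ∧ b ∉ S) := by
    refine card_le_card_of_injOn (fun S => insert a S) (fun S hS => ?_) fun S hS S' hS' e => ?_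
    · simp only [coe_powerset, Set.mem_preimage, Set.mem_powerset_iff, coe_subset] at hS
      simp only [coe_filter, mem_powerset, Set.mem_ofPred_eq]
      refine ⟨insert_subset ha (hS.trans ((erase_subset _ _).trans (erase_subset _ _))),
        mem_insert_self _ _, fun h => ?_⟩
      rcases mem_insert.1 h with h | h
      · exact hab h.symm
      · exact absurd (hS h) (by simp)
    · simp only [coe_powerset, Set.mem_preimage, Set.mem_powerset_iff, coe_subset] at hS hS'
      have k : ∀ T : Finset ℕ, T ⊆ (U.erase a).erase b → a ∉ T := fun T hT h => by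
        have := hT h
        simp at this
      rw [← erase_insert (k S hS), ← erase_insert (k S' hS')]
      exact congrArg (fun T : Finset ℕ => T.erase a) e
  rw [card_powerset] at h1
  have h2 : #U ≤ #((U.erase a).erase b) + 2 := by
    have := card_erase_add_one ha
    have := pred_card_le_card_erase (s := U.erase a) (a := b)
    omega
  calc (2 : ℝ) ^ #U ≤ 2 ^ (#((U.erase a).erase b) + 2) := pow_le_pow_right₀ (by norm_num) h2
    _ = 4 * ((2 ^ #((U.erase a).erase b) : ℕ) : ℝ) := by push_cast; ring
    _ ≤ _ := by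
      refine mul_le_mul_of_nonneg_left ?_ (by norm_num)
      exact_mod_cast h1

/-- The selection lemma. -/
theorem select {ι : Type} (P : Finset ι) (G : Finset ℕ) (B : ℕ → Finset ℕ)
    (F : ι → ℕ → Finset ℕ) (hF : ∀ p j, F p j ⊆ B j) (Ind : Finset ℕ → Prop) (θ q : ℝ)
    (hθ0 : 0 ≤ θ) (hθ1 : θ ≤ 1) (hq0 : 0 ≤ q) (hq1 : q ≤ 1) (γ : ℕ → ℝ)
    (J : Finset ℕ)
    (hB : ∀ j ∈ J, ∀ w : ℕ → ℝ, (∀ x, 0 ≤ w x) →
      ∃ I ⊆ B j, Ind I ∧ θ * ∑ x ∈ B j, w x ≤ ∑ x ∈ I, w x) :
    ∀ (a : ι → ℝ) (b : ι → ℕ → ℝ), (∀ p, 0 ≤ a p) →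
    ∃ Y ⊆ J, ∃ I : ℕ → Finset ℕ, (∀ j ∈ Y, I j ⊆ B j ∧ Ind (I j)) ∧
      ∑ p ∈ P, (a p * (if ∀ j ∈ Y, Disjoint (F p j) (I j) then 1 else 0) +
          ∑ g ∈ G, b p g * γ g ^ #{j ∈ Y | (F p j).Nonempty}) ≤
        ∑ p ∈ P, (a p * (1 - q * θ) ^ #{j ∈ J | (F p j).Nonempty} +
          ∑ g ∈ G, b p g * (1 - q + q * γ g) ^ #{j ∈ J | (F p j).Nonempty}) := by
  induction J using Finset.induction_on with
  | empty =>
    intro a b _
    exact ⟨∅, Subset.rfl, fun _ => ∅, by simp, by simp⟩
  | @insert j0 J hj ih =>
    intro a b ha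
    have ih := ih fun j hj => hB j (mem_insert_of_mem hj)
    set N : ι → ℕ := fun p => #{j ∈ J | (F p j).Nonempty} with hN
    have hqθ : 0 ≤ 1 - q * θ := by nlinarith
    -- representatives
    choose! rep hrep using fun p (h : (F p j0).Nonempty) => h
    obtain ⟨I0, h1, h2, h3⟩ := hB j0 (mem_insert_self _ _)
      (fun x => ∑ p ∈ P with (F p j0).Nonempty ∧ rep p = x, a p * (1 - q * θ) ^ N p)
      fun x => sum_nonneg fun p _ => mul_nonneg (ha p) (pow_nonneg hqθ _)
    have e1 : ∀ S : Finset ℕ, ∑ x ∈ S, ∑ p ∈ P with (F p j0).Nonempty ∧ rep p = x,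
        a p * (1 - q * θ) ^ N p = ∑ p ∈ P, if (F p j0).Nonempty ∧ rep p ∈ S then
          a p * (1 - q * θ) ^ N p else 0 := fun S => by
      simp only [sum_filter]
      rw [sum_comm]
      refine sum_congr rfl fun p _ => ?_
      by_cases h : (F p j0).Nonempty
      · simp [h]
      · simp [h]
    rw [e1, e1] at h3
    have e2 : ∀ p, #{j ∈ insert j0 J | (F p j).Nonempty} =
        N p + if (F p j0).Nonempty then 1 else 0 := fun p => by
      rw [filter_insert]
      split_ifs with h
      · rw [card_insert_of_notMem (by simp [hj])]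
      · rfl
    set a2 : ι → ℝ := fun p => if (F p j0).Nonempty ∧ ¬ Disjoint (F p j0) I0 then 0 else a p with ha2
    set b2 : ι → ℕ → ℝ := fun p g => if (F p j0).Nonempty then b p g * γ g else b p g with hb2
    set R1 := ∑ p ∈ P, (a p * (1 - q * θ) ^ N p + ∑ g ∈ G, b p g * (1 - q + q * γ g) ^ N p) with hR1
    set R2 := ∑ p ∈ P, (a2 p * (1 - q * θ) ^ N p + ∑ g ∈ G, b2 p g * (1 - q + q * γ g) ^ N p) with hR2
    set R := ∑ p ∈ P, (a p * (1 - q * θ) ^ #{j ∈ insert j0 J | (F p j).Nonempty} +
          ∑ g ∈ G, b p g * (1 - q + q * γ g) ^ #{j ∈ insert j0 J | (F p j).Nonempty}) with hR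
    have key : (1 - q) * R1 + q * R2 ≤ R := by
      have k1 : ∀ p, (1 - q) * (a p * (1 - q * θ) ^ N p + ∑ g ∈ G, b p g * (1 - q + q * γ g) ^ N p) +
          q * (a2 p * (1 - q * θ) ^ N p + ∑ g ∈ G, b2 p g * (1 - q + q * γ g) ^ N p) ≤
          (a p * (1 - q * θ) ^ #{j ∈ insert j0 J | (F p j).Nonempty} +
          ∑ g ∈ G, b p g * (1 - q + q * γ g) ^ #{j ∈ insert j0 J | (F p j).Nonempty}) +
          q * (θ * (if (F p j0).Nonempty ∧ rep p ∈ B j0 then a p * (1 - q * θ) ^ N p else 0) -
            (if (F p j0).Nonempty ∧ rep p ∈ I0 then a p * (1 - q * θ) ^ N p else 0)) := by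
        intro p
        rw [e2]
        by_cases h : (F p j0).Nonempty
        · have k2 : ∑ g ∈ G, b2 p g * (1 - q + q * γ g) ^ N p =
              ∑ g ∈ G, γ g * (b p g * (1 - q + q * γ g) ^ N p) := sum_congr rfl fun g _ => by
            simp only [hb2, if_pos h]; ring
          have k3 : ∑ g ∈ G, b p g * (1 - q + q * γ g) ^ (N p + 1) =
              (1 - q) * ∑ g ∈ G, b p g * (1 - q + q * γ g) ^ N p +
                q * ∑ g ∈ G, γ g * (b p g * (1 - q + q * γ g) ^ N p) := by
            rw [mul_sum, mul_sum, ← sum_add_distrib]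
            exact sum_congr rfl fun g _ => by ring
          have k4 : rep p ∈ B j0 := hF p j0 (hrep p h)
          have k5 : a2 p * (1 - q * θ) ^ N p ≤ a p * (1 - q * θ) ^ N p -
              (if (F p j0).Nonempty ∧ rep p ∈ I0 then a p * (1 - q * θ) ^ N p else 0) := by
            by_cases h' : rep p ∈ I0
            · have : ¬ Disjoint (F p j0) I0 := fun hd => disjoint_left.1 hd (hrep p h) h'
              simp only [ha2, if_pos (And.intro h this), if_pos (And.intro h h')]
              simp
            · rw [if_neg (fun e => h' e.2), sub_zero]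
              refine mul_le_mul_of_nonneg_right ?_ (pow_nonneg hqθ _)
              simp only [ha2]
              split_ifs
              · exact ha p
              · exact le_rfl
          rw [if_pos h, k2, k3, if_pos (And.intro h k4)]
          have := mul_le_mul_of_nonneg_left k5 hq0
          rw [pow_succ]
          nlinarith [this]
        · have k2 : ∑ g ∈ G, b2 p g * (1 - q + q * γ g) ^ N p =
              ∑ g ∈ G, b p g * (1 - q + q * γ g) ^ N p := sum_congr rfl fun g _ => by
            simp only [hb2, if_neg h]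
          have k3 : a2 p = a p := by simp only [ha2, h, false_and, if_false]
          rw [k2, k3, if_neg h, if_neg (fun e => h e.1), if_neg (fun e => h e.1), add_zero]
          apply le_of_eq
          ring
      have k2 := sum_le_sum fun p (_ : p ∈ P) => k1 p
      rw [sum_add_distrib, sum_add_distrib, ← mul_sum, ← mul_sum, ← mul_sum, sum_sub_distrib,
        ← mul_sum] at k2
      have k3 := mul_le_mul_of_nonneg_left (sub_nonpos.2 h3) hq0
      rw [mul_zero] at k3
      linarith
    rcases le_or_gt R1 R with hh | hh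
    · obtain ⟨Y, hY, I, hI, hs⟩ := ih a b ha
      exact ⟨Y, hY.trans (subset_insert _ _), I, hI, hs.trans hh⟩
    · have hh2 : R2 ≤ R := by
        rcases hq0.eq_or_lt with h0 | h0
        · rw [← h0] at key
          linarith
        · by_contra hc
          push Not at hc
          nlinarith
      obtain ⟨Y, hY, I, hI, hs⟩ := ih a2 b2 fun p => by
        simp only [ha2]
        split_ifs
        · exact le_rfl
        · exact ha p
      have hjY : j0 ∉ Y := fun h => hj (hY h)
      refine ⟨insert j0 Y, insert_subset_insert _ hY, Function.update I j0 I0, ?_, le_trans (le_of_eq ?_)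
        (hs.trans hh2)⟩
      · intro j hjj
        rcases mem_insert.1 hjj with rfl | hjj
        · rw [Function.update_self]
          exact ⟨h1, h2⟩
        · rw [Function.update_of_ne (show j ≠ j0 from fun e => hjY (e ▸ hjj))]
          exact hI j hjj
      · refine sum_congr rfl fun p _ => ?_
        have u : (∀ j ∈ insert j0 Y, Disjoint (F p j) (Function.update I j0 I0 j)) ↔
            Disjoint (F p j0) I0 ∧ ∀ j ∈ Y, Disjoint (F p j) (I j) := by
          rw [forall_mem_insert, Function.update_self]
          refine and_congr Iff.rfl (forall₂_congr fun j hjj => ?_)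
          rw [Function.update_of_ne (show j ≠ j0 from fun e => hjY (e ▸ hjj))]
        have v : #{j ∈ insert j0 Y | (F p j).Nonempty} =
            #{j ∈ Y | (F p j).Nonempty} + if (F p j0).Nonempty then 1 else 0 := by
          rw [filter_insert]
          split_ifs with h
          · rw [card_insert_of_notMem (by simp [hjY])]
          · rfl
        rw [v]
        congr 1
        · simp only [u, ha2]
          by_cases h : (F p j0).Nonempty
          · by_cases h' : Disjoint (F p j0) I0
            · simp [h']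
            · simp [h, h']
          · rw [not_nonempty_iff_eq_empty] at h
            simp [h]
        · refine sum_congr rfl fun g _ => ?_
          simp only [hb2]
          split_ifs
          · ring
          · simp

end Pool.Agent.H653
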